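import Pool.Agent.H99S.Defs
import Pool.Agent.H99.Circ.Defs

/-!
# Level sets of the Green's function of a conformal image of the disc

`IsGreen`, `level` are in `Pool/Agent/H99/Circ/Defs.lean`.

Let `v z = g (ψ z) + log ‖z‖` on `ball 0 1 \ {0}`.  It is harmonic there; near `0`,
`g (ψ z) = k (ψ z) - log ‖ψ z - a‖` with `k` harmonic near `a = ψ 0`, so
`v z = k (ψ z) - log ‖(ψ z - ψ 0) / z‖` extends to a harmonic function (`deriv ψ 0 ≠ 0`, because
`φ ∘ ψ = id`).  For `ε > 0` there is a compact `K ⊆ D` with `|g| < ε` on `D \ K`; `φ '' K` is a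
compact subset of the disc, so `|v| < 2 ε` near the unit circle; by the maximum principle
(for `exp` of the holomorphic function with real part `v`) `|v| ≤ 2 ε` in the disc.
Hence `v = 0`: `g (ψ z) = -log ‖z‖`.
-/

set_option autoImplicit false

open Complex ComplexConjugate Metric Set Filter Topology

namespace Pool.Agent.H99S

open Pool.Agent.H99.Circ

/-- A harmonic function composed with a holomorphic one is harmonic. -/
theorem harmonicAt_comp_analytic {g : ℂ → ℝ} {ψ : ℂ → ℂ} {z : ℂ}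
    (hg : InnerProductSpace.HarmonicAt g (ψ z)) (hψ : AnalyticAt ℂ ψ z) :
    InnerProductSpace.HarmonicAt (fun w => g (ψ w)) z := by
  obtain ⟨R, hR, hball⟩ := Metric.eventually_nhds_iff_ball.1 hg.eventually
  obtain ⟨F, hF, hFe⟩ :=
    InnerProductSpace.HarmonicOnNhd.exists_analyticOnNhd_ball_re_eq (f := g) (z := ψ z) (R := R)
      hball
  have hFz : AnalyticAt ℂ F (ψ z) := hF _ (mem_ball_self hR)
  have hcomp : AnalyticAt ℂ (fun w => F (ψ w)) z := hFz.comp hψ
  have hev : (fun w => (F (ψ w)).re) =ᶠ[𝓝 z] fun w => g (ψ w) := by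
    have : ∀ᶠ w in 𝓝 z, ψ w ∈ ball (ψ z) R :=
      hψ.continuousAt.eventually (isOpen_ball.mem_nhds (mem_ball_self hR))
    filter_upwards [this] with w hw
    exact hFe hw
  exact (InnerProductSpace.harmonicAt_congr_nhds hev).1 hcomp.harmonicAt_re

/-- The maximum principle for a harmonic function in the unit disc. -/
theorem harmonic_le {V : ℂ → ℝ} (hV : ∀ z ∈ ball (0 : ℂ) 1, InnerProductSpace.HarmonicAt V z)
    {ρ M : ℝ} (hρ0 : 0 < ρ) (hρ1 : ρ < 1) (hM : ∀ z : ℂ, ‖z‖ = ρ → V z ≤ M) {z : ℂ}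
    (hz : ‖z‖ ≤ ρ) : V z ≤ M := by
  obtain ⟨F, hF, hFe⟩ :=
    InnerProductSpace.HarmonicOnNhd.exists_analyticOnNhd_ball_re_eq (f := V) (z := 0) (R := 1) hV
  have hsub : closedBall (0 : ℂ) ρ ⊆ ball 0 1 := closedBall_subset_ball hρ1
  have hd : DiffContOnCl ℂ (fun w => exp (F w)) (ball 0 ρ) := by
    refine DifferentiableOn.diffContOnCl ?_
    rw [closure_ball _ hρ0.ne']
    intro w hw
    exact ((hF w (hsub hw)).differentiableAt.cexp).differentiableWithinAt
  have hb : ∀ w ∈ frontier (ball (0 : ℂ) ρ), ‖exp (F w)‖ ≤ Real.exp M := by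
    intro w hw
    rw [frontier_ball _ hρ0.ne', mem_sphere_zero_iff_norm] at hw
    rw [Complex.norm_exp]
    apply Real.exp_le_exp.2
    have h1 : w ∈ ball (0 : ℂ) 1 := by
      rw [mem_ball_zero_iff, hw]; exact hρ1
    have h2 : (F w).re = V w := hFe h1
    rw [h2]
    exact hM w hw
  have hzc : z ∈ closure (ball (0 : ℂ) ρ) := by
    rw [closure_ball _ hρ0.ne', mem_closedBall_zero_iff]; exact hz
  have := Complex.norm_le_of_forall_mem_frontier_norm_le isBounded_ball hd hb hzc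
  rw [Complex.norm_exp, Real.exp_le_exp] at this
  have h1 : z ∈ ball (0 : ℂ) 1 := by
    rw [mem_ball_zero_iff]; exact hz.trans_lt hρ1
  have h2 : (F z).re = V z := hFe h1
  rw [h2] at this
  exact this

theorem green_eq {D : Set ℂ} {a : ℂ} {ψ φ : ℂ → ℂ} (hD : IsOpen D)
    (hψ : DifferentiableOn ℂ ψ (ball 0 1)) (hφ : DifferentiableOn ℂ φ D)
    (hψm : MapsTo ψ (ball 0 1) D) (hφm : MapsTo φ D (ball 0 1))
    (hφψ : ∀ z ∈ ball (0 : ℂ) 1, φ (ψ z) = z) (hψφ : ∀ w ∈ D, ψ (φ w) = w) (hψ0 : ψ 0 = a)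
    {g : ℂ → ℝ} (hg : IsGreen D a g) {z : ℂ} (hz : z ∈ ball (0 : ℂ) 1) (hz0 : z ≠ 0) :
    g (ψ z) = -Real.log ‖z‖ := by
  obtain ⟨hharm, ⟨k, hk, hke⟩, hbd⟩ := hg
  have h0 : (0 : ℂ) ∈ ball (0 : ℂ) 1 := mem_ball_self one_pos
  have hψan : ∀ w ∈ ball (0 : ℂ) 1, AnalyticAt ℂ ψ w := fun w hw =>
    hψ.analyticAt (isOpen_ball.mem_nhds hw)
  have haD : a ∈ D := hψ0 ▸ hψm h0
  have hne : ∀ w ∈ ball (0 : ℂ) 1, w ≠ 0 → ψ w ≠ a := by
    intro w hw hw0 h
    apply hw0
    rw [← hφψ w hw, h, ← hψ0, hφψ 0 h0]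
  -- derivative of `ψ` at the origin
  have hder : deriv ψ 0 ≠ 0 := by
    intro hd0
    have h1 : HasDerivAt ψ 0 0 := by
      have := (hψan 0 h0).differentiableAt.hasDerivAt
      rwa [hd0] at this
    have h2 : HasDerivAt φ (deriv φ (ψ 0)) (ψ 0) := by
      rw [hψ0]
      exact (hφ.differentiableAt (hD.mem_nhds haD)).hasDerivAt
    have h3 : HasDerivAt (fun w => φ (ψ w)) (deriv φ (ψ 0) * 0) 0 := h2.comp (0 : ℂ) h1
    have h4 : (fun w => φ (ψ w)) =ᶠ[𝓝 0] fun w => w := by
      filter_upwards [isOpen_ball.mem_nhds h0] with w hw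
      exact hφψ w hw
    have h5 : HasDerivAt (fun w : ℂ => w) (deriv φ (ψ 0) * 0) 0 :=
      h3.congr_of_eventuallyEq h4.symm
    have h6 := h5.unique (hasDerivAt_id (0 : ℂ))
    simp at h6
  set q : ℂ → ℂ := dslope ψ 0 with hq
  have hqan : AnalyticAt ℂ q 0 := by
    have : DifferentiableOn ℂ q (ball 0 1) :=
      (Complex.differentiableOn_dslope (isOpen_ball.mem_nhds h0)).2 hψ
    exact this.analyticAt (isOpen_ball.mem_nhds h0)
  have hq0 : q 0 ≠ 0 := by rw [hq, dslope_same]; exact hder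
  set V : ℂ → ℝ := fun w => if w = 0 then k a - Real.log ‖q 0‖ else g (ψ w) + Real.log ‖w‖ with hVd
  have hVne : ∀ w : ℂ, w ≠ 0 → V w = g (ψ w) + Real.log ‖w‖ := by
    intro w hw
    simp only [hVd, if_neg hw]
  have hV : ∀ w ∈ ball (0 : ℂ) 1, InnerProductSpace.HarmonicAt V w := by
    intro w hw
    by_cases hw0 : w = 0
    · subst hw0
      have hk' : InnerProductSpace.HarmonicAt k (ψ 0) := by rw [hψ0]; exact hk
      have h1 : InnerProductSpace.HarmonicAt (fun w => k (ψ w)) 0 :=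
        harmonicAt_comp_analytic hk' (hψan 0 h0)
      have h2 : InnerProductSpace.HarmonicAt (fun w => Real.log ‖q w‖) 0 :=
        hqan.harmonicAt_log_norm hq0
      have h3 := h1.sub h2
      refine (InnerProductSpace.harmonicAt_congr_nhds ?_).1 h3
      have hke' : ∀ᶠ u in 𝓝 a, u ≠ a → g u = k u - Real.log ‖u - a‖ := by
        have := eventually_nhdsWithin_iff.1 hke
        filter_upwards [this] with u hu hua
        exact hu hua
      have hke'' : ∀ᶠ w in 𝓝 (0 : ℂ), ψ w ≠ a → g (ψ w) = k (ψ w) - Real.log ‖ψ w - a‖ := by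
        have hc : Tendsto ψ (𝓝 0) (𝓝 a) := by
          have := (hψan 0 h0).continuousAt.tendsto
          rwa [hψ0] at this
        exact hc.eventually hke'
      filter_upwards [hke'', isOpen_ball.mem_nhds h0] with u hu hub
      by_cases hu0 : u = 0
      · subst hu0
        simp only [hVd, if_true, Pi.sub_apply]
        rw [hψ0]
      · rw [hVne u hu0]
        have hua := hne u hub hu0
        rw [hu hua]
        simp only [Pi.sub_apply]
        have hqu : q u = u⁻¹ * (ψ u - a) := by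
          rw [hq, dslope_of_ne _ hu0, slope_def_field, hψ0, sub_zero, div_eq_inv_mul]
        rw [hqu, norm_mul, norm_inv, Real.log_mul (by simpa using hu0)
          (by simpa [sub_eq_zero] using hua), Real.log_inv]
        ring
    · have hgw : InnerProductSpace.HarmonicAt g (ψ w) := hharm _ ⟨hψm hw, hne w hw hw0⟩
      have h1 : InnerProductSpace.HarmonicAt (fun w => g (ψ w)) w :=
        harmonicAt_comp_analytic hgw (hψan w hw)
      have h2 : InnerProductSpace.HarmonicAt (fun w : ℂ => Real.log ‖w‖) w :=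
        (analyticAt_id (𝕜 := ℂ) (z := w)).harmonicAt_log_norm hw0
      have h3 := h1.add h2
      refine (InnerProductSpace.harmonicAt_congr_nhds ?_).1 h3
      filter_upwards [isOpen_compl_singleton.mem_nhds (show w ∈ ({0}ᶜ : Set ℂ) from hw0)] with u hu
      rw [hVne u hu]
      rfl
  -- the estimate
  have key : ∀ ε > 0, |V z| ≤ 2 * ε := by
    intro ε hε
    obtain ⟨K, hK, hKD, hKg⟩ := hbd ε hε
    have himg : IsCompact (φ '' K) := hK.image_of_continuousOn (hφ.continuousOn.mono hKD)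
    have himgs : φ '' K ⊆ ball 0 1 := by
      rintro _ ⟨w, hw, rfl⟩
      exact hφm (hKD hw)
    obtain ⟨r, hr1, hr⟩ : ∃ r < 1, ∀ w ∈ φ '' K, ‖w‖ ≤ r := by
      rcases (φ '' K).eq_empty_or_nonempty with he | hne'
      · exact ⟨0, one_pos, by simp [he]⟩
      · obtain ⟨w, hw, hmax⟩ := himg.exists_isMaxOn hne' continuous_norm.continuousOn
        exact ⟨‖w‖, mem_ball_zero_iff.1 (himgs hw), fun u hu => hmax hu⟩
    have hz1 : ‖z‖ < 1 := mem_ball_zero_iff.1 hz
    have hexp : Real.exp (-ε) < 1 := by rw [Real.exp_lt_one_iff]; linarith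
    obtain ⟨ρ, hρl, hρ1⟩ := exists_between (max_lt (max_lt hr1 hz1) hexp)
    have hρr : r < ρ := (le_max_left _ _).trans_lt ((le_max_left _ _).trans_lt hρl)
    have hρz : ‖z‖ < ρ := (le_max_right _ _).trans_lt ((le_max_left _ _).trans_lt hρl)
    have hρe : Real.exp (-ε) < ρ := (le_max_right _ _).trans_lt hρl
    have hρ0 : 0 < ρ := (norm_nonneg z).trans_lt hρz
    have hcirc : ∀ w : ℂ, ‖w‖ = ρ → |V w| ≤ 2 * ε := by
      intro w hw
      have hw0 : w ≠ 0 := by
        intro h; rw [h, norm_zero] at hw; linarith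
      have hwb : w ∈ ball (0 : ℂ) 1 := by rw [mem_ball_zero_iff, hw]; exact hρ1
      have hnK : ψ w ∉ K := by
        intro h
        have := hr (φ (ψ w)) ⟨ψ w, h, rfl⟩
        rw [hφψ w hwb, hw] at this
        linarith
      have h1 : |g (ψ w)| < ε := hKg _ ⟨hψm hwb, hnK⟩
      have h2 : |Real.log ‖w‖| ≤ ε := by
        rw [hw, abs_le]
        constructor
        · rw [← Real.log_exp (-ε)]
          exact Real.log_le_log (Real.exp_pos _) hρe.le
        · exact (Real.log_nonpos hρ0.le hρ1.le).trans hε.le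
      rw [hVne w hw0]
      calc |g (ψ w) + Real.log ‖w‖| ≤ |g (ψ w)| + |Real.log ‖w‖| := abs_add_le _ _
        _ ≤ 2 * ε := by linarith
    have hVneg : ∀ w ∈ ball (0 : ℂ) 1, InnerProductSpace.HarmonicAt (-V) w := fun w hw =>
      (hV w hw).neg
    rw [abs_le]
    constructor
    · have := harmonic_le hVneg hρ0 hρ1 (M := 2 * ε)
        (fun w hw => by
          have := (abs_le.1 (hcirc w hw)).1
          simp only [Pi.neg_apply]; linarith) hρz.le
      simp only [Pi.neg_apply] at this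
      linarith
    · exact harmonic_le hV hρ0 hρ1 (M := 2 * ε)
        (fun w hw => (abs_le.1 (hcirc w hw)).2) hρz.le
  have hVz : V z = 0 := by
    have h1 : |V z| ≤ 0 := by
      apply le_of_forall_pos_le_add
      intro ε hε
      have := key (ε / 2) (by linarith)
      linarith
    exact abs_eq_zero.1 (le_antisymm h1 (abs_nonneg _))
  rw [hVne z hz0] at hVz
  linarith

theorem green_level {D : Set ℂ} {a : ℂ} {ψ φ : ℂ → ℂ} (hD : IsOpen D)
    (hψ : DifferentiableOn ℂ ψ (ball 0 1)) (hφ : DifferentiableOn ℂ φ D)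
    (hψm : MapsTo ψ (ball 0 1) D) (hφm : MapsTo φ D (ball 0 1))
    (hφψ : ∀ z ∈ ball (0 : ℂ) 1, φ (ψ z) = z) (hψφ : ∀ w ∈ D, ψ (φ w) = w) (hψ0 : ψ 0 = a)
    {g : ℂ → ℝ} (hg : IsGreen D a g) {lam : ℝ} (hlam : 0 < lam) :
    level D a g lam = ψ '' ball 0 (Real.exp (-lam)) := by
  have h0 : (0 : ℂ) ∈ ball (0 : ℂ) 1 := mem_ball_self one_pos
  have hexp : Real.exp (-lam) < 1 := by rw [Real.exp_lt_one_iff]; linarith
  ext w
  constructor
  · rintro ⟨hwD, hw⟩
    refine ⟨φ w, ?_, hψφ w hwD⟩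
    rw [mem_ball_zero_iff]
    by_cases h : φ w = 0
    · rw [h, norm_zero]; exact Real.exp_pos _
    · have hwa : w ≠ a := by
        intro hwa
        apply h
        rw [hwa, ← hψ0, hφψ 0 h0]
      have hlt : lam < g w := hw.resolve_left hwa
      have := green_eq hD hψ hφ hψm hφm hφψ hψφ hψ0 hg (hφm hwD) h
      rw [hψφ w hwD] at this
      rw [this] at hlt
      have hpos : 0 < ‖φ w‖ := norm_pos_iff.2 h
      rw [← Real.log_lt_log_iff hpos (Real.exp_pos _), Real.log_exp]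
      linarith
  · rintro ⟨u, hu, rfl⟩
    have hu' : ‖u‖ < Real.exp (-lam) := mem_ball_zero_iff.1 hu
    have hub : u ∈ ball (0 : ℂ) 1 := by rw [mem_ball_zero_iff]; exact hu'.trans hexp
    refine ⟨hψm hub, ?_⟩
    by_cases h : u = 0
    · left; rw [h, hψ0]
    · right
      rw [green_eq hD hψ hφ hψm hφm hφψ hψφ hψ0 hg hub h]
      have hpos : 0 < ‖u‖ := norm_pos_iff.2 h
      rw [← Real.log_lt_log_iff hpos (Real.exp_pos _), Real.log_exp] at hu'
      linarith

end Pool.Agent.H99S
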