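import Pool.Agent.H99S.Defs
import Pool.Agent.H62.Riemann

/-!
# The Riemann mapping theorem for simply connected domains

`Pool/Agent/H62/Riemann.lean` proves the Riemann mapping theorem under the hypothesis
`NoHoles Ω`, which it uses only through `NoHoles.exists_log` (every nonvanishing holomorphic
function on `Ω` has a holomorphic logarithm).  For a simply connected open set this property is
`exists_log_sc` below (Mathlib, `Complex.exists_continuousOn_eqOn_exp_comp`, plus holomorphy of a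
continuous logarithm).  The proofs of `exists_exp_form`, `adm_of_inj`,
`exists_adm_of_hasLogs`, `surj_of_max`, `riemann_hasLogs` are those of helper62 with `HasLogs Ω`
in place of `NoHoles Ω`.
-/

set_option autoImplicit false

open Complex ComplexConjugate Metric Set Filter Topology

namespace Pool.Agent.H99S

/-- Every nonvanishing holomorphic function has a holomorphic logarithm. -/
def HasLogs (Ω : Set ℂ) : Prop :=
  ∀ g : ℂ → ℂ, DifferentiableOn ℂ g Ω → (∀ z ∈ Ω, g z ≠ 0) →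
    ∃ k : ℂ → ℂ, DifferentiableOn ℂ k Ω ∧ ∀ z ∈ Ω, g z = exp (k z)

theorem exists_log_sc {D : Set ℂ} (hD : IsOpen D) (hsc : IsSimplyConnected D) : HasLogs D := by
  intro g hg hg0
  obtain ⟨f, hf, hfg⟩ := Complex.exists_continuousOn_eqOn_exp_comp hsc hD hg.continuousOn
    (by rintro ⟨z, hz, h⟩; exact hg0 z hz h)
  have hfe : ∀ z ∈ D, exp (f z) = g z := fun z hz => hfg hz
  refine ⟨f, fun z₀ hz₀ => ?_, fun z hz => (hfe z hz).symm⟩
  have hfc : ContinuousAt f z₀ := hf.continuousAt (hD.mem_nhds hz₀)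
  have hev : ∀ᶠ z in 𝓝 z₀, f z = f z₀ + log (g z / g z₀) := by
    have h1 : ∀ᶠ z in 𝓝 z₀, dist (f z) (f z₀) < 1 := Metric.tendsto_nhds.mp hfc 1 one_pos
    filter_upwards [h1, hD.mem_nhds hz₀] with z hz hzD
    rw [← hfe z hzD, ← hfe z₀ hz₀, ← exp_sub, log_exp]
    · ring
    · have h2 : |(f z - f z₀).im| < 1 := (abs_im_le_norm _).trans_lt (by rwa [← dist_eq_norm])
      have := (abs_lt.mp h2).1
      have := Real.pi_gt_three
      linarith
    · have h2 : |(f z - f z₀).im| < 1 := (abs_im_le_norm _).trans_lt (by rwa [← dist_eq_norm])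
      have := (abs_lt.mp h2).2
      have := Real.pi_gt_three
      linarith
  have hgd : DifferentiableAt ℂ g z₀ := hg.differentiableAt (hD.mem_nhds hz₀)
  have hd : DifferentiableAt ℂ (fun z => f z₀ + log (g z / g z₀)) z₀ := by
    refine (DifferentiableAt.clog (hgd.div_const _) ?_).const_add _
    rw [div_self (hg0 z₀ hz₀)]
    exact one_mem_slitPlane
  exact (hd.congr_of_eventuallyEq hev).differentiableWithinAt

section copy

open Pool.Agent.H62

variable {Ω : Set ℂ} {g k : ℂ → ℂ}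

theorem exists_exp_form (hΩ : IsOpen Ω) (hc : IsPreconnected Ω) (h0 : (0 : ℂ) ∈ Ω)
    (hnh : HasLogs Ω) (hg : DifferentiableOn ℂ g Ω) (hinj : InjOn g Ω) (hg0 : g 0 = 0) :
    ∃ k, DifferentiableOn ℂ k Ω ∧ ∀ z ∈ Ω, g z = z * exp (k z) := by
  have hG : DifferentiableOn ℂ (dslope g 0) Ω :=
    (Complex.differentiableOn_dslope (hΩ.mem_nhds h0)).mpr hg
  have hGne : ∀ z ∈ Ω, dslope g 0 z ≠ 0 := by
    intro z hz
    by_cases h : z = 0
    · rw [h, dslope_same]; exact deriv_ne_zero_of_injOn hΩ hg hinj h0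
    · rw [dslope_of_ne _ h, slope_def_field, hg0, sub_zero, sub_zero]
      exact div_ne_zero (fun hh => h (hinj hz h0 (by rw [hh, hg0]))) h
  obtain ⟨k, hk, hkG⟩ := hnh _ hG hGne
  refine ⟨k, hk, fun z hz => ?_⟩
  rw [← hkG z hz]
  by_cases h : z = 0
  · rw [h, hg0, zero_mul]
  · rw [dslope_of_ne _ h, slope_def_field, hg0, sub_zero, sub_zero]
    field_simp

theorem adm_of_inj (hΩ : IsOpen Ω) (hc : IsPreconnected Ω) (h0 : (0 : ℂ) ∈ Ω) (hnh : HasLogs Ω)
    (hg : DifferentiableOn ℂ g Ω) (hinj : InjOn g Ω) (hg0 : g 0 = 0) (hm : ∀ z ∈ Ω, ‖g z‖ < 1) :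
    ∃ k, Adm Ω g k := by
  obtain ⟨k, hk, hkg⟩ := exists_exp_form hΩ hc h0 hnh hg hinj hg0
  exact ⟨k, hk, hkg, hinj, hm⟩

theorem exists_adm_of_hasLogs (hΩ : IsOpen Ω) (hc : IsPreconnected Ω) (h0 : (0 : ℂ) ∈ Ω)
    (hnh : HasLogs Ω) (hne : Ω ≠ univ) : ∃ g k, Adm Ω g k := by
  obtain ⟨a, ha⟩ : ∃ a, a ∉ Ω := by
    by_contra hcon
    push Not at hcon
    exact hne (eq_univ_of_forall hcon)
  obtain ⟨l, hl, hle⟩ := hnh (fun z => z - a)
    (differentiableOn_id.sub_const a) (fun z hz h => ha (by rwa [← sub_eq_zero.mp h]))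
  set s : ℂ → ℂ := fun z => exp (l z / 2) with hs
  have hs2 : ∀ z ∈ Ω, s z * s z = z - a := by
    intro z hz
    rw [hs]
    simp only
    rw [← exp_add, add_halves, ← hle z hz]
  have hsd : DifferentiableOn ℂ s Ω := (hl.div_const 2).cexp
  have hsinj : InjOn s Ω := by
    intro z hz w hw hzw
    have h1 := hs2 z hz
    rw [hzw, hs2 w hw] at h1
    linear_combination -h1
  have hs0 : ∀ z, s z ≠ 0 := fun z => exp_ne_zero _
  -- a disc omitted by the opposite
  have hopen : s '' Ω ∈ 𝓝 (s 0) :=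
    (isOpen_image hΩ hsd hsinj hΩ subset_rfl).mem_nhds ⟨0, h0, rfl⟩
  obtain ⟨r, hr, hrs⟩ := Metric.mem_nhds_iff.mp hopen
  have hfar : ∀ z ∈ Ω, r ≤ ‖s z + s 0‖ := by
    intro z hz
    by_contra hlt
    rw [not_le] at hlt
    have h1 : -s z ∈ ball (s 0) r := by
      rw [mem_ball, dist_eq_norm, ← norm_neg]
      have : -(-s z - s 0) = s z + s 0 := by ring
      rwa [this]
    obtain ⟨w, hw, hws⟩ := hrs h1
    have h2 : z = w := by
      have e1 := hs2 z hz
      have e2 := hs2 w hw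
      rw [hws] at e2
      linear_combination e2 - e1
    rw [← h2] at hws
    have h3 : s z = 0 := by linear_combination hws / 2
    exact hs0 z h3
  have hqne : ∀ z ∈ Ω, s z + s 0 ≠ 0 := fun z hz h => by
    have := hfar z hz
    rw [h, norm_zero] at this
    linarith
  set g : ℂ → ℂ := fun z => (r / 3 : ℂ) * ((s z + s 0)⁻¹ - (s 0 + s 0)⁻¹) with hg
  have hgd : DifferentiableOn ℂ g Ω :=
    (((hsd.add_const (s 0)).inv hqne).sub_const _).const_mul _
  have hr3 : (r / 3 : ℂ) ≠ 0 := by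
    have : (r : ℂ) ≠ 0 := ofReal_ne_zero.mpr hr.ne'
    exact div_ne_zero this (by norm_num)
  have hginj : InjOn g Ω := by
    intro z hz w hw hzw
    rw [hg] at hzw
    have h1 := mul_left_cancel₀ hr3 hzw
    have h2 : (s z + s 0)⁻¹ = (s w + s 0)⁻¹ := by linear_combination h1
    have h3 := inv_injective h2
    exact hsinj hz hw (by linear_combination h3)
  have hgb : ∀ z ∈ Ω, ‖g z‖ < 1 := by
    intro z hz
    have hb : ∀ w ∈ Ω, ‖(s w + s 0)⁻¹‖ ≤ 1 / r := by
      intro w hw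
      rw [norm_inv, inv_eq_one_div]
      exact one_div_le_one_div_of_le hr (hfar w hw)
    rw [hg]
    simp only
    rw [norm_mul]
    have h1 : ‖(r / 3 : ℂ)‖ = r / 3 := by
      rw [norm_div, Complex.norm_real, Real.norm_eq_abs, abs_of_pos hr]
      norm_num
    rw [h1]
    have h2 := norm_sub_le ((s z + s 0)⁻¹) ((s 0 + s 0)⁻¹)
    have h3 := hb z hz
    have h4 := hb 0 h0
    calc r / 3 * ‖(s z + s 0)⁻¹ - (s 0 + s 0)⁻¹‖ ≤ r / 3 * (1 / r + 1 / r) := by
          gcongr; linarith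
      _ = 2 / 3 := by field_simp; norm_num
      _ < 1 := by norm_num
  obtain ⟨k, hk⟩ := adm_of_inj hΩ hc h0 hnh hgd hginj (by simp [hg]) hgb
  exact ⟨g, k, hk⟩

/-- A maximiser on a domain without holes is onto. -/
theorem surj_of_max (hΩ : IsOpen Ω) (hc : IsPreconnected Ω) (h0 : (0 : ℂ) ∈ Ω)
    (hnh : HasLogs Ω) (hA : Adm Ω g k)
    (hmax : ∀ g' k', Adm Ω g' k' → ‖exp (k' 0)‖ ≤ ‖exp (k 0)‖) : g '' Ω = ball 0 1 := by
  apply Subset.antisymm
  · rintro _ ⟨z, hz, rfl⟩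
    rw [mem_ball, dist_zero_right]; exact hA.maps z hz
  intro b hb
  by_contra hbg
  rw [mem_ball, dist_zero_right] at hb
  have hg0 : g 0 = 0 := by rw [hA.eq 0 h0, zero_mul]
  have hb0 : b ≠ 0 := by
    rintro rfl; exact hbg ⟨0, h0, hg0⟩
  have hmd : DifferentiableOn ℂ (fun z => mob b (g z)) Ω := by
    intro z hz
    have h1 := (hasDerivAt_mob hb (hA.maps z hz)).differentiableAt
    exact (h1.comp z (hA.differentiableOn.differentiableAt (hΩ.mem_nhds hz))).differentiableWithinAt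
  obtain ⟨l, hl, hle⟩ := hnh _ hmd (fun z hz h =>
    hbg ⟨z, hz, (mob_eq_zero_iff hb (hA.maps z hz)).mp h⟩)
  set q : ℂ → ℂ := fun z => exp (l z / 2) with hq
  have hq2 : ∀ z ∈ Ω, q z * q z = mob b (g z) := by
    intro z hz
    rw [hq]
    simp only
    rw [← exp_add, add_halves, ← hle z hz]
  have hqd : DifferentiableOn ℂ q Ω := (hl.div_const 2).cexp
  have hqn : ∀ z ∈ Ω, ‖q z‖ < 1 := by
    intro z hz
    have h1 : ‖q z‖ * ‖q z‖ < 1 := by
      rw [← norm_mul, hq2 z hz]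
      exact mob_norm_lt hb (hA.maps z hz)
    nlinarith [norm_nonneg (q z)]
  have hqinj : InjOn q Ω := by
    intro z hz w hw hzw
    have h1 := hq2 z hz
    rw [hzw, hq2 w hw] at h1
    exact hA.inj hz hw (mob_inj hb (hA.maps w hw) (hA.maps z hz) h1).symm
  set c : ℂ := q 0 with hcdef
  have hc1 : ‖c‖ < 1 := hqn 0 h0
  have hc2 : c * c = -b := by rw [hcdef, hq2 0 h0, hg0, mob_zero]
  have hc0 : c ≠ 0 := exp_ne_zero _
  set h : ℂ → ℂ := fun z => mob c (q z) with hh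
  have hhd : DifferentiableOn ℂ h Ω := by
    intro z hz
    have h1 := (hasDerivAt_mob hc1 (hqn z hz)).differentiableAt
    exact (h1.comp z (hqd.differentiableAt (hΩ.mem_nhds hz))).differentiableWithinAt
  have hhinj : InjOn h Ω := fun z hz w hw hzw =>
    hqinj hz hw (mob_inj hc1 (hqn z hz) (hqn w hw) hzw)
  have hh0 : h 0 = 0 := by rw [hh]; exact mob_self c
  obtain ⟨κ, hκ⟩ := adm_of_inj hΩ hc h0 hnh hhd hhinj hh0 (fun z hz => mob_norm_lt hc1 (hqn z hz))
  have hle := hmax h κ hκ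
  rw [← hκ.deriv_zero hΩ h0, ← hA.deriv_zero hΩ h0] at hle
  -- derivatives
  have hgder : HasDerivAt g (deriv g 0) 0 :=
    (hA.differentiableOn.differentiableAt (hΩ.mem_nhds h0)).hasDerivAt
  have hqder : HasDerivAt q (deriv q 0) 0 := (hqd.differentiableAt (hΩ.mem_nhds h0)).hasDerivAt
  have hgn : deriv g 0 ≠ 0 := deriv_ne_zero_of_injOn hΩ hA.differentiableOn hA.inj h0
  have e1 : deriv h 0 = (1 - conj c * c) / (1 - conj c * c) ^ 2 * deriv q 0 := by
    have h1 : HasDerivAt (mob c) ((1 - conj c * c) / (1 - conj c * c) ^ 2) (q 0) :=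
      hasDerivAt_mob hc1 hc1
    exact (h1.comp (0 : ℂ) hqder).deriv
  have e2 : deriv q 0 * q 0 + q 0 * deriv q 0 = (1 - conj b * b) * deriv g 0 := by
    have h1 : HasDerivAt (fun z => q z * q z) (deriv q 0 * q 0 + q 0 * deriv q 0) 0 :=
      hqder.mul hqder
    have h2 : HasDerivAt (mob b) ((1 - conj b * b) / (1 - conj b * g 0) ^ 2) (g 0) :=
      hasDerivAt_mob hb (hA.maps 0 h0)
    have h3 := h2.comp (0 : ℂ) hgder
    have h4 : (fun z => q z * q z) =ᶠ[𝓝 0] mob b ∘ g := by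
      filter_upwards [hΩ.mem_nhds h0] with z hz using hq2 z hz
    have h5 := (h1.congr_of_eventuallyEq h4.symm).unique h3
    rw [h5, hg0]
    simp
  -- norms
  have hcc : conj c * c = ((‖c‖ ^ 2 : ℝ) : ℂ) := by
    rw [← Complex.normSq_eq_conj_mul_self, normSq_eq_norm_sq]
  have hbb : conj b * b = ((‖c‖ ^ 4 : ℝ) : ℂ) := by
    rw [← Complex.normSq_eq_conj_mul_self, normSq_eq_norm_sq]
    have : ‖b‖ = ‖c‖ ^ 2 := by
      rw [← norm_neg, ← hc2, norm_mul]; ring
    rw [this]; congr 1; ring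
  set x : ℝ := ‖c‖ with hx
  have hx0 : 0 < x := norm_pos_iff.mpr hc0
  have n1 : ‖deriv h 0‖ = ‖deriv q 0‖ / (1 - x ^ 2) := by
    rw [e1, hcc, norm_mul, norm_div, norm_pow]
    have h1 : ‖(1 : ℂ) - ((x ^ 2 : ℝ) : ℂ)‖ = 1 - x ^ 2 := by
      rw [← ofReal_one, ← ofReal_sub, Complex.norm_real, Real.norm_eq_abs, abs_of_pos]
      nlinarith
    rw [h1]
    have : (1 - x ^ 2) ≠ 0 := by nlinarith
    field_simp
  have n2 : 2 * x * ‖deriv q 0‖ = (1 - x ^ 4) * ‖deriv g 0‖ := by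
    have h1 : ‖deriv q 0 * q 0 + q 0 * deriv q 0‖ = 2 * x * ‖deriv q 0‖ := by
      have : deriv q 0 * q 0 + q 0 * deriv q 0 = 2 * (q 0 * deriv q 0) := by ring
      rw [this, norm_mul, norm_mul]
      simp only [RCLike.norm_ofNat]
      rw [mul_assoc]
    rw [← h1, e2, norm_mul, hbb, ← ofReal_one, ← ofReal_sub, Complex.norm_real, Real.norm_eq_abs,
      abs_of_pos]
    have : x ^ 4 < 1 := pow_lt_one₀ hx0.le hc1 (by norm_num)
    linarith
  rw [n1, div_le_iff₀ (by nlinarith)] at hle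
  have hgp : 0 < ‖deriv g 0‖ := norm_pos_iff.mpr hgn
  have h6 : 2 * x * ‖deriv q 0‖ ≤ 2 * x * (‖deriv g 0‖ * (1 - x ^ 2)) := by gcongr
  rw [n2] at h6
  have h7 : 0 < ‖deriv g 0‖ * ((1 - x ^ 2) * (1 - x) ^ 2) := by
    apply mul_pos hgp
    apply mul_pos
    · nlinarith
    · apply pow_pos; linarith
  nlinarith

/-- **Riemann mapping theorem.** -/
theorem riemann_hasLogs (hΩ : IsOpen Ω) (hc : IsPreconnected Ω) (h0 : (0 : ℂ) ∈ Ω)
    (hnh : HasLogs Ω) (hne : Ω ≠ univ) : ∃ g k, Adm Ω g k ∧ g '' Ω = ball 0 1 := by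
  obtain ⟨g, k, hA, hmax⟩ := exists_max hΩ hc h0 (exists_adm_of_hasLogs hΩ hc h0 hnh hne)
  exact ⟨g, k, hA, surj_of_max hΩ hc h0 hnh hA hmax⟩


end copy

open Pool.Agent.H62 in
theorem riemann_sc {D : Set ℂ} (hD : IsOpen D) (hsc : IsSimplyConnected D) (hne : D ≠ univ)
    {a : ℂ} (ha : a ∈ D) :
    ∃ ψ φ : ℂ → ℂ, DifferentiableOn ℂ ψ (ball 0 1) ∧ DifferentiableOn ℂ φ D ∧
      MapsTo ψ (ball 0 1) D ∧ MapsTo φ D (ball 0 1) ∧ (∀ z ∈ ball (0 : ℂ) 1, φ (ψ z) = z) ∧
      (∀ w ∈ D, ψ (φ w) = w) ∧ ψ 0 = a := by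
  set Ω : Set ℂ := {z | z + a ∈ D} with hΩd
  have hadd : Continuous (fun z : ℂ => z + a) := continuous_id.add continuous_const
  have hΩ : IsOpen Ω := hD.preimage hadd
  have hmem : ∀ z ∈ D, z - a ∈ Ω := fun z hz => by
    rw [hΩd, mem_ofPred_eq, sub_add_cancel]; exact hz
  have hDpre : IsPreconnected D := hsc.isPathConnected.isConnected.isPreconnected
  have hΩim : Ω = (fun z : ℂ => z - a) '' D := by
    ext z
    constructor
    · intro hz
      exact ⟨z + a, hz, by simp⟩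
    · rintro ⟨w, hw, rfl⟩
      exact hmem w hw
  have hc : IsPreconnected Ω := by
    rw [hΩim]
    exact hDpre.image _ (continuous_id.sub continuous_const).continuousOn
  have h0 : (0 : ℂ) ∈ Ω := by
    rw [hΩd, mem_ofPred_eq, zero_add]; exact ha
  have hlogs : HasLogs Ω := by
    intro g hg hg0
    obtain ⟨k, hk, hkg⟩ := exists_log_sc hD hsc (fun z => g (z - a))
      (hg.comp (differentiableOn_id.sub_const a) (fun z hz => hmem z hz))
      (fun z hz => hg0 _ (hmem z hz))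
    refine ⟨fun z => k (z + a), hk.comp (differentiableOn_id.add_const a) (fun z hz => hz), ?_⟩
    intro z hz
    have := hkg (z + a) hz
    simpa using this
  have hneΩ : Ω ≠ univ := by
    intro h
    refine hne (eq_univ_of_forall fun z => ?_)
    have hz : z - a ∈ Ω := by rw [h]; trivial
    rw [hΩd, mem_ofPred_eq, sub_add_cancel] at hz
    exact hz
  obtain ⟨g, k, hA, him⟩ := riemann_hasLogs hΩ hc h0 hlogs hneΩ
  obtain ⟨G, hGd, hGg, -, -⟩ := exists_inverse hΩ hA.differentiableOn hA.inj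
  have hG2 : ∀ w ∈ ball (0 : ℂ) 1, G w ∈ Ω ∧ g (G w) = w := by
    intro w hw
    rw [← him] at hw
    obtain ⟨z, hz, rfl⟩ := hw
    rw [hGg z hz]
    exact ⟨hz, rfl⟩
  have hg0 : g 0 = 0 := by rw [hA.eq 0 h0, zero_mul]
  refine ⟨fun w => G w + a, fun z => g (z - a), ?_, ?_, ?_, ?_, ?_, ?_, ?_⟩
  · rw [him] at hGd
    exact hGd.add_const a
  · exact hA.differentiableOn.comp (differentiableOn_id.sub_const a) (fun z hz => hmem z hz)
  · intro w hw
    exact (hG2 w hw).1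
  · intro z hz
    rw [mem_ball, dist_zero_right]
    exact hA.maps _ (hmem z hz)
  · intro w hw
    simp only [add_sub_cancel_right]
    exact (hG2 w hw).2
  · intro w hw
    simp only
    rw [hGg _ (hmem w hw), sub_add_cancel]
  · simp only
    rw [← hg0, hGg 0 h0, zero_add]

end Pool.Agent.H99S
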