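import Pool.Agent.H99S.Lip

/-!
# Algebra for the spherical inequality
-/

set_option autoImplicit false

open Complex ComplexConjugate

namespace Pool.Agent.H99S

/-- Eliminating the conformal radius from the two energy inequalities. -/
theorem star {x D L s ω : ℝ} (hL : 0 ≤ L)
    (hodd : ∀ κ : ℝ, 0 ≤ κ → 0 ≤ 2 * x - 4 * D + κ ^ 2 * (s ^ 2 + ω ^ 2) * L
      - 2 * κ * (s ^ 2 + ω ^ 2))
    (heven : 0 ≤ x + 2 * D - 2 * L - 2 * s) :
    s + Real.sqrt (s ^ 2 + ω ^ 2 + (2 * D - s) ^ 2) ≤ x := by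
  set Q2 : ℝ := s ^ 2 + ω ^ 2 with hQ2
  set σ : ℝ := 2 * D - s with hσ
  have hQ : 0 ≤ Q2 := by positivity
  have h0 := hodd 0 le_rfl
  have h0' : 2 * D ≤ x := by nlinarith
  rcases hQ.eq_or_lt with hq | hq
  · -- Q2 = 0
    rw [← hq, zero_add, Real.sqrt_sq_eq_abs]
    have : |σ| ≤ x - s := by
      rw [abs_le]
      constructor
      · rw [hσ]; linarith
      · rw [hσ]; linarith
    linarith
  · set N : ℝ := Real.sqrt (Q2 + σ ^ 2) with hN
    have hNpos : 0 < N := Real.sqrt_pos.mpr (by positivity)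
    have hN2 : N ^ 2 = Q2 + σ ^ 2 := Real.sq_sqrt (by positivity)
    have hNσ : |σ| < N := by
      apply abs_lt_of_sq_lt_sq _ hNpos.le
      rw [hN2]; linarith
    rw [abs_lt] at hNσ
    set κ : ℝ := 2 * (N - σ) / Q2 with hκ
    have hκ0 : 0 ≤ κ := by
      rw [hκ]
      apply div_nonneg _ hq.le
      linarith
    have h1 := hodd κ hκ0
    have e1 : κ * Q2 = 2 * (N - σ) := by rw [hκ]; field_simp
    have e2 : (N + σ) * (N - σ) = Q2 := by nlinarith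
    have e3 : κ ^ 2 * Q2 * (N + σ) = 4 * (N - σ) := by
      have : κ ^ 2 * Q2 * (N + σ) = κ * (κ * Q2) * (N + σ) := by ring
      rw [this, e1]
      have : κ * (2 * (N - σ)) * (N + σ) = 2 * κ * ((N + σ) * (N - σ)) := by ring
      rw [this, e2]
      have : 2 * κ * Q2 = 2 * (κ * Q2) := by ring
      rw [this, e1]; ring
    have h2 : 0 ≤ (N + σ) * (2 * x - 4 * D + κ ^ 2 * Q2 * L - 2 * κ * Q2) :=
      mul_nonneg (by linarith) h1
    have h3 : 0 ≤ (N - σ) * (x + 2 * D - 2 * L - 2 * s) := mul_nonneg (by linarith) heven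
    have h4 : (N + σ) * (2 * x - 4 * D + κ ^ 2 * Q2 * L - 2 * κ * Q2) =
        (N + σ) * (2 * x - 4 * D) + 4 * (N - σ) * L - 4 * Q2 := by
      have e4 : (N + σ) * (κ * Q2) = 2 * Q2 := by rw [e1]; nlinarith
      linear_combination L * e3 - 2 * e4
    rw [h4] at h2
    have h5 : 4 * N * (x - s - N) = ((N + σ) * (2 * x - 4 * D) + 4 * (N - σ) * L - 4 * Q2) +
        2 * ((N - σ) * (x + 2 * D - 2 * L - 2 * s)) := by
      have hD : 2 * D = σ + s := by rw [hσ]; ring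
      have : D = (σ + s) / 2 := by linarith
      rw [this]
      linear_combination (-4) * hN2
    have h6 : 0 ≤ 4 * N * (x - s - N) := by rw [h5]; linarith
    have h7 : 0 ≤ x - s - N := by
      by_contra hcon
      push Not at hcon
      have : 4 * N * (x - s - N) < 0 := mul_neg_of_pos_of_neg (by linarith) hcon
      linarith
    linarith

lemma norm_sub_sq_eq {u v : ℂ} (hu : u ≠ 0) (hv : v ≠ 0) {ξ : ℂ} (hξ : exp ξ = u / v) :
    ‖u - v‖ ^ 2 = 2 * (‖u‖ * ‖v‖) * (Real.cosh ξ.re - Real.cos ξ.im) ∧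
    Real.exp ξ.re = ‖u‖ / ‖v‖ := by
  have hv' : 0 < ‖v‖ := norm_pos_iff.mpr hv
  have hu' : 0 < ‖u‖ := norm_pos_iff.mpr hu
  have e1 : Real.exp ξ.re = ‖u‖ / ‖v‖ := by
    rw [← Complex.norm_exp, hξ, norm_div]
  refine ⟨?_, e1⟩
  have huv : u = v * exp ξ := by rw [hξ]; field_simp
  have e2 : ‖u - v‖ ^ 2 = ‖v‖ ^ 2 * ‖exp ξ - 1‖ ^ 2 := by
    rw [← mul_pow, ← norm_mul]
    congr 2
    rw [mul_sub, mul_one, ← huv]
  have e3 : ‖exp ξ - 1‖ ^ 2 = Real.exp ξ.re ^ 2 - 2 * Real.exp ξ.re * Real.cos ξ.im + 1 := by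
    rw [← Complex.normSq_eq_norm_sq, Complex.normSq_apply, Complex.sub_re, Complex.sub_im,
      Complex.exp_re, Complex.exp_im]
    simp only [Complex.one_re, Complex.one_im]
    have := Real.sin_sq_add_cos_sq ξ.im
    linear_combination (Real.exp ξ.re ^ 2) * this
  have e4 : Real.cosh ξ.re = (‖u‖ / ‖v‖ + ‖v‖ / ‖u‖) / 2 := by
    rw [Real.cosh_eq, Real.exp_neg, e1, inv_div]
  rw [e2, e3, e4, e1]
  field_simp
  ring

lemma prod_eq {m n : ℝ} (hm : 0 < m) (hn : 0 < n) {x : ℝ} (hx : Real.exp x = m / n) :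
    (1 + m ^ 2) * (1 + n ^ 2) = 2 * (m * n) * (Real.cosh (Real.log (m * n)) + Real.cosh x) := by
  rw [Real.cosh_eq, Real.cosh_eq, Real.exp_neg, Real.exp_neg, hx, Real.exp_log (mul_pos hm hn)]
  field_simp
  ring

/-- The Lipschitz inequality in terms of two pairs of complex numbers. -/
theorem lip2 {u v β₁ β₂ : ℂ} (hu : u ≠ 0) (hv : v ≠ 0) (huv : u ≠ v)
    (hb : u * exp β₁ ≠ v * exp β₂) {s ω σ : ℝ} (hs : s = β₁.re + β₂.re) (hω : ω = β₁.im - β₂.im)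
    (hσ : σ = 2 * Real.log (‖u * exp β₁ - v * exp β₂‖ / ‖u - v‖) - s) :
    Real.log ((1 + ‖u * exp β₁‖ ^ 2) * (1 + ‖v * exp β₂‖ ^ 2)) -
      Real.log ((1 + ‖u‖ ^ 2) * (1 + ‖v‖ ^ 2)) - s ≤ Real.sqrt (s ^ 2 + ω ^ 2 + σ ^ 2) := by
  have hu' : 0 < ‖u‖ := norm_pos_iff.mpr hu
  have hv' : 0 < ‖v‖ := norm_pos_iff.mpr hv
  set b₁ : ℂ := u * exp β₁ with hb₁
  set b₂ : ℂ := v * exp β₂ with hb₂
  have hb1 : b₁ ≠ 0 := mul_ne_zero hu (exp_ne_zero _)
  have hb2 : b₂ ≠ 0 := mul_ne_zero hv (exp_ne_zero _)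
  have hb1' : 0 < ‖b₁‖ := norm_pos_iff.mpr hb1
  have hb2' : 0 < ‖b₂‖ := norm_pos_iff.mpr hb2
  set ξ : ℂ := log (u / v) with hξ
  have hξe : exp ξ = u / v := exp_log (div_ne_zero hu hv)
  set ξ' : ℂ := ξ + β₁ - β₂ with hξ'
  have hξ'e : exp ξ' = b₁ / b₂ := by
    rw [hξ', exp_sub, exp_add, hξe, hb₁, hb₂]
    field_simp
  obtain ⟨h1, h2⟩ := norm_sub_sq_eq hu hv hξe
  obtain ⟨h1', h2'⟩ := norm_sub_sq_eq hb1 hb2 hξ'e
  have p1 : 0 < ‖u - v‖ := norm_pos_iff.mpr (sub_ne_zero.mpr huv)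
  have p1' : 0 < ‖b₁ - b₂‖ := norm_pos_iff.mpr (sub_ne_zero.mpr hb)
  have hg : 0 < Real.cosh ξ.re - Real.cos ξ.im := by
    have : 0 < 2 * (‖u‖ * ‖v‖) * (Real.cosh ξ.re - Real.cos ξ.im) := by rw [← h1]; positivity
    exact (pos_iff_pos_of_mul_pos this).mp (by positivity)
  have hg' : 0 < Real.cosh ξ'.re - Real.cos ξ'.im := by
    have : 0 < 2 * (‖b₁‖ * ‖b₂‖) * (Real.cosh ξ'.re - Real.cos ξ'.im) := by rw [← h1']; positivity
    exact (pos_iff_pos_of_mul_pos this).mp (by positivity)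
  set G : ℝ := Real.log (Real.cosh ξ.re - Real.cos ξ.im) with hG
  set G' : ℝ := Real.log (Real.cosh ξ'.re - Real.cos ξ'.im) with hG'
  have hGe : Real.exp G = Real.cosh ξ.re - Real.cos ξ.im := Real.exp_log hg
  have hGe' : Real.exp G' = Real.cosh ξ'.re - Real.cos ξ'.im := Real.exp_log hg'
  have key := lip (A := Real.log (‖u‖ * ‖v‖)) (A' := Real.log (‖b₁‖ * ‖b₂‖)) (y := ξ.im)
    (y' := ξ'.im) (G := G) (G' := G') (by rw [hGe]; linarith [Real.one_le_cosh ξ.re])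
    (by rw [hGe']; linarith [Real.one_le_cosh ξ'.re])
  have nb1 : ‖b₁‖ = ‖u‖ * Real.exp β₁.re := by rw [hb₁, norm_mul, Complex.norm_exp]
  have nb2 : ‖b₂‖ = ‖v‖ * Real.exp β₂.re := by rw [hb₂, norm_mul, Complex.norm_exp]
  have es : Real.log (‖b₁‖ * ‖b₂‖) - Real.log (‖u‖ * ‖v‖) = s := by
    rw [nb1, nb2, hs]
    rw [show ‖u‖ * Real.exp β₁.re * (‖v‖ * Real.exp β₂.re) =
      (‖u‖ * ‖v‖) * (Real.exp (β₁.re + β₂.re)) by rw [Real.exp_add]; ring]
    rw [Real.log_mul (by positivity) (by positivity), Real.log_exp]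
    ring
  have eω : ξ'.im - ξ.im = ω := by
    rw [hξ', hω]; simp; ring
  have eσ : G' - G = σ := by
    have e1 : Real.log (‖u - v‖ ^ 2) = Real.log 2 + Real.log (‖u‖ * ‖v‖) + G := by
      rw [h1, Real.log_mul (by positivity) hg.ne', Real.log_mul (by norm_num) (by positivity)]
    have e2 : Real.log (‖b₁ - b₂‖ ^ 2) = Real.log 2 + Real.log (‖b₁‖ * ‖b₂‖) + G' := by
      rw [h1', Real.log_mul (by positivity) hg'.ne', Real.log_mul (by norm_num) (by positivity)]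
    rw [Real.log_pow] at e1 e2
    rw [hσ, Real.log_div p1'.ne' p1.ne']
    push_cast at e1 e2
    linarith
  rw [eω, eσ, es] at key
  have q1 : Real.log ((1 + ‖b₁‖ ^ 2) * (1 + ‖b₂‖ ^ 2)) = Real.log 2 + Real.log (‖b₁‖ * ‖b₂‖) +
      Real.log (Real.cosh (Real.log (‖b₁‖ * ‖b₂‖)) + Real.exp G' + Real.cos ξ'.im) := by
    rw [prod_eq hb1' hb2' h2', hGe', Real.log_mul (by positivity) (by
      have := Real.one_le_cosh (Real.log (‖b₁‖ * ‖b₂‖))
      have := Real.one_le_cosh ξ'.re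
      positivity), Real.log_mul (by norm_num) (by positivity)]
    congr 2; ring
  have q2 : Real.log ((1 + ‖u‖ ^ 2) * (1 + ‖v‖ ^ 2)) = Real.log 2 + Real.log (‖u‖ * ‖v‖) +
      Real.log (Real.cosh (Real.log (‖u‖ * ‖v‖)) + Real.exp G + Real.cos ξ.im) := by
    rw [prod_eq hu' hv' h2, hGe, Real.log_mul (by positivity) (by
      have := Real.one_le_cosh (Real.log (‖u‖ * ‖v‖))
      have := Real.one_le_cosh ξ.re
      positivity), Real.log_mul (by norm_num) (by positivity)]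
    congr 2; ring
  rw [q1, q2]
  linarith

end Pool.Agent.H99S
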