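import Pool.Agent.H99S.Div

/-!
# Uniform bounds for the regularised kernels

For `|z|, |w| ≤ ρ1 < 1`: `|h| ≤ B`, `|h z + h w| ≥ c > 0` and `|h z - h w| ≥ c |z - w|` by
compactness (the divided difference is continuous and nonzero), and
`0 ≤ (1/2) log (u ^ 2 + τ) - log u ≤ τ / (2 u ^ 2)` for `u > 0`.
-/

set_option autoImplicit false

open Complex ComplexConjugate Metric Set

namespace Pool.Agent.H99S

/-- `|h z - h w| ≥ c |z - w|`, `|h z + h w| ≥ c`, `|h| ≤ B` on a smaller closed disc. -/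
theorem compact_bounds {h : ℂ → ℂ} (hh : Gelfer h) {ρ1 : ℝ} (hρ1 : ρ1 < 1) :
    ∃ c B : ℝ, 0 < c ∧ 0 < B ∧ ∀ z w : ℂ, ‖z‖ ≤ ρ1 → ‖w‖ ≤ ρ1 →
      ‖h z‖ ≤ B ∧ c ≤ ‖h z + h w‖ ∧ c * ‖z - w‖ ≤ ‖h z - h w‖ := by
  have hsub : closedBall (0 : ℂ) ρ1 ⊆ ball 0 1 := closedBall_subset_ball hρ1
  have hK : IsCompact (closedBall (0 : ℂ) ρ1) := isCompact_closedBall 0 ρ1
  have hKK : IsCompact (closedBall (0 : ℂ) ρ1 ×ˢ closedBall (0 : ℂ) ρ1) := hK.prod hK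
  have hcont : ContinuousOn h (ball 0 1) := hh.diff.continuousOn
  obtain ⟨B, hB⟩ := hK.exists_bound_of_continuousOn (hcont.mono hsub)
  have hf1 : ContinuousOn (fun p : ℂ × ℂ => ‖h p.1 + h p.2‖)
      (closedBall (0 : ℂ) ρ1 ×ˢ closedBall (0 : ℂ) ρ1) := by
    refine ContinuousOn.norm (ContinuousOn.add ?_ ?_)
    · exact (hcont.mono hsub).comp continuous_fst.continuousOn fun p hp => hp.1
    · exact (hcont.mono hsub).comp continuous_snd.continuousOn fun p hp => hp.2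
  obtain ⟨c1, hc1, hc1'⟩ := hKK.exists_forall_le' hf1 (a := 0) (by
    rintro ⟨z, w⟩ ⟨hz, hw⟩
    exact norm_pos_iff.mpr (hh.sum_ne z (hsub hz) w (hsub hw)))
  have hf2 : ContinuousOn (fun p : ℂ × ℂ => ‖Function.uncurry (dslope h) p‖)
      (closedBall (0 : ℂ) ρ1 ×ˢ closedBall (0 : ℂ) ρ1) :=
    ((continuousOn_dslope_uncurry hh.diff).mono (prod_mono hsub hsub)).norm
  obtain ⟨c2, hc2, hc2'⟩ := hKK.exists_forall_le' hf2 (a := 0) (by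
    rintro ⟨z, w⟩ ⟨hz, hw⟩
    exact norm_pos_iff.mpr (dslope_ne_zero' hh.diff hh.inj (hsub hz) (hsub hw)))
  refine ⟨min c1 c2, max B 1, lt_min hc1 hc2, lt_max_of_lt_right one_pos, ?_⟩
  intro z w hz hw
  have hz' : z ∈ closedBall (0 : ℂ) ρ1 := by simpa using hz
  have hw' : w ∈ closedBall (0 : ℂ) ρ1 := by simpa using hw
  refine ⟨(hB z hz').trans (le_max_left _ _), (min_le_left _ _).trans (hc1' (z, w) ⟨hz', hw'⟩), ?_⟩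
  rcases eq_or_ne z w with hzw | hzw
  · subst hzw
    simp
  · have h1 := hc2' (z, w) ⟨hz', hw'⟩
    simp only [Function.uncurry] at h1
    rw [dslope_off hzw, norm_div] at h1
    have hpos : 0 < ‖z - w‖ := norm_pos_iff.mpr (sub_ne_zero.mpr hzw)
    rw [le_div_iff₀ hpos] at h1
    exact (mul_le_mul_of_nonneg_right (min_le_right _ _) hpos.le).trans h1

private lemma half_log {u τ : ℝ} (hu : 0 < u) (hτ : 0 < τ) :
    |Real.log (u ^ 2 + τ) / 2 - Real.log u| ≤ τ / (2 * u ^ 2) := by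
  have hu2 : 0 < u ^ 2 := by positivity
  have h1 : Real.log (u ^ 2 + τ) / 2 - Real.log u = Real.log (1 + τ / u ^ 2) / 2 := by
    have : u ^ 2 + τ = u ^ 2 * (1 + τ / u ^ 2) := by field_simp
    rw [this, Real.log_mul hu2.ne' (by positivity), Real.log_pow]
    push_cast
    ring
  rw [h1, abs_of_nonneg (div_nonneg (Real.log_nonneg (by
    have : 0 < τ / u ^ 2 := by positivity
    linarith)) two_pos.le)]
  have h2 : Real.log (1 + τ / u ^ 2) ≤ τ / u ^ 2 := by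
    have := Real.log_le_sub_one_of_pos (x := 1 + τ / u ^ 2) (by positivity)
    linarith
  calc Real.log (1 + τ / u ^ 2) / 2 ≤ (τ / u ^ 2) / 2 := by linarith
    _ = τ / (2 * u ^ 2) := by field_simp

private lemma log_bd {B τ v : ℝ} (hτ : 0 < τ) (hτ1 : τ < 1) (hv : 0 ≤ v)
    (hvB : v ≤ 2 * B) :
    |Real.log (v ^ 2 + τ)| ≤ |Real.log τ| + |Real.log (4 * B ^ 2 + 1)| := by
  have h1 : Real.log τ ≤ Real.log (v ^ 2 + τ) := Real.log_le_log hτ (by nlinarith [sq_nonneg v])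
  have h2 : Real.log (v ^ 2 + τ) ≤ Real.log (4 * B ^ 2 + 1) :=
    Real.log_le_log (by positivity) (by nlinarith)
  rw [abs_le]
  constructor
  · have := neg_abs_le (Real.log τ)
    have := abs_nonneg (Real.log (4 * B ^ 2 + 1))
    linarith
  · have := le_abs_self (Real.log (4 * B ^ 2 + 1))
    have := abs_nonneg (Real.log τ)
    linarith

private lemma app_aux {h : ℂ → ℂ} (hh : Gelfer h) {ρ1 : ℝ} (hρ1 : ρ1 < 1) :
    ∃ M : ℝ, ∀ τ, 0 < τ → τ < 1 → ∀ z w : ℂ, ‖z‖ ≤ ρ1 → ‖w‖ ≤ ρ1 → z ≠ w →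
      |Real.log (‖h z + h w‖ ^ 2 + τ) / 2 - Real.log ‖h z + h w‖| +
      |Real.log (‖h z - h w‖ ^ 2 + τ) / 2 - Real.log ‖h z - h w‖| ≤ M * τ / ‖z - w‖ ^ 2 := by
  obtain ⟨c, B, hc, hB, H⟩ := compact_bounds hh hρ1
  refine ⟨5 / (2 * c ^ 2), ?_⟩
  intro τ hτ hτ1 z w hz hw hzw
  obtain ⟨-, h2, h3⟩ := H z w hz hw
  have hd : 0 < ‖z - w‖ := norm_pos_iff.mpr (sub_ne_zero.mpr hzw)
  have hd2 : ‖z - w‖ ≤ 2 := by
    calc ‖z - w‖ ≤ ‖z‖ + ‖w‖ := norm_sub_le _ _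
      _ ≤ 2 := by linarith
  have hu1 : 0 < ‖h z + h w‖ := lt_of_lt_of_le hc h2
  have hu2 : 0 < ‖h z - h w‖ := lt_of_lt_of_le (by positivity) h3
  have e1 : |Real.log (‖h z + h w‖ ^ 2 + τ) / 2 - Real.log ‖h z + h w‖| ≤
      4 * τ / (2 * c ^ 2 * ‖z - w‖ ^ 2) := by
    refine (half_log hu1 hτ).trans ?_
    have : τ / (2 * ‖h z + h w‖ ^ 2) ≤ τ / (2 * c ^ 2) := by gcongr
    refine this.trans ?_
    rw [div_le_div_iff₀ (by positivity) (by positivity)]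
    have h4 : ‖z - w‖ ^ 2 ≤ 4 := by nlinarith
    have : 0 < τ * (2 * c ^ 2) := by positivity
    nlinarith
  have e2 : |Real.log (‖h z - h w‖ ^ 2 + τ) / 2 - Real.log ‖h z - h w‖| ≤
      τ / (2 * c ^ 2 * ‖z - w‖ ^ 2) := by
    refine (half_log hu2 hτ).trans ?_
    have h5 : c ^ 2 * ‖z - w‖ ^ 2 ≤ ‖h z - h w‖ ^ 2 := by
      rw [← mul_pow]
      gcongr
    have : 2 * c ^ 2 * ‖z - w‖ ^ 2 ≤ 2 * ‖h z - h w‖ ^ 2 := by linarith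
    exact div_le_div_of_nonneg_left hτ.le (by positivity) this
  calc _ ≤ 4 * τ / (2 * c ^ 2 * ‖z - w‖ ^ 2) + τ / (2 * c ^ 2 * ‖z - w‖ ^ 2) := add_le_add e1 e2
    _ = 5 / (2 * c ^ 2) * τ / ‖z - w‖ ^ 2 := by field_simp; ring

private lemma bd_aux {h : ℂ → ℂ} (hh : Gelfer h) {ρ1 : ℝ} (hρ1 : ρ1 < 1) :
    ∃ M : ℝ, ∀ τ, 0 < τ → τ < 1 → ∀ z w : ℂ, ‖z‖ ≤ ρ1 → ‖w‖ ≤ ρ1 →
      |Real.log (‖h z + h w‖ ^ 2 + τ)| / 2 + |Real.log (‖h z - h w‖ ^ 2 + τ)| / 2 ≤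
        M * (1 + |Real.log τ|) := by
  obtain ⟨c, B, hc, hB, H⟩ := compact_bounds hh hρ1
  refine ⟨1 + |Real.log (4 * B ^ 2 + 1)|, ?_⟩
  intro τ hτ hτ1 z w hz hw
  have hz1 := (H z w hz hw).1
  have hw1 := (H w z hw hz).1
  have e1 := log_bd (B := B) hτ hτ1 (norm_nonneg (h z + h w))
    ((norm_add_le _ _).trans (by linarith))
  have e2 := log_bd (B := B) hτ hτ1 (norm_nonneg (h z - h w))
    ((norm_sub_le _ _).trans (by linarith))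
  have h3 : 0 ≤ |Real.log τ| * |Real.log (4 * B ^ 2 + 1)| := by positivity
  nlinarith [abs_nonneg (Real.log τ), abs_nonneg (Real.log (4 * B ^ 2 + 1))]

theorem kO_app {h : ℂ → ℂ} (hh : Gelfer h) {ρ1 : ℝ} (hρ1 : ρ1 < 1) :
    ∃ M : ℝ, ∀ τ, 0 < τ → τ < 1 → ∀ z w : ℂ, ‖z‖ ≤ ρ1 → ‖w‖ ≤ ρ1 → z ≠ w →
      |kO τ (h z) (h w) - (Real.log ‖h z + h w‖ - Real.log ‖h z - h w‖)| ≤
        M * τ / ‖z - w‖ ^ 2 := by
  obtain ⟨M, hM⟩ := app_aux hh hρ1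
  refine ⟨M, fun τ hτ hτ1 z w hz hw hzw => le_trans ?_ (hM τ hτ hτ1 z w hz hw hzw)⟩
  have e : kO τ (h z) (h w) - (Real.log ‖h z + h w‖ - Real.log ‖h z - h w‖) =
      (Real.log (‖h z + h w‖ ^ 2 + τ) / 2 - Real.log ‖h z + h w‖) -
      (Real.log (‖h z - h w‖ ^ 2 + τ) / 2 - Real.log ‖h z - h w‖) := by
    simp only [kO]; ring
  rw [e]
  exact abs_sub _ _

theorem kO_bd {h : ℂ → ℂ} (hh : Gelfer h) {ρ1 : ℝ} (hρ1 : ρ1 < 1) :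
    ∃ M : ℝ, ∀ τ, 0 < τ → τ < 1 → ∀ z w : ℂ, ‖z‖ ≤ ρ1 → ‖w‖ ≤ ρ1 →
      |kO τ (h z) (h w)| ≤ M * (1 + |Real.log τ|) := by
  obtain ⟨M, hM⟩ := bd_aux hh hρ1
  refine ⟨M, fun τ hτ hτ1 z w hz hw => le_trans ?_ (hM τ hτ hτ1 z w hz hw)⟩
  have e : kO τ (h z) (h w) = Real.log (‖h z + h w‖ ^ 2 + τ) / 2 -
      Real.log (‖h z - h w‖ ^ 2 + τ) / 2 := by simp only [kO]; ring
  rw [e]
  refine (abs_sub _ _).trans (le_of_eq ?_)
  rw [abs_div, abs_div, abs_of_pos (two_pos : (0 : ℝ) < 2)]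

theorem kE_app {h : ℂ → ℂ} (hh : Gelfer h) {ρ1 : ℝ} (hρ1 : ρ1 < 1) :
    ∃ M : ℝ, ∀ τ, 0 < τ → τ < 1 → ∀ z w : ℂ, ‖z‖ ≤ ρ1 → ‖w‖ ≤ ρ1 → z ≠ w →
      |kE τ (h z) (h w) - (-Real.log ‖h z + h w‖ - Real.log ‖h z - h w‖)| ≤
        M * τ / ‖z - w‖ ^ 2 := by
  obtain ⟨M, hM⟩ := app_aux hh hρ1
  refine ⟨M, fun τ hτ hτ1 z w hz hw hzw => le_trans ?_ (hM τ hτ hτ1 z w hz hw hzw)⟩
  have e : kE τ (h z) (h w) - (-Real.log ‖h z + h w‖ - Real.log ‖h z - h w‖) =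
      -((Real.log (‖h z + h w‖ ^ 2 + τ) / 2 - Real.log ‖h z + h w‖) +
      (Real.log (‖h z - h w‖ ^ 2 + τ) / 2 - Real.log ‖h z - h w‖)) := by
    simp only [kE]; ring
  rw [e, abs_neg]
  exact abs_add_le _ _

theorem kE_bd {h : ℂ → ℂ} (hh : Gelfer h) {ρ1 : ℝ} (hρ1 : ρ1 < 1) :
    ∃ M : ℝ, ∀ τ, 0 < τ → τ < 1 → ∀ z w : ℂ, ‖z‖ ≤ ρ1 → ‖w‖ ≤ ρ1 →
      |kE τ (h z) (h w)| ≤ M * (1 + |Real.log τ|) := by
  obtain ⟨M, hM⟩ := bd_aux hh hρ1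
  refine ⟨M, fun τ hτ hτ1 z w hz hw => le_trans ?_ (hM τ hτ hτ1 z w hz hw)⟩
  have e : kE τ (h z) (h w) = -(Real.log (‖h z + h w‖ ^ 2 + τ) / 2 +
      Real.log (‖h z - h w‖ ^ 2 + τ) / 2) := by simp only [kE]; ring
  rw [e, abs_neg]
  refine (abs_add_le _ _).trans (le_of_eq ?_)
  rw [abs_div, abs_div, abs_of_pos (two_pos : (0 : ℝ) < 2)]

end Pool.Agent.H99S
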