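import Pool.Agent.H99S.Gauss

/-!
# `1 / (‖x - y‖² + t)` is positive semidefinite (finite families)

`1 / (u + t) = ∫_0^∞ exp (-s (u + t)) ds` and `gauss_psd`.
-/

set_option autoImplicit false

open Complex ComplexConjugate Metric Set MeasureTheory

namespace Pool.Agent.H99S

theorem cauchy_psd {ι : Type*} [Fintype ι] (x c : ι → ℂ) {t : ℝ} (ht : 0 < t) :
    0 ≤ (∑ i, ∑ j, c i * conj (c j) * (((‖x i - x j‖ ^ 2 + t)⁻¹ : ℝ) : ℂ)).re := by
  have hpos : ∀ i j, 0 < ‖x i - x j‖ ^ 2 + t := fun i j => by positivity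
  have hint : ∀ i j, IntegrableOn (fun s : ℝ => Real.exp (-(‖x i - x j‖ ^ 2 + t) * s)) (Ioi 0) :=
    fun i j => integrableOn_exp_mul_Ioi (neg_lt_zero.mpr (hpos i j)) 0
  have hval : ∀ i j, ∫ s in Ioi (0 : ℝ), Real.exp (-(‖x i - x j‖ ^ 2 + t) * s) =
      (‖x i - x j‖ ^ 2 + t)⁻¹ := by
    intro i j
    rw [integral_exp_mul_Ioi (neg_lt_zero.mpr (hpos i j)) 0]
    simp only [mul_zero, Real.exp_zero]
    rw [neg_div_neg_eq, one_div]
  have hsum : (∑ i, ∑ j, c i * conj (c j) * (((‖x i - x j‖ ^ 2 + t)⁻¹ : ℝ) : ℂ)).re =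
      ∫ s in Ioi (0 : ℝ), ∑ i, ∑ j, (c i * conj (c j)).re *
        Real.exp (-(‖x i - x j‖ ^ 2 + t) * s) := by
    rw [integral_finsetSum _ (fun i _ => integrable_finsetSum _
      (fun j _ => (hint i j).const_mul _))]
    simp_rw [integral_finsetSum _ (fun (j : ι) (_ : j ∈ (Finset.univ : Finset ι)) =>
      (hint _ j).const_mul _)]
    rw [Complex.re_sum]
    refine Finset.sum_congr rfl fun i _ => ?_
    rw [Complex.re_sum]
    refine Finset.sum_congr rfl fun j _ => ?_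
    rw [Complex.re_mul_ofReal, integral_const_mul, hval i j]
  rw [hsum]
  refine setIntegral_nonneg measurableSet_Ioi fun s hs => ?_
  have hs' : 0 < s := hs
  have h := gauss_psd x c hs'
  have h2 : ∑ i, ∑ j, (c i * conj (c j)).re * Real.exp (-(‖x i - x j‖ ^ 2 + t) * s) =
      Real.exp (-t * s) *
        (∑ i, ∑ j, c i * conj (c j) * ((Real.exp (-s * ‖x i - x j‖ ^ 2) : ℝ) : ℂ)).re := by
    rw [Complex.re_sum, Finset.mul_sum]
    refine Finset.sum_congr rfl fun i _ => ?_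
    rw [Complex.re_sum, Finset.mul_sum]
    refine Finset.sum_congr rfl fun j _ => ?_
    rw [Complex.re_mul_ofReal]
    have : -(‖x i - x j‖ ^ 2 + t) * s = -t * s + -s * ‖x i - x j‖ ^ 2 := by ring
    rw [this, Real.exp_add]
    ring
  rw [h2]
  exact mul_nonneg (Real.exp_pos _).le h

end Pool.Agent.H99S
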