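import Pool.Agent.H99S.Cauchy

/-!
# `-log (‖x - y‖² + τ)` is conditionally positive definite (finite families)

With `S t = Re ∑∑ c_i conj c_j log (‖x_i - x_j‖² + t)`, `S' t ≥ 0` for `t > 0` by `cauchy_psd`, and
`S t → 0` as `t → ∞` because `∑ c = 0` (`log (u + t) = log t + log (1 + u / t)`).  So `S τ ≤ 0`.
-/

set_option autoImplicit false

open Complex ComplexConjugate Metric Set Filter Topology

namespace Pool.Agent.H99S

private theorem re_double {ι : Type*} [Fintype ι] (c : ι → ℂ) (f : ι → ι → ℝ) :
    (∑ i, ∑ j, c i * conj (c j) * ((f i j : ℝ) : ℂ)).re =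
      ∑ i, ∑ j, (c i * conj (c j)).re * f i j := by
  rw [Complex.re_sum]
  refine Finset.sum_congr rfl fun i _ => ?_
  rw [Complex.re_sum]
  refine Finset.sum_congr rfl fun j _ => ?_
  rw [Complex.re_mul_ofReal]

theorem cpd {ι : Type*} [Fintype ι] (x c : ι → ℂ) (hc : ∑ i, c i = 0) {τ : ℝ} (hτ : 0 < τ) :
    (∑ i, ∑ j, c i * conj (c j) * ((Real.log (‖x i - x j‖ ^ 2 + τ) : ℝ) : ℂ)).re ≤ 0 := by
  classical
  rw [re_double]
  set m : ι → ι → ℝ := fun i j => (c i * conj (c j)).re with hm
  set u : ι → ι → ℝ := fun i j => ‖x i - x j‖ ^ 2 with hu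
  have hu0 : ∀ i j, 0 ≤ u i j := fun i j => by simp only [hu]; positivity
  have hsum : ∑ i, ∑ j, m i j = 0 := by
    have h1 : (∑ i, ∑ j, c i * conj (c j)) = 0 := by
      rw [← Finset.sum_mul_sum, hc, zero_mul]
    have h2 := congrArg Complex.re h1
    simpa [hm, Complex.re_sum] using h2
  let S : ℝ → ℝ := fun t => ∑ i, ∑ j, m i j * Real.log (u i j + t)
  change S τ ≤ 0
  have hderiv : ∀ t : ℝ, 0 < t → HasDerivAt S (∑ i, ∑ j, m i j * (u i j + t)⁻¹) t := by
    intro t ht
    have : ∀ i ∈ (Finset.univ : Finset ι), HasDerivAt (fun t => ∑ j, m i j * Real.log (u i j + t))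
        (∑ j, m i j * (u i j + t)⁻¹) t := by
      intro i _
      refine HasDerivAt.fun_sum fun j _ => ?_
      have h3 : HasDerivAt (fun t : ℝ => u i j + t) 1 t := by
        simpa using (hasDerivAt_id t).const_add (u i j)
      have h4 := h3.log (by have := hu0 i j; positivity)
      have h5 := h4.const_mul (m i j)
      simpa [one_div] using h5
    exact HasDerivAt.fun_sum this
  have hnn : ∀ t : ℝ, 0 < t → 0 ≤ ∑ i, ∑ j, m i j * (u i j + t)⁻¹ := by
    intro t ht
    have := cauchy_psd x c ht
    rwa [re_double] at this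
  have hmono : MonotoneOn S (Ici τ) := by
    refine monotoneOn_of_deriv_nonneg (convex_Ici τ) ?_ ?_ ?_
    · intro t ht
      exact (hderiv t (lt_of_lt_of_le hτ ht)).continuousAt.continuousWithinAt
    · intro t ht
      rw [interior_Ici] at ht
      exact (hderiv t (lt_trans hτ ht)).differentiableAt.differentiableWithinAt
    · intro t ht
      rw [interior_Ici] at ht
      rw [(hderiv t (lt_trans hτ ht)).deriv]
      exact hnn t (lt_trans hτ ht)
  have hlim : Tendsto S atTop (𝓝 0) := by
    have hS : ∀ᶠ t : ℝ in atTop, (∑ i, ∑ j, m i j * Real.log (1 + u i j / t)) = S t := by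
      filter_upwards [eventually_gt_atTop 0] with t ht
      have h6 : ∀ i j, Real.log (u i j + t) = Real.log t + Real.log (1 + u i j / t) := by
        intro i j
        rw [← Real.log_mul ht.ne' (by have := hu0 i j; positivity)]
        congr 1
        field_simp
        ring
      simp only [S]
      have h7 : ∑ i, ∑ j, m i j * Real.log (u i j + t) =
          ∑ i, ∑ j, (m i j * Real.log t + m i j * Real.log (1 + u i j / t)) := by
        refine Finset.sum_congr rfl fun i _ => Finset.sum_congr rfl fun j _ => ?_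
        rw [h6]; ring
      rw [h7]
      simp only [Finset.sum_add_distrib, ← Finset.sum_mul, hsum]
      ring
    refine Tendsto.congr' hS ?_
    have h8 : Tendsto (fun t : ℝ => ∑ i, ∑ j, m i j * Real.log (1 + u i j / t)) atTop
        (𝓝 (∑ i, ∑ j, m i j * Real.log (1 + 0))) := by
      refine tendsto_finsetSum _ fun i _ => tendsto_finsetSum _ fun j _ => ?_
      refine Tendsto.const_mul _ ?_
      refine Tendsto.log ?_ (by norm_num)
      refine Tendsto.const_add _ ?_
      exact tendsto_const_nhds.div_atTop tendsto_id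
    simpa using h8
  refine ge_of_tendsto hlim ?_
  filter_upwards [eventually_ge_atTop τ] with t ht
  exact hmono (mem_Ici.2 le_rfl) ht ht

end Pool.Agent.H99S
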