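import Mathlib

/-!
# Definitions for the spherical inequality for Gelfer functions
-/

set_option autoImplicit false

open Complex ComplexConjugate Metric Set

namespace Pool.Agent.H99S

/-- Herglotz kernel. -/
noncomputable def PP (a ζ : ℂ) : ℂ := (ζ + a) / (ζ - a)

/-- The density for the odd energy. -/
noncomputable def PhiO (C a b ζ : ℂ) : ℂ := C - conj (PP a ζ) - PP b ζ

/-- The density for the even energy. -/
noncomputable def PhiE (a b ζ : ℂ) : ℂ := PP b ζ - conj (PP a ζ)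

/-- Average over `|z| = ρ` (outer) of the average over `|w| = ρ'` (inner). -/
noncomputable def avg2 (K : ℂ → ℂ → ℂ) (ρ ρ' : ℝ) : ℂ :=
  Real.circleAverage (fun z => Real.circleAverage (fun w => K z w) 0 ρ') 0 ρ

/-- Odd regularised kernel. -/
noncomputable def kO (τ : ℝ) (x y : ℂ) : ℝ :=
  (Real.log (‖x + y‖ ^ 2 + τ) - Real.log (‖x - y‖ ^ 2 + τ)) / 2

/-- Even regularised kernel. -/
noncomputable def kE (τ : ℝ) (x y : ℂ) : ℝ :=
  (-Real.log (‖x + y‖ ^ 2 + τ) - Real.log (‖x - y‖ ^ 2 + τ)) / 2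

/-- Even regularised kernel, normalised at the origin. -/
noncomputable def kE' (τ : ℝ) (x y : ℂ) : ℝ :=
  kE τ x y + Real.log (‖x‖ ^ 2 + τ) + Real.log (‖y‖ ^ 2 + τ) - Real.log τ

/-- `h` is holomorphic and injective in the unit disc and `h z + h w ≠ 0`. -/
structure Gelfer (h : ℂ → ℂ) : Prop where
  diff : DifferentiableOn ℂ h (ball 0 1)
  inj : InjOn h (ball 0 1)
  sum_ne : ∀ z ∈ ball (0 : ℂ) 1, ∀ w ∈ ball (0 : ℂ) 1, h z + h w ≠ 0

/-- A symmetric function of two variables in the unit disc, holomorphic in each of them. -/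
structure BiHol (F : ℂ → ℂ → ℂ) : Prop where
  symm : ∀ z ∈ ball (0 : ℂ) 1, ∀ w ∈ ball (0 : ℂ) 1, F z w = F w z
  diff : ∀ z ∈ ball (0 : ℂ) 1, DifferentiableOn ℂ (F z) (ball 0 1)

/-- Branches of `log (h z + h w)` and of `log ((h z - h w) / (z - w))`. -/
structure Logs (h : ℂ → ℂ) (Lp Lq : ℂ → ℂ → ℂ) : Prop where
  bp : BiHol Lp
  bq : BiHol Lq
  ep : ∀ z ∈ ball (0 : ℂ) 1, ∀ w ∈ ball (0 : ℂ) 1, exp (Lp z w) = h z + h w
  eq : ∀ z ∈ ball (0 : ℂ) 1, ∀ w ∈ ball (0 : ℂ) 1, z ≠ w → exp (Lq z w) = (h z - h w) / (z - w)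
  eqd : ∀ z ∈ ball (0 : ℂ) 1, exp (Lq z z) = deriv h z

end Pool.Agent.H99S
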