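import Pool.Agent.H99S.Defs
import Pool.Agent.H62.Univalent

/-!
# The divided difference of a holomorphic function on the disc
-/

set_option autoImplicit false

open Complex ComplexConjugate Metric Set Filter Topology

namespace Pool.Agent.H99S

theorem dslope_off {h : ℂ → ℂ} {z w : ℂ} (hzw : z ≠ w) :
    dslope h z w = (h z - h w) / (z - w) := by
  rw [dslope_of_ne _ hzw.symm, slope_def_field, ← neg_sub (h z), ← neg_sub z, neg_div_neg_eq]

theorem dslope_comm' (h : ℂ → ℂ) (z w : ℂ) : dslope h z w = dslope h w z := by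
  rcases eq_or_ne z w with rfl | hzw
  · rfl
  · rw [dslope_off hzw, dslope_off hzw.symm, ← neg_sub (h w), ← neg_sub w, neg_div_neg_eq]

/-- The divided difference is continuous. -/
theorem continuousOn_dslope_uncurry {h : ℂ → ℂ} (hh : DifferentiableOn ℂ h (ball 0 1)) :
    ContinuousOn (Function.uncurry (dslope h)) (ball 0 1 ×ˢ ball 0 1) := by
  rintro ⟨z, w⟩ ⟨hz, hw⟩
  refine ContinuousAt.continuousWithinAt ?_
  have hnz : ball (0 : ℂ) 1 ∈ 𝓝 z := isOpen_ball.mem_nhds hz
  have hnw : ball (0 : ℂ) 1 ∈ 𝓝 w := isOpen_ball.mem_nhds hw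
  rcases eq_or_ne z w with hzw | hzw
  · subst hzw
    have han : AnalyticAt ℂ h z := hh.analyticAt hnz
    have hs : HasStrictDerivAt h (deriv h z) z := han.hasStrictDerivAt
    have hd : ContinuousAt (deriv h) z := han.deriv.continuousAt
    rw [Metric.continuousAt_iff']
    intro ε hε
    have h1 : ∀ᶠ p : ℂ × ℂ in 𝓝 (z, z),
        ‖h p.1 - h p.2 - (p.1 - p.2) • deriv h z‖ ≤ ε / 2 * ‖p.1 - p.2‖ := by
      have := hs.isLittleO
      exact this.def (half_pos hε)
    have h2 : ∀ᶠ p : ℂ × ℂ in 𝓝 (z, z), dist (deriv h p.1) (deriv h z) < ε := by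
      have h3 : ∀ᶠ x in 𝓝 z, dist (deriv h x) (deriv h z) < ε :=
        Metric.continuousAt_iff'.mp hd ε hε
      exact (continuous_fst.tendsto (z, z)).eventually h3
    filter_upwards [h1, h2] with p hp1 hp2
    have e0 : Function.uncurry (dslope h) (z, z) = deriv h z := by
      simp [Function.uncurry]
    rw [e0]
    obtain ⟨a, b⟩ := p
    simp only [Function.uncurry] at *
    rcases eq_or_ne a b with hab | hab
    · subst hab
      rw [dslope_same]
      exact hp2
    · rw [dslope_off hab, dist_eq_norm]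
      have hne : a - b ≠ 0 := sub_ne_zero.mpr hab
      have hpos : 0 < ‖a - b‖ := norm_pos_iff.mpr hne
      have e1 : (h a - h b) / (a - b) - deriv h z = (h a - h b - (a - b) • deriv h z) / (a - b) := by
        rw [smul_eq_mul]
        field_simp
      rw [e1, norm_div]
      calc ‖h a - h b - (a - b) • deriv h z‖ / ‖a - b‖ ≤ ε / 2 * ‖a - b‖ / ‖a - b‖ := by
            gcongr
        _ = ε / 2 := by field_simp
        _ < ε := by linarith
  · have hcz : ContinuousAt h z := (hh z hz).continuousWithinAt.continuousAt hnz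
    have hcw : ContinuousAt h w := (hh w hw).continuousWithinAt.continuousAt hnw
    have h1 : ContinuousAt (fun p : ℂ × ℂ => (h p.1 - h p.2) / (p.1 - p.2)) (z, w) := by
      refine ContinuousAt.div ?_ ?_ (sub_ne_zero.mpr hzw)
      · exact (ContinuousAt.comp (f := Prod.fst) (x := (z, w)) hcz continuous_fst.continuousAt).sub
          (ContinuousAt.comp (f := Prod.snd) (x := (z, w)) hcw continuous_snd.continuousAt)
      · exact (continuous_fst.sub continuous_snd).continuousAt
    refine h1.congr ?_
    have h2 : ∀ᶠ p : ℂ × ℂ in 𝓝 (z, w), p.1 ≠ p.2 := by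
      have : IsOpen {p : ℂ × ℂ | p.1 ≠ p.2} := isOpen_ne_fun continuous_fst continuous_snd
      exact this.mem_nhds hzw
    filter_upwards [h2] with p hp
    simp only [Function.uncurry]
    rw [dslope_off hp]

/-- The divided difference of an injective function does not vanish. -/
theorem dslope_ne_zero' {h : ℂ → ℂ} (hh : DifferentiableOn ℂ h (ball 0 1))
    (hinj : InjOn h (ball 0 1)) {z w : ℂ} (hz : z ∈ ball (0 : ℂ) 1) (hw : w ∈ ball (0 : ℂ) 1) :
    dslope h z w ≠ 0 := by
  rcases eq_or_ne z w with hzw | hzw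
  · subst hzw
    rw [dslope_same]
    exact Pool.Agent.H62.deriv_ne_zero_of_injOn isOpen_ball hh hinj hz
  · rw [dslope_off hzw]
    exact div_ne_zero (sub_ne_zero.mpr fun e => hzw (hinj hz hw e)) (sub_ne_zero.mpr hzw)

end Pool.Agent.H99S
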