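import Pool.Agent.H99S.Eval

/-!
# Double averages of `-log |z - w|`, inner radius smaller than the outer one

For `|w| = ρ' < ρ = |z|`: `-log |z - w| = -log ρ + Re G(w)`, `G(w) = -log (1 - w / z)`
(principal branch, holomorphic for `|w| < ρ`, `G 0 = 0`).  The inner average against
`conj PhiO` is `-log ρ * (conj C - 2) + log (1 - a / z) + conj (log (1 - b / z))` (the average of
`PhiO` is `C - 2`).  On `|z| = ρ`: `log (1 - a / z) = conj (log (1 - conj a * z / ρ²))`, and
`conj (log (1 - b / z)) = log (1 - conj b * z / ρ²)`; now use `avg_PhiO_mul`,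
`avg_PhiO_mul_conj` for the outer average.  The even case is the same (the average of `PhiE` is
`0`).
-/

set_option autoImplicit false

open Complex ComplexConjugate Metric Set

namespace Pool.Agent.H99S

variable {ρ ρ' : ℝ} {a b C : ℂ}

/-- `1 - u` is in the slit plane for `‖u‖ < 1`. -/
theorem one_sub_mem_slit {u : ℂ} (hu : ‖u‖ < 1) : 1 - u ∈ slitPlane := by
  left
  have := (Complex.abs_re_le_norm u)
  have h2 := (abs_le.mp this).2
  simp only [Complex.sub_re, Complex.one_re]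
  linarith

/-- The function `w ↦ -log ρ - log (1 - w / z)`. -/
noncomputable def Glog (ρ : ℝ) (z w : ℂ) : ℂ := -(Real.log ρ : ℂ) - Complex.log (1 - w / z)

/-- The function `z ↦ log (1 - conj a * z / ρ ^ 2)`. -/
noncomputable def Alog (ρ : ℝ) (a z : ℂ) : ℂ := Complex.log (1 - conj a * z / (ρ : ℂ) ^ 2)

theorem Glog_dcc (hρ' : 0 < ρ') (hlt : ρ' < ρ) {z : ℂ} (hz : ‖z‖ = ρ) :
    DiffContOnCl ℂ (Glog ρ z) (ball 0 ρ') := by
  refine DifferentiableOn.diffContOnCl_ball (U := closedBall 0 ρ') ?_ subset_rfl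
  unfold Glog
  refine DifferentiableOn.sub (differentiableOn_const _) ?_
  refine DifferentiableOn.clog (by fun_prop) ?_
  intro w hw
  apply one_sub_mem_slit
  have : ‖w‖ ≤ ρ' := by simpa using hw
  rw [norm_div, hz, div_lt_one (by linarith)]
  linarith

theorem Alog_dcc (hρ : 0 < ρ) (ha : ‖a‖ < ρ) : DiffContOnCl ℂ (Alog ρ a) (ball 0 ρ) := by
  refine DifferentiableOn.diffContOnCl_ball (U := closedBall 0 ρ) ?_ subset_rfl
  unfold Alog
  refine DifferentiableOn.clog (by fun_prop) ?_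
  intro w hw
  apply one_sub_mem_slit
  have hw' : ‖w‖ ≤ ρ := by simpa using hw
  rw [norm_div, norm_mul, RCLike.norm_conj, norm_pow, Complex.norm_real, Real.norm_of_nonneg hρ.le,
    div_lt_one (by positivity)]
  have := norm_nonneg a
  nlinarith [mul_le_mul_of_nonneg_left hw' this]

theorem Alog_zero : Alog ρ a 0 = 0 := by simp [Alog]

theorem Alog_self (hρ : 0 < ρ) (ha : ‖a‖ < ρ) :
    Alog ρ a a = (Real.log (1 - ‖a‖ ^ 2 / ρ ^ 2) : ℂ) := by
  unfold Alog
  rw [mul_comm (conj a) a, Complex.mul_conj, Complex.normSq_eq_norm_sq]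
  have h1 : 0 ≤ 1 - ‖a‖ ^ 2 / ρ ^ 2 := by
    rw [sub_nonneg, div_le_one (by positivity)]
    gcongr
  rw [Complex.ofReal_log h1]
  push_cast
  rfl

theorem log_Glog (hlt : ρ' < ρ) (hρ' : 0 < ρ') {z w : ℂ} (hz : ‖z‖ = ρ) (hw : ‖w‖ = ρ') :
    ((-Real.log ‖z - w‖ : ℝ) : ℂ) = ((Glog ρ z w).re : ℂ) := by
  congr 1
  have hρ : 0 < ρ := hρ'.trans hlt
  have hz0 : z ≠ 0 := by
    intro h; rw [h] at hz; simp at hz; linarith
  have hn : (1 - w / z) ≠ 0 := by
    apply Complex.slitPlane_ne_zero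
    apply one_sub_mem_slit
    rw [norm_div, hz, hw, div_lt_one (by linarith)]
    exact hlt
  have h1 : z - w = z * (1 - w / z) := by
    field_simp
  rw [Glog, Complex.sub_re, Complex.neg_re, Complex.ofReal_re, Complex.log_re, h1, norm_mul,
    Real.log_mul (norm_ne_zero_iff.mpr hz0) (norm_ne_zero_iff.mpr hn), hz]
  ring

theorem conj_div_eq (hρ : 0 < ρ) {z : ℂ} (hz : ‖z‖ = ρ) (a : ℂ) :
    a / z = conj (conj a * z / (ρ : ℂ) ^ 2) := by
  have hz0 : z ≠ 0 := by
    intro h; rw [h] at hz; simp at hz; linarith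
  have hρ0 : (ρ : ℂ) ≠ 0 := by exact_mod_cast hρ.ne'
  have hnn : z * conj z = (ρ : ℂ) ^ 2 := by
    rw [Complex.mul_conj, Complex.normSq_eq_norm_sq, hz]; push_cast; ring
  rw [map_div₀, map_mul, Complex.conj_conj, map_pow, Complex.conj_ofReal, ← hnn]
  have hcz : conj z ≠ 0 := (map_ne_zero _).mpr hz0
  field_simp

theorem log_div_eq (hρ : 0 < ρ) (ha : ‖a‖ < ρ) {z : ℂ} (hz : ‖z‖ = ρ) :
    Complex.log (1 - a / z) = conj (Alog ρ a z) := by
  have hs : 1 - conj a * z / (ρ : ℂ) ^ 2 ∈ slitPlane := by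
    apply one_sub_mem_slit
    rw [norm_div, norm_mul, RCLike.norm_conj, norm_pow, Complex.norm_real,
      Real.norm_of_nonneg hρ.le, div_lt_one (by positivity), hz]
    nlinarith
  rw [Alog, ← Complex.log_conj _ (Complex.slitPlane_arg_ne_pi hs), conj_div_eq hρ hz a, map_sub,
    map_one]

theorem avg2_log_PhiO (hρ' : 0 < ρ') (hlt : ρ' < ρ) (ha' : ‖a‖ < ρ') (hb' : ‖b‖ < ρ') :
    (avg2 (fun z w => PhiO C a b z * conj (PhiO C a b w) * ((-Real.log ‖z - w‖ : ℝ) : ℂ))
      ρ ρ').re =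
      -‖C - 2‖ ^ 2 * Real.log ρ - 2 * Real.log (1 - ‖a‖ ^ 2 / ρ ^ 2)
        - 2 * Real.log (1 - ‖b‖ ^ 2 / ρ ^ 2) := by
  have hρ : 0 < ρ := hρ'.trans hlt
  have ha : ‖a‖ < ρ := ha'.trans hlt
  have hb : ‖b‖ < ρ := hb'.trans hlt
  set k : ℂ := -(Real.log ρ : ℂ) * (conj C - 2) with hk
  have hin : avg2 (fun z w => PhiO C a b z * conj (PhiO C a b w) *
      ((-Real.log ‖z - w‖ : ℝ) : ℂ)) ρ ρ' =
      Real.circleAverage (fun z => PhiO C a b z * (k + Alog ρ b z) +
        PhiO C a b z * conj (Alog ρ a z)) 0 ρ := by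
    unfold avg2
    apply Real.circleAverage_congr_sphere
    intro z hz
    rw [abs_of_pos hρ] at hz
    have hzn : ‖z‖ = ρ := by simpa using hz
    simp only
    have e1 : Real.circleAverage (fun w => PhiO C a b z * conj (PhiO C a b w) *
          ((-Real.log ‖z - w‖ : ℝ) : ℂ)) 0 ρ' =
        Real.circleAverage (fun w => PhiO C a b z •
          (conj (PhiO C a b w) * ((Glog ρ z w).re : ℂ))) 0 ρ' := by
      apply Real.circleAverage_congr_sphere
      intro w hw
      rw [abs_of_pos hρ'] at hw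
      have hwn : ‖w‖ = ρ' := by simpa using hw
      simp only [smul_eq_mul]
      rw [log_Glog hlt hρ' hzn hwn]; ring
    rw [e1, Real.circleAverage_fun_smul, avg_conj_PhiO_mul_re hρ' (Glog_dcc hρ' hlt hzn) ha' hb']
    simp only [Glog, zero_div, sub_zero, Complex.log_one, smul_eq_mul]
    rw [log_div_eq hρ ha hzn, log_div_eq hρ hb hzn]
    simp only [Complex.neg_re, Complex.ofReal_re, Complex.ofReal_neg, map_sub, map_neg,
      Complex.conj_ofReal, Complex.conj_conj, hk]
    ring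
  have dA := Alog_dcc hρ ha
  have dB : DiffContOnCl ℂ (fun z => k + Alog ρ b z) (ball 0 ρ) :=
    (diffContOnCl_const (c := k)).add (Alog_dcc hρ hb)
  have cP := contOn_PhiO (C := C) hρ ha hb
  have j1 : CircleIntegrable (fun z => PhiO C a b z * (k + Alog ρ b z)) 0 ρ :=
    (cP.mul (contOn_sphere hρ dB)).circleIntegrable'
  have j2 : CircleIntegrable (fun z => PhiO C a b z * conj (Alog ρ a z)) 0 ρ :=
    (cP.mul (Complex.continuous_conj.comp_continuousOn (contOn_sphere hρ dA))).circleIntegrable'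
  rw [hin, Real.circleAverage_fun_add j1 j2, avg_PhiO_mul hρ dB ha hb,
    avg_PhiO_mul_conj hρ dA ha hb, Alog_zero, Alog_zero, Alog_self hρ ha, Alog_self hρ hb,
    ← Complex.normSq_eq_norm_sq (C - 2), Complex.normSq_apply, hk]
  simp only [Complex.sub_re, Complex.add_re, Complex.mul_re, Complex.conj_re, Complex.neg_im,
    Complex.conj_im, Complex.mul_im, Complex.sub_im, Complex.add_im, Complex.ofReal_re,
    Complex.ofReal_im, Complex.re_ofNat, Complex.im_ofNat, Complex.neg_re, Complex.zero_re,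
    Complex.zero_im]
  ring

theorem avg2_log_PhiE (hρ' : 0 < ρ') (hlt : ρ' < ρ) (ha' : ‖a‖ < ρ') (hb' : ‖b‖ < ρ') :
    (avg2 (fun z w => PhiE a b z * conj (PhiE a b w) * ((-Real.log ‖z - w‖ : ℝ) : ℂ))
      ρ ρ').re =
      -2 * Real.log (1 - ‖a‖ ^ 2 / ρ ^ 2) - 2 * Real.log (1 - ‖b‖ ^ 2 / ρ ^ 2) := by
  have hρ : 0 < ρ := hρ'.trans hlt
  have ha : ‖a‖ < ρ := ha'.trans hlt
  have hb : ‖b‖ < ρ := hb'.trans hlt
  have hin : avg2 (fun z w => PhiE a b z * conj (PhiE a b w) *
      ((-Real.log ‖z - w‖ : ℝ) : ℂ)) ρ ρ' =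
      Real.circleAverage (fun z => PhiE a b z * conj (Alog ρ a z) -
        PhiE a b z * Alog ρ b z) 0 ρ := by
    unfold avg2
    apply Real.circleAverage_congr_sphere
    intro z hz
    rw [abs_of_pos hρ] at hz
    have hzn : ‖z‖ = ρ := by simpa using hz
    simp only
    have e1 : Real.circleAverage (fun w => PhiE a b z * conj (PhiE a b w) *
          ((-Real.log ‖z - w‖ : ℝ) : ℂ)) 0 ρ' =
        Real.circleAverage (fun w => PhiE a b z •
          (conj (PhiE a b w) * ((Glog ρ z w).re : ℂ))) 0 ρ' := by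
      apply Real.circleAverage_congr_sphere
      intro w hw
      rw [abs_of_pos hρ'] at hw
      have hwn : ‖w‖ = ρ' := by simpa using hw
      simp only [smul_eq_mul]
      rw [log_Glog hlt hρ' hzn hwn]; ring
    rw [e1, Real.circleAverage_fun_smul, avg_conj_PhiE_mul_re hρ' (Glog_dcc hρ' hlt hzn) ha' hb']
    simp only [Glog, zero_div, sub_zero, Complex.log_one, smul_eq_mul]
    rw [log_div_eq hρ ha hzn, log_div_eq hρ hb hzn]
    simp only [map_sub, map_neg, Complex.conj_ofReal, Complex.conj_conj]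
    ring
  have dA := Alog_dcc hρ ha
  have dB := Alog_dcc hρ hb
  have cP := contOn_PhiE hρ ha hb
  have j1 : CircleIntegrable (fun z => PhiE a b z * Alog ρ b z) 0 ρ :=
    (cP.mul (contOn_sphere hρ dB)).circleIntegrable'
  have j2 : CircleIntegrable (fun z => PhiE a b z * conj (Alog ρ a z)) 0 ρ :=
    (cP.mul (Complex.continuous_conj.comp_continuousOn (contOn_sphere hρ dA))).circleIntegrable'
  rw [hin, Real.circleAverage_fun_sub j2 j1, avg_PhiE_mul hρ dB ha hb,
    avg_PhiE_mul_conj hρ dA ha hb, Alog_zero, Alog_zero, Alog_self hρ ha, Alog_self hρ hb]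
  simp only [Complex.sub_re, Complex.mul_re, Complex.conj_re,
    Complex.conj_im, Complex.sub_im, Complex.ofReal_re, Complex.neg_re, Complex.neg_im,
    Complex.ofReal_im, Complex.re_ofNat, Complex.im_ofNat, Complex.zero_re,
    Complex.zero_im]
  ring

end Pool.Agent.H99S
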