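import Pool.Agent.H99S.Eval

/-!
# Double averages of the real part of a bi-holomorphic function

Inner average: `avg_conj_PhiO_mul_re` with `G = F z` (holomorphic in the unit disc, and `ρ' < 1`).
Outer average: the result `conj C * Re F z 0 - F z a - conj (F z b)` is a combination of the
functions `z ↦ F z 0, F z a, F z b` (holomorphic by symmetry) and of their conjugates; use
`avg_PhiO_mul` and `avg_PhiO_mul_conj` and take the real part.
-/

set_option autoImplicit false

open Complex ComplexConjugate Metric Set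

namespace Pool.Agent.H99S

variable {F : ℂ → ℂ → ℂ} {ρ ρ' : ℝ} {a b C : ℂ}

theorem dcc_of_biHol (hF : BiHol F) (hρ1 : ρ < 1) {z : ℂ} (hz : z ∈ ball (0 : ℂ) 1) :
    DiffContOnCl ℂ (F z) (ball 0 ρ) :=
  ((hF.diff z hz).mono (closedBall_subset_ball hρ1)).diffContOnCl_ball subset_rfl

theorem avg2_re_PhiO (hF : BiHol F) (hρ : 0 < ρ) (hρ1 : ρ < 1) (hρ' : 0 < ρ') (hρ1' : ρ' < 1)
    (ha : ‖a‖ < ρ) (hb : ‖b‖ < ρ) (ha' : ‖a‖ < ρ') (hb' : ‖b‖ < ρ') :
    (avg2 (fun z w => PhiO C a b z * conj (PhiO C a b w) * ((F z w).re : ℂ)) ρ ρ').re =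
      ‖C‖ ^ 2 * (F 0 0).re - 2 * (C * F 0 a).re - 2 * (conj C * F 0 b).re + 4 * (F a b).re := by
  have m0 : (0 : ℂ) ∈ ball (0 : ℂ) 1 := by simp
  have ma : a ∈ ball (0 : ℂ) 1 := by simpa using ha.trans hρ1
  have mb : b ∈ ball (0 : ℂ) 1 := by simpa using hb.trans hρ1
  have hin : avg2 (fun z w => PhiO C a b z * conj (PhiO C a b w) * ((F z w).re : ℂ)) ρ ρ' =
      Real.circleAverage (fun z => ((conj C / 2) • (PhiO C a b z * F 0 z) +
        (conj C / 2) • (PhiO C a b z * conj (F 0 z))) -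
        (PhiO C a b z * F a z + PhiO C a b z * conj (F b z))) 0 ρ := by
    unfold avg2
    apply Real.circleAverage_congr_sphere
    intro z hz
    rw [abs_of_pos hρ] at hz
    have mz : z ∈ ball (0 : ℂ) 1 := by
      have : ‖z‖ = ρ := by simpa using hz
      simpa [this] using hρ1
    simp only
    have e1 : (fun w => PhiO C a b z * conj (PhiO C a b w) * ((F z w).re : ℂ)) =
        fun w => PhiO C a b z • (conj (PhiO C a b w) * ((F z w).re : ℂ)) := by
      funext w; simp only [smul_eq_mul]; ring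
    rw [e1, Real.circleAverage_fun_smul, avg_conj_PhiO_mul_re hρ' (dcc_of_biHol hF hρ1' mz) ha' hb',
      hF.symm z mz 0 m0, hF.symm z mz a ma, hF.symm z mz b mb, Complex.re_eq_add_conj]
    simp only [smul_eq_mul]
    ring
  have c0 := contOn_sphere hρ (dcc_of_biHol hF hρ1 m0)
  have ca := contOn_sphere hρ (dcc_of_biHol hF hρ1 ma)
  have cb := contOn_sphere hρ (dcc_of_biHol hF hρ1 mb)
  have cP := contOn_PhiO (C := C) hρ ha hb
  have j1 : CircleIntegrable (fun z => (conj C / 2) • (PhiO C a b z * F 0 z)) 0 ρ :=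
    ((cP.mul c0).const_smul (conj C / 2)).circleIntegrable'
  have j2 : CircleIntegrable (fun z => (conj C / 2) • (PhiO C a b z * conj (F 0 z))) 0 ρ :=
    ((cP.mul (Complex.continuous_conj.comp_continuousOn c0)).const_smul
      (conj C / 2)).circleIntegrable'
  have j3 : CircleIntegrable (fun z => PhiO C a b z * F a z) 0 ρ :=
    (cP.mul ca).circleIntegrable'
  have j4 : CircleIntegrable (fun z => PhiO C a b z * conj (F b z)) 0 ρ :=
    (cP.mul (Complex.continuous_conj.comp_continuousOn cb)).circleIntegrable'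
  have j12 : CircleIntegrable (fun z => (conj C / 2) • (PhiO C a b z * F 0 z) +
        (conj C / 2) • (PhiO C a b z * conj (F 0 z))) 0 ρ := j1.add j2
  have j34 : CircleIntegrable
      (fun z => PhiO C a b z * F a z + PhiO C a b z * conj (F b z)) 0 ρ := j3.add j4
  rw [hin, Real.circleAverage_fun_sub j12 j34, Real.circleAverage_fun_add j1 j2,
    Real.circleAverage_fun_add j3 j4, Real.circleAverage_fun_smul, Real.circleAverage_fun_smul,
    avg_PhiO_mul hρ (dcc_of_biHol hF hρ1 m0) ha hb,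
    avg_PhiO_mul_conj hρ (dcc_of_biHol hF hρ1 m0) ha hb,
    avg_PhiO_mul hρ (dcc_of_biHol hF hρ1 ma) ha hb,
    avg_PhiO_mul_conj hρ (dcc_of_biHol hF hρ1 mb) ha hb,
    hF.symm a ma 0 m0, hF.symm b mb 0 m0, hF.symm b mb a ma, ← Complex.normSq_eq_norm_sq,
    Complex.normSq_apply]
  simp only [smul_eq_mul, Complex.sub_re, Complex.add_re, Complex.mul_re, Complex.conj_re,
    Complex.conj_im, Complex.mul_im, Complex.sub_im, Complex.div_ofNat_re,
    Complex.div_ofNat_im, Complex.re_ofNat, Complex.im_ofNat]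
  ring

theorem avg2_re_PhiE (hF : BiHol F) (hρ : 0 < ρ) (hρ1 : ρ < 1) (hρ' : 0 < ρ') (hρ1' : ρ' < 1)
    (ha : ‖a‖ < ρ) (hb : ‖b‖ < ρ) (ha' : ‖a‖ < ρ') (hb' : ‖b‖ < ρ') :
    (avg2 (fun z w => PhiE a b z * conj (PhiE a b w) * ((F z w).re : ℂ)) ρ ρ').re =
      -4 * (F a b - F 0 a - F 0 b + F 0 0).re := by
  have m0 : (0 : ℂ) ∈ ball (0 : ℂ) 1 := by simp
  have ma : a ∈ ball (0 : ℂ) 1 := by simpa using ha.trans hρ1
  have mb : b ∈ ball (0 : ℂ) 1 := by simpa using hb.trans hρ1
  have hin : avg2 (fun z w => PhiE a b z * conj (PhiE a b w) * ((F z w).re : ℂ)) ρ ρ' =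
      Real.circleAverage (fun z => PhiE a b z * conj (F b z - F 0 z) -
        PhiE a b z * (F a z - F 0 z)) 0 ρ := by
    unfold avg2
    apply Real.circleAverage_congr_sphere
    intro z hz
    rw [abs_of_pos hρ] at hz
    have mz : z ∈ ball (0 : ℂ) 1 := by
      have : ‖z‖ = ρ := by simpa using hz
      simpa [this] using hρ1
    simp only
    have e1 : (fun w => PhiE a b z * conj (PhiE a b w) * ((F z w).re : ℂ)) =
        fun w => PhiE a b z • (conj (PhiE a b w) * ((F z w).re : ℂ)) := by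
      funext w; simp only [smul_eq_mul]; ring
    rw [e1, Real.circleAverage_fun_smul, avg_conj_PhiE_mul_re hρ' (dcc_of_biHol hF hρ1' mz) ha' hb',
      hF.symm z mz 0 m0, hF.symm z mz a ma, hF.symm z mz b mb]
    simp only [smul_eq_mul]
    ring
  have d1 : DiffContOnCl ℂ (fun z => F b z - F 0 z) (ball 0 ρ) :=
    (dcc_of_biHol hF hρ1 mb).sub (dcc_of_biHol hF hρ1 m0)
  have d2 : DiffContOnCl ℂ (fun z => F a z - F 0 z) (ball 0 ρ) :=
    (dcc_of_biHol hF hρ1 ma).sub (dcc_of_biHol hF hρ1 m0)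
  have c1 := contOn_sphere hρ d1
  have c2 := contOn_sphere hρ d2
  have cP := contOn_PhiE hρ ha hb
  have j1 : CircleIntegrable (fun z => PhiE a b z * conj (F b z - F 0 z)) 0 ρ :=
    (cP.mul (Complex.continuous_conj.comp_continuousOn c1)).circleIntegrable'
  have j2 : CircleIntegrable (fun z => PhiE a b z * (F a z - F 0 z)) 0 ρ :=
    (cP.mul c2).circleIntegrable'
  rw [hin, Real.circleAverage_fun_sub j1 j2, avg_PhiE_mul hρ d2 ha hb,
    avg_PhiE_mul_conj hρ d1 ha hb,
    hF.symm a ma 0 m0, hF.symm b mb 0 m0, hF.symm b mb a ma]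
  simp only [Complex.sub_re, Complex.add_re, Complex.mul_re, Complex.conj_re,
    Complex.conj_im, Complex.sub_im, Complex.re_ofNat, Complex.im_ofNat, Complex.neg_re,
    Complex.neg_im]
  ring

end Pool.Agent.H99S
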