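import Pool.Agent.H99S.RiemSum

/-!
# From regularised to singular kernels

Data: a density `Φ` continuous on the annulus `r < |z| < 1`, regularised kernels `κ τ` (`τ > 0`)
with nonnegative energy on every finite union of circles, converging off the diagonal to `κ0`
with the error `M τ / |z - w|²`, at most `M (1 + |log τ|)` everywhere; the energy of `κ0` between
two different circles is `T (larger radius)`, `T` antitone.  Then `T ≥ 0`.

Proof.  Fix `ρ0 < ρ1 < 1`.  For `n ≥ 1` let `R` be `n` equally spaced radii in `[ρ0, ρ1]`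
(spacing `δ = (ρ1 - ρ0) / n`) and `τ = n ^ (-4)`.  With `B` a bound of `|Φ|` on the closed annulus
`ρ0 ≤ |z| ≤ ρ1` and `M` the constants for `ρ1`:
`0 ≤ ∑_{ρ ≠ ρ'} T (max ρ ρ') + n² B² M τ / δ² + n B² M (1 + 4 log n)`
`  ≤ n (n - 1) T ρ0 + n² B² M n^(-4) n² / (ρ1 - ρ0)² + n B² M (1 + 4 log n)`.
Divide by `n²` and let `n → ∞`.
-/

set_option autoImplicit false

open Complex ComplexConjugate Metric Set Filter Topology

namespace Pool.Agent.H99S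

namespace LimitAux

theorem norm_avg_le {f : ℂ → ℂ} {ρ C : ℝ} (hρ : 0 ≤ ρ)
    (h : ∀ z : ℂ, ‖z‖ = ρ → ‖f z‖ ≤ C) : ‖Real.circleAverage f 0 ρ‖ ≤ C := by
  rw [Real.circleAverage_def, norm_smul]
  have hpi := Real.pi_pos
  have h1 : ‖∫ θ in (0:ℝ)..2 * Real.pi, f (circleMap 0 ρ θ)‖ ≤ C * |2 * Real.pi - 0| := by
    apply intervalIntegral.norm_integral_le_of_norm_le_const
    intro θ _
    apply h
    have := circleMap_mem_sphere (0:ℂ) hρ θ
    simpa using this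
  rw [sub_zero, abs_of_pos (by positivity)] at h1
  rw [Real.norm_of_nonneg (by positivity)]
  calc (2 * Real.pi)⁻¹ * ‖∫ θ in (0:ℝ)..2 * Real.pi, f (circleMap 0 ρ θ)‖
      ≤ (2 * Real.pi)⁻¹ * (C * (2 * Real.pi)) := by gcongr
    _ = C := by field_simp

theorem norm_avg2_le {K : ℂ → ℂ → ℂ} {ρ ρ' C : ℝ} (hρ : 0 ≤ ρ) (hρ' : 0 ≤ ρ')
    (h : ∀ z w : ℂ, ‖z‖ = ρ → ‖w‖ = ρ' → ‖K z w‖ ≤ C) : ‖avg2 K ρ ρ'‖ ≤ C := by
  apply norm_avg_le hρ
  intro z hz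
  apply norm_avg_le hρ'
  intro w hw
  exact h z w hz hw

theorem cont_comp {K : ℂ → ℂ → ℂ} {ρ ρ' : ℝ} (hρ : 0 ≤ ρ) (hρ' : 0 ≤ ρ')
    (hK : ContinuousOn (Function.uncurry K) (sphere 0 ρ ×ˢ sphere 0 ρ')) :
    Continuous (Function.uncurry fun (θ φ : ℝ) => K (circleMap 0 ρ θ) (circleMap 0 ρ' φ)) := by
  have h1 : Continuous (fun p : ℝ × ℝ => (circleMap 0 ρ p.1, circleMap 0 ρ' p.2)) := by
    fun_prop
  have h2 := hK.comp_continuous h1 (by
    intro p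
    exact ⟨circleMap_mem_sphere (0:ℂ) hρ _, circleMap_mem_sphere (0:ℂ) hρ' _⟩)
  exact h2

theorem avg2_sub {K K' : ℂ → ℂ → ℂ} {ρ ρ' : ℝ} (hρ : 0 ≤ ρ) (hρ' : 0 ≤ ρ')
    (hK : ContinuousOn (Function.uncurry K) (sphere 0 ρ ×ˢ sphere 0 ρ'))
    (hK' : ContinuousOn (Function.uncurry K') (sphere 0 ρ ×ˢ sphere 0 ρ')) :
    avg2 K ρ ρ' - avg2 K' ρ ρ' = avg2 (fun z w => K z w - K' z w) ρ ρ' := by
  have hc := cont_comp hρ hρ' hK
  have hc' := cont_comp hρ hρ' hK'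
  unfold avg2
  have e1 : ∀ θ : ℝ, Real.circleAverage (fun w => K (circleMap 0 ρ θ) w
        - K' (circleMap 0 ρ θ) w) 0 ρ'
      = Real.circleAverage (fun w => K (circleMap 0 ρ θ) w) 0 ρ'
        - Real.circleAverage (fun w => K' (circleMap 0 ρ θ) w) 0 ρ' := by
    intro θ
    apply Real.circleAverage_fun_sub
    · have : Continuous (fun φ : ℝ => K (circleMap 0 ρ θ) (circleMap 0 ρ' φ)) :=
        hc.comp (Continuous.prodMk_right θ)
      exact this.intervalIntegrable _ _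
    · have : Continuous (fun φ : ℝ => K' (circleMap 0 ρ θ) (circleMap 0 ρ' φ)) :=
        hc'.comp (Continuous.prodMk_right θ)
      exact this.intervalIntegrable _ _
  have ci : ∀ {K : ℂ → ℂ → ℂ}, Continuous (Function.uncurry
      fun (θ φ : ℝ) => K (circleMap 0 ρ θ) (circleMap 0 ρ' φ)) →
      CircleIntegrable (fun z => Real.circleAverage (fun w => K z w) 0 ρ') 0 ρ := by
    intro K hc
    have h1 : Continuous (fun θ : ℝ => ∫ φ in (0:ℝ)..(2 * Real.pi),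
        K (circleMap 0 ρ θ) (circleMap 0 ρ' φ)) :=
      intervalIntegral.continuous_parametric_intervalIntegral_of_continuous' hc _ _
    have h2 : Continuous (fun θ : ℝ =>
        Real.circleAverage (fun w => K (circleMap 0 ρ θ) w) 0 ρ') := by
      simp only [Real.circleAverage_def]
      exact h1.const_smul _
    exact h2.intervalIntegrable _ _
  rw [← Real.circleAverage_fun_sub (ci hc) (ci hc')]
  rw [Real.circleAverage_def, Real.circleAverage_def]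
  congr 1
  apply intervalIntegral.integral_congr
  intro θ _
  exact (e1 θ).symm

theorem sum_bound (R : Finset ℝ) (f : ℝ → ℝ → ℝ) (D E : ℝ)
    (h : ∀ ρ ∈ R, ∀ ρ' ∈ R, f ρ ρ' ≤ if ρ = ρ' then D else E) :
    ∑ ρ ∈ R, ∑ ρ' ∈ R, f ρ ρ' ≤ (R.card : ℝ) * ((R.card : ℝ) * E + (D - E)) := by
  calc ∑ ρ ∈ R, ∑ ρ' ∈ R, f ρ ρ'
      ≤ ∑ ρ ∈ R, ∑ ρ' ∈ R, (E + if ρ = ρ' then D - E else 0) := by
        apply Finset.sum_le_sum
        intro ρ hρ
        apply Finset.sum_le_sum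
        intro ρ' hρ'
        refine (h ρ hρ ρ' hρ').trans (le_of_eq ?_)
        split_ifs <;> ring
    _ = ∑ ρ ∈ R, ((R.card : ℝ) * E + (D - E)) := by
        apply Finset.sum_congr rfl
        intro ρ hρ
        rw [Finset.sum_add_distrib, Finset.sum_const, Finset.sum_ite_eq, if_pos hρ, nsmul_eq_mul]
    _ = (R.card : ℝ) * ((R.card : ℝ) * E + (D - E)) := by
        rw [Finset.sum_const, nsmul_eq_mul]

theorem final_contra {ε C1 C2 : ℝ} (hε : 0 < ε) (hC1 : 0 ≤ C1) (hC2 : 0 ≤ C2)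
    (h : ∀ m : ℕ, 1 ≤ m → (m : ℝ) ^ 4 * ε ≤ (m : ℝ) ^ 2 * ε + C1 + C2 * (m : ℝ) ^ 3) : False := by
  obtain ⟨m, hm⟩ := exists_nat_gt ((ε + C1 + C2) / ε)
  have hm1 : 1 ≤ (ε + C1 + C2) / ε := by
    rw [le_div_iff₀ hε]; linarith
  have hm' : (1:ℝ) ≤ m := by linarith
  have hmn : 1 ≤ m := by exact_mod_cast hm'
  have h1 := h m hmn
  rw [div_lt_iff₀ hε] at hm
  have hm3 : (0:ℝ) < (m:ℝ) ^ 3 := by positivity
  have h2 : (ε + C1 + C2) * (m:ℝ) ^ 3 < (m:ℝ) * ε * (m:ℝ) ^ 3 :=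
    mul_lt_mul_of_pos_right hm hm3
  have h3 : (m:ℝ) ^ 2 ≤ (m:ℝ) ^ 3 := pow_le_pow_right₀ hm' (by norm_num)
  have h4 : (1:ℝ) ≤ (m:ℝ) ^ 3 := one_le_pow₀ hm'
  nlinarith [mul_le_mul_of_nonneg_left h3 hε.le, mul_le_mul_of_nonneg_left h4 hC1]

end LimitAux

open LimitAux

theorem energy_limit {Φ : ℂ → ℂ} {κ : ℝ → ℂ → ℂ → ℝ} {κ0 : ℂ → ℂ → ℝ} {T : ℝ → ℝ} {r : ℝ}
    (hr0 : 0 ≤ r)
    (hΦ : ContinuousOn Φ {z | r < ‖z‖ ∧ ‖z‖ < 1})
    (hκ : ∀ τ, 0 < τ → ContinuousOn (Function.uncurry (κ τ)) (ball 0 1 ×ˢ ball 0 1))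
    (hκ0 : ContinuousOn (Function.uncurry κ0) ((ball 0 1 ×ˢ ball 0 1) ∩ {p | p.1 ≠ p.2}))
    (hpos : ∀ τ, 0 < τ → ∀ R : Finset ℝ, (∀ ρ ∈ R, r < ρ ∧ ρ < 1) →
      0 ≤ (∑ ρ ∈ R, ∑ ρ' ∈ R,
        avg2 (fun z w => Φ z * conj (Φ w) * ((κ τ z w : ℝ) : ℂ)) ρ ρ').re)
    (happ : ∀ ρ1 < 1, ∃ M : ℝ, ∀ τ, 0 < τ → τ < 1 → ∀ z w : ℂ, ‖z‖ ≤ ρ1 → ‖w‖ ≤ ρ1 → z ≠ w →
      |κ τ z w - κ0 z w| ≤ M * τ / ‖z - w‖ ^ 2)
    (hbd : ∀ ρ1 < 1, ∃ M : ℝ, ∀ τ, 0 < τ → τ < 1 → ∀ z w : ℂ, ‖z‖ ≤ ρ1 → ‖w‖ ≤ ρ1 →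
      |κ τ z w| ≤ M * (1 + |Real.log τ|))
    (hT1 : ∀ ρ ρ', r < ρ' → ρ' < ρ → ρ < 1 →
      (avg2 (fun z w => Φ z * conj (Φ w) * ((κ0 z w : ℝ) : ℂ)) ρ ρ').re = T ρ)
    (hT2 : ∀ ρ ρ', r < ρ → ρ < ρ' → ρ' < 1 →
      (avg2 (fun z w => Φ z * conj (Φ w) * ((κ0 z w : ℝ) : ℂ)) ρ ρ').re = T ρ')
    (hmono : AntitoneOn T (Ioo r 1)) {ρ0 : ℝ} (hρ0 : ρ0 ∈ Ioo r 1) : 0 ≤ T ρ0 := by
  obtain ⟨hr, h1⟩ := hρ0
  have hρ0pos : 0 < ρ0 := lt_of_le_of_lt hr0 hr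
  by_contra hneg
  rw [not_le] at hneg
  set ρ1 : ℝ := (ρ0 + 1) / 2 with hρ1
  have h01 : ρ0 < ρ1 := by rw [hρ1]; linarith
  have h11 : ρ1 < 1 := by rw [hρ1]; linarith
  obtain ⟨M, hM⟩ := happ ρ1 h11
  obtain ⟨M', hM'⟩ := hbd ρ1 h11
  -- bound for Φ
  have hcomp : IsCompact {z : ℂ | ρ0 ≤ ‖z‖ ∧ ‖z‖ ≤ ρ1} := by
    apply Metric.isCompact_of_isClosed_isBounded
    · exact (isClosed_le continuous_const continuous_norm).inter
        (isClosed_le continuous_norm continuous_const)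
    · apply (Metric.isBounded_closedBall (x := (0:ℂ)) (r := ρ1)).subset
      rintro z ⟨_, hz⟩
      simpa using hz
  have hΦ1 : ContinuousOn Φ {z : ℂ | ρ0 ≤ ‖z‖ ∧ ‖z‖ ≤ ρ1} := by
    apply hΦ.mono
    rintro z ⟨hz1, hz2⟩
    exact ⟨by linarith, by linarith⟩
  obtain ⟨B0, hB0⟩ := hcomp.exists_bound_of_continuousOn hΦ1
  set B : ℝ := max B0 0 with hB
  have hBn : 0 ≤ B := le_max_right _ _
  have hBb : ∀ z : ℂ, ρ0 ≤ ‖z‖ → ‖z‖ ≤ ρ1 → ‖Φ z‖ ≤ B :=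
    fun z hz1 hz2 => (hB0 z ⟨hz1, hz2⟩).trans (le_max_left _ _)
  set M1 : ℝ := max M 0 with hM1
  have hM1n : 0 ≤ M1 := le_max_right _ _
  set M2 : ℝ := max M' 0 with hM2
  have hM2n : 0 ≤ M2 := le_max_right _ _
  set L : ℝ := ρ1 - ρ0 with hL
  have hLpos : 0 < L := by rw [hL]; linarith
  apply final_contra (ε := -T ρ0) (C1 := B ^ 2 * M1 / L ^ 2) (C2 := 9 * B ^ 2 * M2)
    (by linarith) (by positivity) (by positivity)
  intro m hm
  have hm' : (1:ℝ) ≤ m := by exact_mod_cast hm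
  have hm0 : (0:ℝ) < m := by linarith
  -- m = 1 is trivial
  rcases Nat.eq_or_lt_of_le hm with hm1 | hm2
  · rw [← hm1]
    simp only [Nat.cast_one, one_pow, mul_one, one_mul]
    have : 0 ≤ B ^ 2 * M1 / L ^ 2 := by positivity
    have : 0 ≤ 9 * B ^ 2 * M2 := by positivity
    linarith
  have hm2' : (2:ℝ) ≤ m := by exact_mod_cast hm2
  set n : ℕ := m ^ 2 with hn
  have hn0 : 0 < n := by positivity
  have hnR : (n:ℝ) = (m:ℝ) ^ 2 := by rw [hn]; push_cast; ring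
  have hnpos : (0:ℝ) < n := by exact_mod_cast hn0
  set δ : ℝ := L / n with hδ
  have hδpos : 0 < δ := by positivity
  set τ : ℝ := 1 / (n:ℝ) ^ 4 with hτ
  have hτpos : 0 < τ := by positivity
  have hn4 : (4:ℝ) ≤ n := by rw [hnR]; nlinarith
  have hτ1 : τ < 1 := by
    rw [hτ, div_lt_one (by positivity)]
    calc (1:ℝ) < n := by linarith
      _ ≤ (n:ℝ) ^ 4 := le_self_pow₀ (by linarith) (by norm_num)
  let g : ℕ → ℝ := fun k => ρ0 + δ * k
  have hginj : Function.Injective g := by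
    intro a b hab
    have h : δ * (a:ℝ) = δ * b := by
      have : ρ0 + δ * (a:ℝ) = ρ0 + δ * b := hab
      linarith
    have := mul_left_cancel₀ hδpos.ne' h
    exact_mod_cast this
  set R : Finset ℝ := (Finset.range n).image g with hR
  have hcard : R.card = n := by
    rw [hR, Finset.card_image_of_injective _ hginj, Finset.card_range]
  have hRmem : ∀ ρ ∈ R, ρ0 ≤ ρ ∧ ρ ≤ ρ1 := by
    intro ρ hρ
    rw [hR, Finset.mem_image] at hρ
    obtain ⟨k, hk, rfl⟩ := hρ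
    have hk' : k < n := Finset.mem_range.mp hk
    have hk'' : (k:ℝ) ≤ n := by exact_mod_cast hk'.le
    constructor
    · show ρ0 ≤ ρ0 + δ * k
      have : 0 ≤ δ * (k:ℝ) := by positivity
      linarith
    · show ρ0 + δ * k ≤ ρ1
      have h2 : δ * (k:ℝ) ≤ δ * n := by gcongr
      have h3 : δ * (n:ℝ) = L := by rw [hδ]; field_simp
      rw [h3] at h2
      rw [hL] at h2
      linarith
  have hRsep : ∀ ρ ∈ R, ∀ ρ' ∈ R, ρ ≠ ρ' → δ ≤ |ρ - ρ'| := by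
    intro ρ hρ ρ' hρ' hne
    rw [hR, Finset.mem_image] at hρ hρ'
    obtain ⟨k, hk, rfl⟩ := hρ
    obtain ⟨l, hl, rfl⟩ := hρ'
    have hkl : k ≠ l := fun h => hne (by rw [h])
    show δ ≤ |(ρ0 + δ * k) - (ρ0 + δ * l)|
    have e : (ρ0 + δ * (k:ℝ)) - (ρ0 + δ * l) = δ * ((k:ℝ) - l) := by ring
    rw [e, abs_mul, abs_of_pos hδpos]
    have h1 : (1:ℝ) ≤ |(k:ℝ) - l| := by
      have h2 : (k:ℤ) - l ≠ 0 := by omega
      have h3 := Int.one_le_abs h2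
      have h4 : ((1:ℤ):ℝ) ≤ ((|(k:ℤ) - l| : ℤ) : ℝ) := by exact_mod_cast h3
      simpa using h4
    nlinarith
  -- the diagonal and off-diagonal bounds
  set D : ℝ := B ^ 2 * (M2 * (1 + |Real.log τ|)) with hD
  set E : ℝ := T ρ0 + B ^ 2 * (M1 * τ / δ ^ 2) with hE
  have hkey : ∀ ρ ∈ R, ∀ ρ' ∈ R,
      (avg2 (fun z w => Φ z * conj (Φ w) * ((κ τ z w : ℝ) : ℂ)) ρ ρ').re ≤
        if ρ = ρ' then D else E := by
    intro ρ hρ ρ' hρ'
    obtain ⟨ha, hb⟩ := hRmem ρ hρ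
    obtain ⟨ha', hb'⟩ := hRmem ρ' hρ'
    have hρpos : 0 < ρ := by linarith
    have hρ'pos : 0 < ρ' := by linarith
    have hΦΦ : ∀ z w : ℂ, ‖z‖ = ρ → ‖w‖ = ρ' → ‖Φ z * conj (Φ w)‖ ≤ B ^ 2 := by
      intro z w hz hw
      rw [norm_mul, RCLike.norm_conj, sq]
      exact mul_le_mul (hBb z (by rw [hz]; exact ha) (by rw [hz]; exact hb))
        (hBb w (by rw [hw]; exact ha') (by rw [hw]; exact hb')) (norm_nonneg _) hBn
    by_cases hne : ρ = ρ'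
    · rw [if_pos hne]
      refine (Complex.re_le_norm _).trans ?_
      apply norm_avg2_le hρpos.le hρ'pos.le
      intro z w hz hw
      rw [norm_mul, hD]
      apply mul_le_mul (hΦΦ z w hz hw) _ (norm_nonneg _) (by positivity)
      rw [Complex.norm_real, Real.norm_eq_abs]
      refine (hM' τ hτpos hτ1 z w (by linarith) (by linarith)).trans ?_
      apply mul_le_mul_of_nonneg_right (le_max_left _ _)
      positivity
    · rw [if_neg hne]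
      have hsep := hRsep ρ hρ ρ' hρ' hne
      -- continuity facts
      have hsub : (sphere (0:ℂ) ρ) ⊆ {z | r < ‖z‖ ∧ ‖z‖ < 1} := by
        intro z hz
        have hz' : ‖z‖ = ρ := by simpa using hz
        exact ⟨by rw [hz']; linarith, by rw [hz']; linarith⟩
      have hsub' : (sphere (0:ℂ) ρ') ⊆ {z | r < ‖z‖ ∧ ‖z‖ < 1} := by
        intro z hz
        have hz' : ‖z‖ = ρ' := by simpa using hz
        exact ⟨by rw [hz']; linarith, by rw [hz']; linarith⟩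
      have hcΦ : ContinuousOn (fun p : ℂ × ℂ => Φ p.1 * conj (Φ p.2))
          (sphere 0 ρ ×ˢ sphere 0 ρ') := by
        have c1 : ContinuousOn (fun p : ℂ × ℂ => Φ p.1) (sphere 0 ρ ×ˢ sphere 0 ρ') :=
          (hΦ.mono hsub).comp continuousOn_fst (fun p hp => hp.1)
        have c2 : ContinuousOn (fun p : ℂ × ℂ => Φ p.2) (sphere 0 ρ ×ˢ sphere 0 ρ') :=
          (hΦ.mono hsub').comp continuousOn_snd (fun p hp => hp.2)
        exact c1.mul (Complex.continuous_conj.comp_continuousOn c2)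
      have hin : (sphere (0:ℂ) ρ ×ˢ sphere (0:ℂ) ρ') ⊆ (ball (0:ℂ) 1 ×ˢ ball (0:ℂ) 1) := by
        rintro ⟨z, w⟩ ⟨hz, hw⟩
        have hz' : ‖z‖ = ρ := by simpa using hz
        have hw' : ‖w‖ = ρ' := by simpa using hw
        exact ⟨by simp [hz']; linarith, by simp [hw']; linarith⟩
      have hin0 : (sphere (0:ℂ) ρ ×ˢ sphere (0:ℂ) ρ') ⊆
          (ball (0:ℂ) 1 ×ˢ ball (0:ℂ) 1) ∩ {p | p.1 ≠ p.2} := by
        rintro ⟨z, w⟩ hp
        refine ⟨hin hp, ?_⟩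
        obtain ⟨hz, hw⟩ := hp
        have hz' : ‖z‖ = ρ := by simpa using hz
        have hw' : ‖w‖ = ρ' := by simpa using hw
        intro heq
        apply hne
        rw [← hz', ← hw']
        simp only at heq
        rw [heq]
      have hc1 : ContinuousOn (Function.uncurry
          (fun z w => Φ z * conj (Φ w) * ((κ τ z w : ℝ) : ℂ))) (sphere 0 ρ ×ˢ sphere 0 ρ') := by
        have := (hκ τ hτpos).mono hin
        exact hcΦ.mul (Complex.continuous_ofReal.comp_continuousOn this)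
      have hc2 : ContinuousOn (Function.uncurry
          (fun z w => Φ z * conj (Φ w) * ((κ0 z w : ℝ) : ℂ))) (sphere 0 ρ ×ˢ sphere 0 ρ') := by
        have := hκ0.mono hin0
        exact hcΦ.mul (Complex.continuous_ofReal.comp_continuousOn this)
      have hsubeq := avg2_sub hρpos.le hρ'pos.le hc1 hc2
      have hdiff : ‖avg2 (fun z w => Φ z * conj (Φ w) * ((κ τ z w : ℝ) : ℂ)) ρ ρ' -
          avg2 (fun z w => Φ z * conj (Φ w) * ((κ0 z w : ℝ) : ℂ)) ρ ρ'‖ ≤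
          B ^ 2 * (M1 * τ / δ ^ 2) := by
        rw [hsubeq]
        apply norm_avg2_le hρpos.le hρ'pos.le
        intro z w hz hw
        have e : Φ z * conj (Φ w) * ((κ τ z w : ℝ) : ℂ) - Φ z * conj (Φ w) * ((κ0 z w : ℝ) : ℂ)
            = Φ z * conj (Φ w) * ((κ τ z w - κ0 z w : ℝ) : ℂ) := by
          push_cast; ring
        rw [e, norm_mul]
        apply mul_le_mul (hΦΦ z w hz hw) _ (norm_nonneg _) (by positivity)
        rw [Complex.norm_real, Real.norm_eq_abs]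
        have hzw : z ≠ w := by
          intro h
          apply hne
          rw [← hz, ← hw, h]
        refine (hM τ hτpos hτ1 z w (by linarith) (by linarith) hzw).trans ?_
        have hd : δ ≤ ‖z - w‖ := by
          have h2 := abs_norm_sub_norm_le z w
          rw [hz, hw] at h2
          linarith
        have hnn : 0 < ‖z - w‖ ^ 2 := by
          have : 0 < ‖z - w‖ := by linarith
          positivity
        calc M * τ / ‖z - w‖ ^ 2 ≤ M1 * τ / ‖z - w‖ ^ 2 := by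
              gcongr
              exact le_max_left _ _
          _ ≤ M1 * τ / δ ^ 2 := by
              gcongr
      have hT : (avg2 (fun z w => Φ z * conj (Φ w) * ((κ0 z w : ℝ) : ℂ)) ρ ρ').re ≤ T ρ0 := by
        rcases lt_or_gt_of_ne hne with hlt | hgt
        · rw [hT2 ρ ρ' (by linarith) hlt (by linarith)]
          exact hmono ⟨hr, h1⟩ ⟨by linarith, by linarith⟩ ha'
        · rw [hT1 ρ ρ' (by linarith) hgt (by linarith)]
          exact hmono ⟨hr, h1⟩ ⟨by linarith, by linarith⟩ ha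
      have hre := (Complex.re_le_norm (avg2 (fun z w => Φ z * conj (Φ w) * ((κ τ z w : ℝ) : ℂ)) ρ ρ' -
          avg2 (fun z w => Φ z * conj (Φ w) * ((κ0 z w : ℝ) : ℂ)) ρ ρ')).trans hdiff
      rw [Complex.sub_re] at hre
      rw [hE]
      linarith
  have hp := hpos τ hτpos R (fun ρ hρ => ⟨by linarith [(hRmem ρ hρ).1], by
    linarith [(hRmem ρ hρ).2]⟩)
  have hp' : 0 ≤ ∑ ρ ∈ R, ∑ ρ' ∈ R,
      (avg2 (fun z w => Φ z * conj (Φ w) * ((κ τ z w : ℝ) : ℂ)) ρ ρ').re := by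
    refine hp.trans (le_of_eq ?_)
    rw [Complex.re_sum]
    apply Finset.sum_congr rfl
    intro ρ _
    rw [Complex.re_sum]
  have hs := hp'.trans (sum_bound R _ D E hkey)
  rw [hcard] at hs
  -- evaluate
  have hE2 : (n:ℝ) ^ 2 * (B ^ 2 * (M1 * τ / δ ^ 2)) = B ^ 2 * M1 / L ^ 2 := by
    rw [hτ, hδ]
    field_simp
  have hlog : |Real.log τ| ≤ 8 * m := by
    rw [hτ, one_div, Real.log_inv, abs_neg, Real.log_pow, hnR, Real.log_pow]
    have hl0 : 0 ≤ Real.log m := Real.log_nonneg hm'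
    have hl1 : Real.log m ≤ m := (Real.log_le_sub_one_of_pos hm0).trans (by linarith)
    rw [abs_of_nonneg (by positivity)]
    push_cast
    linarith
  have hD2 : D ≤ 9 * B ^ 2 * M2 * m := by
    rw [hD]
    have : M2 * (1 + |Real.log τ|) ≤ M2 * (9 * m) := by
      apply mul_le_mul_of_nonneg_left _ hM2n
      linarith
    calc B ^ 2 * (M2 * (1 + |Real.log τ|)) ≤ B ^ 2 * (M2 * (9 * m)) := by gcongr
      _ = 9 * B ^ 2 * M2 * m := by ring
  have hEpos : 0 ≤ B ^ 2 * (M1 * τ / δ ^ 2) := by positivity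
  have hnD : (n:ℝ) * D ≤ 9 * B ^ 2 * M2 * (m:ℝ) ^ 3 := by
    rw [hnR]
    calc (m:ℝ) ^ 2 * D ≤ (m:ℝ) ^ 2 * (9 * B ^ 2 * M2 * m) := by gcongr
      _ = 9 * B ^ 2 * M2 * (m:ℝ) ^ 3 := by ring
  have hfin : 0 ≤ (n:ℝ) ^ 2 * T ρ0 - n * T ρ0 + B ^ 2 * M1 / L ^ 2
      + 9 * B ^ 2 * M2 * (m:ℝ) ^ 3 := by
    have e : (n:ℝ) * ((n:ℝ) * E + (D - E)) = (n:ℝ) ^ 2 * T ρ0 - n * T ρ0
        + (n:ℝ) ^ 2 * (B ^ 2 * (M1 * τ / δ ^ 2)) + n * D - n * (B ^ 2 * (M1 * τ / δ ^ 2)) := by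
      rw [hE]; ring
    rw [e, hE2] at hs
    have : 0 ≤ (n:ℝ) * (B ^ 2 * (M1 * τ / δ ^ 2)) := by positivity
    linarith
  rw [hnR] at hfin
  nlinarith
end Pool.Agent.H99S
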