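import Pool.Agent.H99S.RiemSum

/-!
# Positive semidefinite kernels and circle averages

Apply the finite statement to the family indexed by `(ρ, k)`, `ρ ∈ R`, `k < N`, with points
`g (pt ρ N k)` and weights `Φ (pt ρ N k) / N`, and let `N → ∞` with `riem2`.
-/

set_option autoImplicit false

open Complex ComplexConjugate Metric Set Filter Topology

namespace Pool.Agent.H99S

private theorem psd_fintype {κ : ℂ → ℂ → ℝ}
    (hpsd : ∀ (n : ℕ) (x c : Fin n → ℂ),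
      0 ≤ (∑ i, ∑ j, c i * conj (c j) * ((κ (x i) (x j) : ℝ) : ℂ)).re)
    {ι : Type*} [Fintype ι] (x c : ι → ℂ) :
    0 ≤ (∑ i, ∑ j, c i * conj (c j) * ((κ (x i) (x j) : ℝ) : ℂ)).re := by
  let e := Fintype.equivFin ι
  have h := hpsd (Fintype.card ι) (fun i => x (e.symm i)) (fun i => c (e.symm i))
  have h2 : (∑ i : Fin (Fintype.card ι), ∑ j : Fin (Fintype.card ι),
      c (e.symm i) * conj (c (e.symm j)) * ((κ (x (e.symm i)) (x (e.symm j)) : ℝ) : ℂ))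
      = ∑ i, ∑ j, c i * conj (c j) * ((κ (x i) (x j) : ℝ) : ℂ) := by
    rw [← Equiv.sum_comp e.symm (fun i => ∑ j, c i * conj (c j) * ((κ (x i) (x j) : ℝ) : ℂ))]
    refine Finset.sum_congr rfl fun i _ => ?_
    rw [← Equiv.sum_comp e.symm
      (fun j => c (e.symm i) * conj (c j) * ((κ (x (e.symm i)) (x j) : ℝ) : ℂ))]
  rw [h2] at h
  exact h

theorem psd_circle {κ : ℂ → ℂ → ℝ} (hκ : Continuous (Function.uncurry κ))
    (hpsd : ∀ (n : ℕ) (x c : Fin n → ℂ),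
      0 ≤ (∑ i, ∑ j, c i * conj (c j) * ((κ (x i) (x j) : ℝ) : ℂ)).re)
    (R : Finset ℝ) {g Φ : ℂ → ℂ} (hR : ∀ ρ ∈ R, 0 < ρ)
    (hg : ∀ ρ ∈ R, ContinuousOn g (sphere 0 ρ)) (hΦ : ∀ ρ ∈ R, ContinuousOn Φ (sphere 0 ρ)) :
    0 ≤ (∑ ρ ∈ R, ∑ ρ' ∈ R,
      avg2 (fun z w => Φ z * conj (Φ w) * ((κ (g z) (g w) : ℝ) : ℂ)) ρ ρ').re := by
  set K : ℂ → ℂ → ℂ := fun z w => Φ z * conj (Φ w) * ((κ (g z) (g w) : ℝ) : ℂ) with hKdef
  have hKc : ∀ ρ ∈ R, ∀ ρ' ∈ R,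
      ContinuousOn (Function.uncurry K) (sphere 0 ρ ×ˢ sphere 0 ρ') := by
    intro ρ hρ ρ' hρ'
    have h1 : ContinuousOn (fun q : ℂ × ℂ => Φ q.1) (sphere 0 ρ ×ˢ sphere 0 ρ') :=
      (hΦ ρ hρ).comp continuousOn_fst (fun q hq => hq.1)
    have h2 : ContinuousOn (fun q : ℂ × ℂ => Φ q.2) (sphere 0 ρ ×ˢ sphere 0 ρ') :=
      (hΦ ρ' hρ').comp continuousOn_snd (fun q hq => hq.2)
    have h3 : ContinuousOn (fun q : ℂ × ℂ => g q.1) (sphere 0 ρ ×ˢ sphere 0 ρ') :=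
      (hg ρ hρ).comp continuousOn_fst (fun q hq => hq.1)
    have h4 : ContinuousOn (fun q : ℂ × ℂ => g q.2) (sphere 0 ρ ×ˢ sphere 0 ρ') :=
      (hg ρ' hρ').comp continuousOn_snd (fun q hq => hq.2)
    have h5 : ContinuousOn (fun q : ℂ × ℂ => Function.uncurry κ (g q.1, g q.2))
        (sphere 0 ρ ×ˢ sphere 0 ρ') := hκ.comp_continuousOn (h3.prodMk h4)
    have h6 : ContinuousOn (fun q : ℂ × ℂ => conj (Φ q.2)) (sphere 0 ρ ×ˢ sphere 0 ρ') :=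
      Complex.continuous_conj.comp_continuousOn h2
    exact (h1.mul h6).mul (Complex.continuous_ofReal.comp_continuousOn h5)
  have hlim : Tendsto (fun N : ℕ => (∑ ρ ∈ R, ∑ ρ' ∈ R,
      (1 / (N : ℂ) ^ 2) * ∑ k ∈ Finset.range N, ∑ l ∈ Finset.range N,
      K (pt ρ N k) (pt ρ' N l)).re) atTop (𝓝 (∑ ρ ∈ R, ∑ ρ' ∈ R, avg2 K ρ ρ').re) := by
    refine (Complex.continuous_re.tendsto _).comp ?_
    refine tendsto_finsetSum _ fun ρ hρ => tendsto_finsetSum _ fun ρ' hρ' => ?_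
    exact riem2 (hR ρ hρ) (hR ρ' hρ') (hKc ρ hρ ρ' hρ')
  refine ge_of_tendsto' hlim fun N => ?_
  have h := psd_fintype hpsd (ι := R × Fin N)
    (fun q => g (pt q.1 N q.2)) (fun q => Φ (pt q.1 N q.2) / N)
  have heq : (∑ i : R × Fin N, ∑ j : R × Fin N,
      Φ (pt i.1 N i.2) / N * conj (Φ (pt j.1 N j.2) / N)
        * ((κ (g (pt i.1 N i.2)) (g (pt j.1 N j.2)) : ℝ) : ℂ))
      = ∑ ρ ∈ R, ∑ ρ' ∈ R,
      (1 / (N : ℂ) ^ 2) * ∑ k ∈ Finset.range N, ∑ l ∈ Finset.range N,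
      K (pt ρ N k) (pt ρ' N l) := by
    rw [Fintype.sum_prod_type, ← Finset.sum_coe_sort R
      (fun ρ => ∑ ρ' ∈ R, (1 / (N : ℂ) ^ 2) * ∑ k ∈ Finset.range N, ∑ l ∈ Finset.range N,
      K (pt ρ N k) (pt ρ' N l))]
    refine Finset.sum_congr rfl fun ρ _ => ?_
    have hin : ∀ k : Fin N, ∑ j : R × Fin N,
        Φ (pt ρ N k) / N * conj (Φ (pt j.1 N j.2) / N)
        * ((κ (g (pt ρ N k)) (g (pt j.1 N j.2)) : ℝ) : ℂ)
        = ∑ ρ' ∈ R, (1 / (N : ℂ) ^ 2) * ∑ l ∈ Finset.range N, K (pt ρ N k) (pt ρ' N l) := by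
      intro k
      rw [Fintype.sum_prod_type, ← Finset.sum_coe_sort R
        (fun ρ' => (1 / (N : ℂ) ^ 2) * ∑ l ∈ Finset.range N, K (pt ρ N k) (pt ρ' N l))]
      refine Finset.sum_congr rfl fun ρ' _ => ?_
      rw [Finset.mul_sum, ← Fin.sum_univ_eq_sum_range
        (fun l => (1 / (N : ℂ) ^ 2) * K (pt ρ N k) (pt ρ' N l))]
      refine Finset.sum_congr rfl fun l _ => ?_
      simp only [hKdef, map_div₀, Complex.conj_natCast]
      ring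
    rw [Finset.sum_congr rfl fun k _ => hin k, Finset.sum_comm]
    refine Finset.sum_congr rfl fun ρ' _ => ?_
    rw [← Finset.mul_sum, Fin.sum_univ_eq_sum_range
      (fun k => ∑ l ∈ Finset.range N, K (pt ρ N k) (pt ρ' N l))]
  rw [heq] at h
  exact h

end Pool.Agent.H99S
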