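import Pool.Agent.H99S.Ker
import Pool.Agent.H99S.PsdCirc
import Pool.Agent.H99S.EvalRe
import Pool.Agent.H99S.EvalLog
import Pool.Agent.H99S.Limit
import Pool.Agent.H99S.Bounds

/-!
# The two energy inequalities

Odd: `energy_limit` with `Φ = PhiO C a b`, `κ τ z w = kO τ (h z) (h w)`,
`κ0 z w = log |h z + h w| - log |h z - h w| = Re (Lp z w - Lq z w) - log |z - w|` off the diagonal,
`T ρ = ‖C‖² Re F 0 0 - 2 Re (C F 0 a) - 2 Re (conj C F 0 b) + 4 Re F a b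
        - ‖C - 2‖² log ρ - 2 log (1 - ‖a‖²/ρ²) - 2 log (1 - ‖b‖²/ρ²)`, `F = Lp - Lq`, `r = max ‖a‖ ‖b‖`.
`hpos` is `psd_circle` with `kO_psd`; `hT2` follows from `hT1` by `avg2_swap` and symmetry
(`K w z = conj (K z w)`).  Then let `ρ0 → 1`.

Even: `Φ = PhiE a b`, `κ τ z w = kE τ (h z) (h w)`.  `psd_circle` and `kE'_psd` give the positivity
for `kE'`; the three extra terms of `kE'` depend on one variable only and their double averages
vanish because the average of `PhiE a b` over each circle is `0`.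
-/

set_option autoImplicit false

open Complex ComplexConjugate Metric Set Filter Topology

namespace Pool.Agent.H99S

variable {h : ℂ → ℂ} {Lp Lq : ℂ → ℂ → ℂ} {a b : ℂ}

theorem avg2_congr {K K' : ℂ → ℂ → ℂ} {ρ ρ' : ℝ} (hρ : 0 < ρ) (hρ' : 0 < ρ')
    (h : ∀ z w : ℂ, ‖z‖ = ρ → ‖w‖ = ρ' → K z w = K' z w) : avg2 K ρ ρ' = avg2 K' ρ ρ' := by
  unfold avg2
  apply Real.circleAverage_congr_sphere
  intro z hz
  have hz' : ‖z‖ = ρ := by simpa [abs_of_pos hρ] using hz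
  apply Real.circleAverage_congr_sphere
  intro w hw
  have hw' : ‖w‖ = ρ' := by simpa [abs_of_pos hρ'] using hw
  exact h z w hz' hw'

theorem avg2_conj (K : ℂ → ℂ → ℂ) (ρ ρ' : ℝ) :
    avg2 (fun z w => conj (K z w)) ρ ρ' = conj (avg2 K ρ ρ') := by
  unfold avg2
  simp_rw [avg_conj]

theorem energy_common {Φ : ℂ → ℂ} {F : ℂ → ℂ → ℂ} {κ : ℝ → ℂ → ℂ → ℝ} {κ0 : ℂ → ℂ → ℝ}
    {r V : ℝ} (L : ℝ → ℝ) (hr0 : 0 ≤ r) (hr1 : r < 1)
    (hΦ : ContinuousOn Φ {z | r < ‖z‖ ∧ ‖z‖ < 1})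
    (hκ : ∀ τ, 0 < τ → ContinuousOn (Function.uncurry (κ τ)) (ball 0 1 ×ˢ ball 0 1))
    (hκ0 : ContinuousOn (Function.uncurry κ0) ((ball 0 1 ×ˢ ball 0 1) ∩ {p | p.1 ≠ p.2}))
    (hsymm : ∀ z w, κ0 z w = κ0 w z)
    (hF : ∀ z ∈ ball (0 : ℂ) 1, ∀ w ∈ ball (0 : ℂ) 1, z ≠ w →
      κ0 z w = (F z w).re - Real.log ‖z - w‖)
    (hpos : ∀ τ, 0 < τ → ∀ R : Finset ℝ, (∀ ρ ∈ R, r < ρ ∧ ρ < 1) →
      0 ≤ (∑ ρ ∈ R, ∑ ρ' ∈ R,
        avg2 (fun z w => Φ z * conj (Φ w) * ((κ τ z w : ℝ) : ℂ)) ρ ρ').re)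
    (happ : ∀ ρ1 < 1, ∃ M : ℝ, ∀ τ, 0 < τ → τ < 1 → ∀ z w : ℂ, ‖z‖ ≤ ρ1 → ‖w‖ ≤ ρ1 → z ≠ w →
      |κ τ z w - κ0 z w| ≤ M * τ / ‖z - w‖ ^ 2)
    (hbd : ∀ ρ1 < 1, ∃ M : ℝ, ∀ τ, 0 < τ → τ < 1 → ∀ z w : ℂ, ‖z‖ ≤ ρ1 → ‖w‖ ≤ ρ1 →
      |κ τ z w| ≤ M * (1 + |Real.log τ|))
    (hV : ∀ ρ ρ', r < ρ → ρ < 1 → r < ρ' → ρ' < 1 →
      (avg2 (fun z w => Φ z * conj (Φ w) * ((F z w).re : ℂ)) ρ ρ').re = V)
    (hL : ∀ ρ ρ', r < ρ' → ρ' < ρ →
      (avg2 (fun z w => Φ z * conj (Φ w) * ((-Real.log ‖z - w‖ : ℝ) : ℂ)) ρ ρ').re = L ρ)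
    (hmono : AntitoneOn L (Ioo r 1)) (hlim : ContinuousAt L 1) : 0 ≤ V + L 1 := by
  have hΦs : ∀ ρ, r < ρ → ρ < 1 → ContinuousOn Φ (sphere 0 ρ) := by
    intro ρ h1 h2
    apply hΦ.mono
    intro z hz
    have hz' : ‖z‖ = ρ := by simpa using hz
    exact ⟨by rw [hz']; exact h1, by rw [hz']; exact h2⟩
  -- continuity on products of spheres
  have hcΦ : ∀ ρ ρ', r < ρ → ρ < 1 → r < ρ' → ρ' < 1 →
      ContinuousOn (fun p : ℂ × ℂ => Φ p.1 * conj (Φ p.2)) (sphere 0 ρ ×ˢ sphere 0 ρ') := by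
    intro ρ ρ' h1 h2 h3 h4
    have e1 : ContinuousOn (fun p : ℂ × ℂ => Φ p.1) (sphere 0 ρ ×ˢ sphere 0 ρ') :=
      (hΦs ρ h1 h2).comp continuous_fst.continuousOn (fun p hp => hp.1)
    have e2 : ContinuousOn (fun p : ℂ × ℂ => Φ p.2) (sphere 0 ρ ×ˢ sphere 0 ρ') :=
      (hΦs ρ' h3 h4).comp continuous_snd.continuousOn (fun p hp => hp.2)
    exact e1.mul (Complex.continuous_conj.comp_continuousOn e2)
  have hcκ : ∀ ρ ρ', r < ρ → ρ < 1 → r < ρ' → ρ' < 1 → ρ ≠ ρ' →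
      ContinuousOn (Function.uncurry fun z w => Φ z * conj (Φ w) * ((κ0 z w : ℝ) : ℂ))
        (sphere 0 ρ ×ˢ sphere 0 ρ') := by
    intro ρ ρ' h1 h2 h3 h4 hne
    have e3 : ContinuousOn (Function.uncurry κ0) (sphere 0 ρ ×ˢ sphere 0 ρ') := by
      apply hκ0.mono
      rintro ⟨z, w⟩ ⟨hz, hw⟩
      have hz' : ‖z‖ = ρ := by simpa using hz
      have hw' : ‖w‖ = ρ' := by simpa using hw
      refine ⟨⟨by simpa [hz'] using h2, by simpa [hw'] using h4⟩, ?_⟩
      show z ≠ w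
      rintro rfl
      exact hne (hz'.symm.trans hw')
    exact (hcΦ ρ ρ' h1 h2 h3 h4).mul (Complex.continuous_ofReal.comp_continuousOn e3)
  have hclog : ∀ ρ ρ', r < ρ → ρ < 1 → r < ρ' → ρ' < 1 → ρ ≠ ρ' →
      ContinuousOn (Function.uncurry fun z w =>
        Φ z * conj (Φ w) * ((-Real.log ‖z - w‖ : ℝ) : ℂ)) (sphere 0 ρ ×ˢ sphere 0 ρ') := by
    intro ρ ρ' h1 h2 h3 h4 hne
    have e3 : ContinuousOn (fun p : ℂ × ℂ => -Real.log ‖p.1 - p.2‖)
        (sphere 0 ρ ×ˢ sphere 0 ρ') := by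
      apply ContinuousOn.neg
      apply ContinuousOn.log
      · fun_prop
      · rintro ⟨z, w⟩ ⟨hz, hw⟩
        have hz' : ‖z‖ = ρ := by simpa using hz
        have hw' : ‖w‖ = ρ' := by simpa using hw
        have : z ≠ w := by
          rintro rfl
          exact hne (hz'.symm.trans hw')
        simpa [sub_eq_zero] using this
    exact (hcΦ ρ ρ' h1 h2 h3 h4).mul (Complex.continuous_ofReal.comp_continuousOn e3)
  have hT1 : ∀ ρ ρ', r < ρ' → ρ' < ρ → ρ < 1 →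
      (avg2 (fun z w => Φ z * conj (Φ w) * ((κ0 z w : ℝ) : ℂ)) ρ ρ').re = V + L ρ := by
    intro ρ ρ' h1 h2 h3
    have hρ' : 0 < ρ' := lt_of_le_of_lt hr0 h1
    have hρ : 0 < ρ := hρ'.trans h2
    have hs := LimitAux.avg2_sub hρ.le hρ'.le
      (hcκ ρ ρ' (h1.trans h2) h3 h1 (h2.trans h3) h2.ne')
      (hclog ρ ρ' (h1.trans h2) h3 h1 (h2.trans h3) h2.ne')
    have hc : avg2 (fun z w => Φ z * conj (Φ w) * ((κ0 z w : ℝ) : ℂ)
          - Φ z * conj (Φ w) * ((-Real.log ‖z - w‖ : ℝ) : ℂ)) ρ ρ'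
        = avg2 (fun z w => Φ z * conj (Φ w) * ((F z w).re : ℂ)) ρ ρ' := by
      apply avg2_congr hρ hρ'
      intro z w hz hw
      have hzw : z ≠ w := by
        rintro rfl
        exact h2.ne' (hz.symm.trans hw)
      rw [hF z (by simpa [hz] using h3) w (by simpa [hw] using h2.trans h3) hzw]
      push_cast
      ring
    rw [hc] at hs
    have hs2 := congrArg Complex.re hs
    rw [Complex.sub_re, hV ρ ρ' (h1.trans h2) h3 h1 (h2.trans h3), hL ρ ρ' h1 h2] at hs2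
    linarith
  have hT2 : ∀ ρ ρ', r < ρ → ρ < ρ' → ρ' < 1 →
      (avg2 (fun z w => Φ z * conj (Φ w) * ((κ0 z w : ℝ) : ℂ)) ρ ρ').re = V + L ρ' := by
    intro ρ ρ' h1 h2 h3
    have hρ : 0 < ρ := lt_of_le_of_lt hr0 h1
    have hρ' : 0 < ρ' := hρ.trans h2
    rw [avg2_swap hρ hρ' (hcκ ρ ρ' h1 (h2.trans h3) (h1.trans h2) h3 h2.ne)]
    have he : (fun w z => Φ z * conj (Φ w) * ((κ0 z w : ℝ) : ℂ))
        = fun w z => conj (Φ w * conj (Φ z) * ((κ0 w z : ℝ) : ℂ)) := by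
      funext w z
      rw [hsymm z w]
      simp only [map_mul, Complex.conj_conj, Complex.conj_ofReal]
      ring
    rw [he, avg2_conj, Complex.conj_re]
    exact hT1 ρ' ρ h1 h2 h3
  have key : ∀ ρ0 ∈ Ioo r 1, 0 ≤ V + L ρ0 := by
    intro ρ0 hρ0
    exact energy_limit (T := fun ρ => V + L ρ) hr0 hΦ hκ hκ0 hpos happ hbd hT1 hT2
      (fun x hx y hy hxy => by
        have := hmono hx hy hxy
        show V + L y ≤ V + L x
        linarith) hρ0
  have ht : Tendsto (fun ρ => V + L ρ) (𝓝[<] (1:ℝ)) (𝓝 (V + L 1)) :=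
    (tendsto_const_nhds.add hlim).mono_left nhdsWithin_le_nhds
  apply ge_of_tendsto ht
  filter_upwards [Ioo_mem_nhdsLT hr1] with ρ hρ
  exact key ρ hρ

theorem contOn_PP' {r : ℝ} (ha : ‖a‖ ≤ r) : ContinuousOn (PP a) {z | r < ‖z‖ ∧ ‖z‖ < 1} := by
  unfold PP
  apply ContinuousOn.div (by fun_prop) (by fun_prop)
  intro z hz h0
  have : z = a := sub_eq_zero.mp h0
  rw [this] at hz
  exact absurd hz.1 (not_lt.mpr ha)

theorem kO_cont {τ : ℝ} (hτ : 0 < τ) : Continuous (Function.uncurry (kO τ)) := by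
  have e : Function.uncurry (kO τ) = fun p : ℂ × ℂ =>
      (Real.log (‖p.1 + p.2‖ ^ 2 + τ) - Real.log (‖p.1 - p.2‖ ^ 2 + τ)) / 2 := by
    funext p; rfl
  rw [e]
  apply Continuous.div_const
  apply Continuous.sub
  · apply Continuous.log (by fun_prop)
    intro p; positivity
  · apply Continuous.log (by fun_prop)
    intro p; positivity

theorem kE_cont {τ : ℝ} (hτ : 0 < τ) : Continuous (Function.uncurry (kE τ)) := by
  have e : Function.uncurry (kE τ) = fun p : ℂ × ℂ =>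
      (-Real.log (‖p.1 + p.2‖ ^ 2 + τ) - Real.log (‖p.1 - p.2‖ ^ 2 + τ)) / 2 := by
    funext p; rfl
  rw [e]
  apply Continuous.div_const
  apply Continuous.sub
  · apply Continuous.neg
    apply Continuous.log (by fun_prop)
    intro p; positivity
  · apply Continuous.log (by fun_prop)
    intro p; positivity

theorem kE'_cont {τ : ℝ} (hτ : 0 < τ) : Continuous (Function.uncurry (kE' τ)) := by
  have e : Function.uncurry (kE' τ) = fun p : ℂ × ℂ =>
      Function.uncurry (kE τ) p + Real.log (‖p.1‖ ^ 2 + τ) + Real.log (‖p.2‖ ^ 2 + τ)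
        - Real.log τ := by
    funext p; rfl
  rw [e]
  apply Continuous.sub _ continuous_const
  apply Continuous.add
  · apply (kE_cont hτ).add
    apply Continuous.log (by fun_prop)
    intro p; positivity
  · apply Continuous.log (by fun_prop)
    intro p; positivity

theorem log_norm_ep (hL : Logs h Lp Lq) {z w : ℂ} (hz : z ∈ ball (0 : ℂ) 1)
    (hw : w ∈ ball (0 : ℂ) 1) : Real.log ‖h z + h w‖ = (Lp z w).re := by
  rw [← hL.ep z hz w hw, Complex.norm_exp, Real.log_exp]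

theorem log_norm_eq (hh : Gelfer h) (hL : Logs h Lp Lq) {z w : ℂ} (hz : z ∈ ball (0 : ℂ) 1)
    (hw : w ∈ ball (0 : ℂ) 1) (hne : z ≠ w) :
    Real.log ‖h z - h w‖ = (Lq z w).re + Real.log ‖z - w‖ := by
  have h1 := congrArg (fun u : ℂ => Real.log ‖u‖) (hL.eq z hz w hw hne)
  simp only [Complex.norm_exp, Real.log_exp, norm_div] at h1
  have h2 : ‖h z - h w‖ ≠ 0 := by
    rw [norm_ne_zero_iff, sub_ne_zero]
    exact fun e => hne (hh.inj hz hw e)
  have h3 : ‖z - w‖ ≠ 0 := by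
    rw [norm_ne_zero_iff, sub_ne_zero]
    exact hne
  rw [Real.log_div h2 h3] at h1
  linarith

theorem cont_logs (hh : Gelfer h) (s t : ℝ) :
    ContinuousOn (Function.uncurry fun z w => s * Real.log ‖h z + h w‖ + t * Real.log ‖h z - h w‖)
      ((ball 0 1 ×ˢ ball 0 1) ∩ {p | p.1 ≠ p.2}) := by
  have e1 : ContinuousOn (fun p : ℂ × ℂ => h p.1) ((ball 0 1 ×ˢ ball 0 1) ∩ {p | p.1 ≠ p.2}) :=
    hh.diff.continuousOn.comp continuous_fst.continuousOn (fun p hp => hp.1.1)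
  have e2 : ContinuousOn (fun p : ℂ × ℂ => h p.2) ((ball 0 1 ×ˢ ball 0 1) ∩ {p | p.1 ≠ p.2}) :=
    hh.diff.continuousOn.comp continuous_snd.continuousOn (fun p hp => hp.1.2)
  apply ContinuousOn.add
  · apply continuousOn_const.mul
    apply ContinuousOn.log (e1.add e2).norm
    rintro ⟨z, w⟩ ⟨⟨hz, hw⟩, hne⟩
    exact norm_ne_zero_iff.mpr (hh.sum_ne z hz w hw)
  · apply continuousOn_const.mul
    apply ContinuousOn.log (e1.sub e2).norm
    rintro ⟨z, w⟩ ⟨⟨hz, hw⟩, hne⟩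
    exact norm_ne_zero_iff.mpr (sub_ne_zero.mpr fun e => hne (hh.inj hz hw e))

theorem cont_h2 (hh : Gelfer h) {k : ℂ → ℂ → ℝ} (hk : Continuous (Function.uncurry k)) :
    ContinuousOn (Function.uncurry fun z w => k (h z) (h w)) (ball 0 1 ×ˢ ball 0 1) := by
  have e1 : ContinuousOn (fun p : ℂ × ℂ => h p.1) (ball 0 1 ×ˢ ball 0 1) :=
    hh.diff.continuousOn.comp continuous_fst.continuousOn (fun p hp => hp.1)
  have e2 : ContinuousOn (fun p : ℂ × ℂ => h p.2) (ball 0 1 ×ˢ ball 0 1) :=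
    hh.diff.continuousOn.comp continuous_snd.continuousOn (fun p hp => hp.2)
  exact hk.comp_continuousOn (e1.prodMk e2)

theorem antitone_log {s : ℝ} {r : ℝ} (hs0 : 0 ≤ s) (hs : s ≤ r) :
    AntitoneOn (fun ρ : ℝ => - Real.log (1 - s ^ 2 / ρ ^ 2)) (Ioo r 1) := by
  intro x hx y hy hxy
  have hx0 : 0 < x := lt_of_le_of_lt (hs0.trans hs) hx.1
  have hy0 : 0 < y := lt_of_le_of_lt (hs0.trans hs) hy.1
  show -Real.log (1 - s ^ 2 / y ^ 2) ≤ -Real.log (1 - s ^ 2 / x ^ 2)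
  apply neg_le_neg
  apply Real.log_le_log
  · have : s ^ 2 / x ^ 2 < 1 := by
      rw [div_lt_one (by positivity)]
      apply pow_lt_pow_left₀ (lt_of_le_of_lt hs hx.1) hs0 (by norm_num)
    linarith
  · have : s ^ 2 / y ^ 2 ≤ s ^ 2 / x ^ 2 := by gcongr
    linarith

theorem contAt_log {s : ℝ} (hs0 : 0 ≤ s) (hs : s < 1) :
    ContinuousAt (fun ρ : ℝ => Real.log (1 - s ^ 2 / ρ ^ 2)) 1 := by
  apply ContinuousAt.log
  · apply ContinuousAt.sub continuousAt_const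
    apply ContinuousAt.div continuousAt_const (by fun_prop) (by norm_num)
  · have : s ^ 2 < 1 := by nlinarith
    norm_num
    intro h0
    nlinarith

theorem energy_odd (hh : Gelfer h) (hL : Logs h Lp Lq) (ha : ‖a‖ < 1) (hb : ‖b‖ < 1) (C : ℂ) :
    0 ≤ ‖C‖ ^ 2 * (Lp 0 0 - Lq 0 0).re - 2 * (C * (Lp 0 a - Lq 0 a)).re
      - 2 * (conj C * (Lp 0 b - Lq 0 b)).re + 4 * (Lp a b - Lq a b).re
      - 2 * Real.log (1 - ‖a‖ ^ 2) - 2 * Real.log (1 - ‖b‖ ^ 2) := by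
  set r : ℝ := max ‖a‖ ‖b‖ with hr
  have har : ‖a‖ ≤ r := le_max_left _ _
  have hbr : ‖b‖ ≤ r := le_max_right _ _
  have hr1 : r < 1 := max_lt ha hb
  have hr0 : 0 ≤ r := (norm_nonneg a).trans har
  have hF : BiHol (fun z w => Lp z w - Lq z w) := by
    constructor
    · intro z hz w hw
      show Lp z w - Lq z w = Lp w z - Lq w z
      rw [hL.bp.symm z hz w hw, hL.bq.symm z hz w hw]
    · intro z hz
      exact (hL.bp.diff z hz).sub (hL.bq.diff z hz)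
  have key := energy_common (Φ := PhiO C a b) (F := fun z w => Lp z w - Lq z w)
    (κ := fun τ z w => kO τ (h z) (h w))
    (κ0 := fun z w => 1 * Real.log ‖h z + h w‖ + (-1) * Real.log ‖h z - h w‖) (r := r)
    (V := ‖C‖ ^ 2 * (Lp 0 0 - Lq 0 0).re - 2 * (C * (Lp 0 a - Lq 0 a)).re
      - 2 * (conj C * (Lp 0 b - Lq 0 b)).re + 4 * (Lp a b - Lq a b).re)
    (L := fun ρ => -‖C - 2‖ ^ 2 * Real.log ρ - 2 * Real.log (1 - ‖a‖ ^ 2 / ρ ^ 2)
        - 2 * Real.log (1 - ‖b‖ ^ 2 / ρ ^ 2)) hr0 hr1 ?_ ?_ (cont_logs hh 1 (-1)) ?_ ?_ ?_ ?_ ?_ ?_ ?_ ?_ ?_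
  · simp only [one_pow, Real.log_one, mul_zero, div_one] at key
    linarith
  · -- continuity of Φ
    unfold PhiO
    apply ContinuousOn.sub
    · apply ContinuousOn.sub continuousOn_const
      exact Complex.continuous_conj.comp_continuousOn (contOn_PP' har)
    · exact contOn_PP' hbr
  · intro τ hτ
    exact cont_h2 hh (kO_cont hτ)
  · intro z w
    simp only [add_comm (h z) (h w), norm_sub_rev (h z) (h w)]
  · intro z hz w hw hne
    rw [log_norm_ep hL hz hw, log_norm_eq hh hL hz hw hne, Complex.sub_re]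
    ring
  · intro τ hτ R hR
    apply psd_circle (κ := kO τ) (kO_cont hτ) (fun n x c => kO_psd x c hτ) R
    · intro ρ hρ
      exact lt_of_le_of_lt hr0 (hR ρ hρ).1
    · intro ρ hρ
      apply hh.diff.continuousOn.mono
      intro z hz
      have hz' : ‖z‖ = ρ := by simpa using hz
      simpa [hz'] using (hR ρ hρ).2
    · intro ρ hρ
      have hρ0 : 0 < ρ := lt_of_le_of_lt hr0 (hR ρ hρ).1
      have := contOn_PhiO (C := C) hρ0 (lt_of_le_of_lt har (hR ρ hρ).1)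
        (lt_of_le_of_lt hbr (hR ρ hρ).1)
      rwa [abs_of_pos hρ0] at this
  · intro ρ1 hρ1
    obtain ⟨M, hM⟩ := kO_app hh hρ1
    refine ⟨M, fun τ hτ hτ1 z w hz hw hne => ?_⟩
    have := hM τ hτ hτ1 z w hz hw hne
    rw [show (1 * Real.log ‖h z + h w‖ + (-1) * Real.log ‖h z - h w‖) =
      Real.log ‖h z + h w‖ - Real.log ‖h z - h w‖ by ring]
    exact this
  · intro ρ1 hρ1
    exact kO_bd hh hρ1
  · intro ρ ρ' h1 h2 h3 h4
    exact avg2_re_PhiO hF (lt_of_le_of_lt hr0 h1) h2 (lt_of_le_of_lt hr0 h3) h4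
      (lt_of_le_of_lt har h1) (lt_of_le_of_lt hbr h1) (lt_of_le_of_lt har h3)
      (lt_of_le_of_lt hbr h3)
  · intro ρ ρ' h1 h2
    exact avg2_log_PhiO (lt_of_le_of_lt hr0 h1) h2 (lt_of_le_of_lt har h1)
      (lt_of_le_of_lt hbr h1)
  · intro x hx y hy hxy
    have h1 := antitone_log (norm_nonneg a) har hx hy hxy
    have h2 := antitone_log (norm_nonneg b) hbr hx hy hxy
    have h3 : Real.log x ≤ Real.log y := Real.log_le_log (lt_of_le_of_lt hr0 hx.1) hxy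
    simp only at h1 h2 ⊢
    nlinarith [sq_nonneg ‖C - 2‖]
  · apply ContinuousAt.sub
    · apply ContinuousAt.sub
      · exact continuousAt_const.mul (Real.continuousAt_log one_ne_zero)
      · exact continuousAt_const.mul (contAt_log (norm_nonneg a) ha)
    · exact continuousAt_const.mul (contAt_log (norm_nonneg b) hb)

theorem avg_PhiE_zero {ρ : ℝ} (hρ : 0 < ρ) (ha : ‖a‖ < ρ) (hb : ‖b‖ < ρ) :
    Real.circleAverage (PhiE a b) 0 ρ = 0 := by
  have h1 := avg_PhiE_mul (G := fun _ => (1 : ℂ)) (a := a) (b := b) hρ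
    (by exact diffContOnCl_const) ha hb
  simpa using h1

/-- the terms of one variable do not contribute to the even energy -/
theorem avg2_extra {u v : ℂ → ℝ} {ρ ρ' : ℝ} (hρ : 0 < ρ) (hρ' : 0 < ρ') (ha : ‖a‖ < ρ)
    (hb : ‖b‖ < ρ) (ha' : ‖a‖ < ρ') (hb' : ‖b‖ < ρ')
    (hv : ContinuousOn v (sphere 0 |ρ'|)) :
    avg2 (fun z w => PhiE a b z * conj (PhiE a b w) * ((u z + v w : ℝ) : ℂ)) ρ ρ' = 0 := by
  set c : ℂ := Real.circleAverage (fun w => conj (PhiE a b w) * ((v w : ℝ) : ℂ)) 0 ρ' with hc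
  have hΦc : ContinuousOn (fun w => conj (PhiE a b w)) (sphere 0 |ρ'|) :=
    Complex.continuous_conj.comp_continuousOn (contOn_PhiE hρ' ha' hb')
  have inner : ∀ z : ℂ, Real.circleAverage
      (fun w => PhiE a b z * conj (PhiE a b w) * ((u z + v w : ℝ) : ℂ)) 0 ρ'
      = PhiE a b z * c := by
    intro z
    have e : (fun w => PhiE a b z * conj (PhiE a b w) * ((u z + v w : ℝ) : ℂ))
        = fun w => (PhiE a b z * ((u z : ℝ) : ℂ)) • conj (PhiE a b w)
          + PhiE a b z • (conj (PhiE a b w) * ((v w : ℝ) : ℂ)) := by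
      funext w
      simp only [smul_eq_mul]
      push_cast
      ring
    have i1 : CircleIntegrable (fun w => conj (PhiE a b w)) 0 ρ' := hΦc.circleIntegrable'
    have i2 : CircleIntegrable (fun w => conj (PhiE a b w) * ((v w : ℝ) : ℂ)) 0 ρ' :=
      (hΦc.mul (Complex.continuous_ofReal.comp_continuousOn hv)).circleIntegrable'
    have i3 : CircleIntegrable (fun w => (PhiE a b z * ((u z : ℝ) : ℂ)) • conj (PhiE a b w))
        0 ρ' := i1.const_smul
    have i4 : CircleIntegrable (fun w => PhiE a b z • (conj (PhiE a b w) * ((v w : ℝ) : ℂ)))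
        0 ρ' := i2.const_smul
    rw [e, Real.circleAverage_fun_add i3 i4,
      Real.circleAverage_fun_smul, Real.circleAverage_fun_smul, avg_conj]
    have h0 : Real.circleAverage (fun ζ => PhiE a b ζ) 0 ρ' = 0 := avg_PhiE_zero hρ' ha' hb'
    rw [h0, ← hc]
    simp
  unfold avg2
  simp_rw [inner]
  have e2 : (fun z => PhiE a b z * c) = fun z => c • PhiE a b z := by
    funext z; simp [mul_comm]
  have h0 : Real.circleAverage (fun ζ => PhiE a b ζ) 0 ρ = 0 := avg_PhiE_zero hρ ha hb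
  rw [e2, Real.circleAverage_fun_smul, h0, smul_zero]

theorem energy_even (hh : Gelfer h) (hL : Logs h Lp Lq) (ha : ‖a‖ < 1) (hb : ‖b‖ < 1) :
    0 ≤ 4 * ((Lp a b + Lq a b) - (Lp 0 a + Lq 0 a) - (Lp 0 b + Lq 0 b) + (Lp 0 0 + Lq 0 0)).re
      - 2 * Real.log (1 - ‖a‖ ^ 2) - 2 * Real.log (1 - ‖b‖ ^ 2) := by
  set r : ℝ := max ‖a‖ ‖b‖ with hr
  have har : ‖a‖ ≤ r := le_max_left _ _
  have hbr : ‖b‖ ≤ r := le_max_right _ _
  have hr1 : r < 1 := max_lt ha hb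
  have hr0 : 0 ≤ r := (norm_nonneg a).trans har
  have hF : BiHol (fun z w => -(Lp z w + Lq z w)) := by
    constructor
    · intro z hz w hw
      show -(Lp z w + Lq z w) = -(Lp w z + Lq w z)
      rw [hL.bp.symm z hz w hw, hL.bq.symm z hz w hw]
    · intro z hz
      exact ((hL.bp.diff z hz).add (hL.bq.diff z hz)).neg
  have hdisc : ∀ ρ, r < ρ → ρ < 1 → ContinuousOn h (sphere 0 ρ) := by
    intro ρ h1 h2
    apply hh.diff.continuousOn.mono
    intro z hz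
    have hz' : ‖z‖ = ρ := by simpa using hz
    simpa [hz'] using h2
  have key := energy_common (Φ := PhiE a b) (F := fun z w => -(Lp z w + Lq z w))
    (κ := fun τ z w => kE τ (h z) (h w))
    (κ0 := fun z w => (-1) * Real.log ‖h z + h w‖ + (-1) * Real.log ‖h z - h w‖) (r := r)
    (V := -4 * (-(Lp a b + Lq a b) - -(Lp 0 a + Lq 0 a) - -(Lp 0 b + Lq 0 b)
      + -(Lp 0 0 + Lq 0 0)).re)
    (L := fun ρ => -2 * Real.log (1 - ‖a‖ ^ 2 / ρ ^ 2)
        - 2 * Real.log (1 - ‖b‖ ^ 2 / ρ ^ 2)) hr0 hr1 ?_ ?_ (cont_logs hh (-1) (-1))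
        ?_ ?_ ?_ ?_ ?_ ?_ ?_ ?_ ?_
  · simp only [one_pow, div_one, Complex.add_re, Complex.sub_re, Complex.neg_re] at key
    simp only [Complex.add_re, Complex.sub_re]
    linarith
  · -- continuity of Φ
    unfold PhiE
    apply ContinuousOn.sub
    · exact contOn_PP' hbr
    · exact Complex.continuous_conj.comp_continuousOn (contOn_PP' har)
  · intro τ hτ
    exact cont_h2 hh (kE_cont hτ)
  · intro z w
    simp only [add_comm (h z) (h w), norm_sub_rev (h z) (h w)]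
  · intro z hz w hw hne
    rw [log_norm_ep hL hz hw, log_norm_eq hh hL hz hw hne, Complex.neg_re, Complex.add_re]
    ring
  · intro τ hτ R hR
    have hp := psd_circle (κ := kE' τ) (kE'_cont hτ) (fun n x c => kE'_psd x c hτ) R
      (g := h) (Φ := PhiE a b)
      (fun ρ hρ => lt_of_le_of_lt hr0 (hR ρ hρ).1)
      (fun ρ hρ => hdisc ρ (hR ρ hρ).1 (hR ρ hρ).2)
      (fun ρ hρ => by
        have hρ0 : 0 < ρ := lt_of_le_of_lt hr0 (hR ρ hρ).1
        have := contOn_PhiE (a := a) (b := b) hρ0 (lt_of_le_of_lt har (hR ρ hρ).1)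
          (lt_of_le_of_lt hbr (hR ρ hρ).1)
        rwa [abs_of_pos hρ0] at this)
    have he : ∀ ρ ∈ R, ∀ ρ' ∈ R,
        avg2 (fun z w => PhiE a b z * conj (PhiE a b w) * ((kE' τ (h z) (h w) : ℝ) : ℂ)) ρ ρ'
        = avg2 (fun z w => PhiE a b z * conj (PhiE a b w) * ((kE τ (h z) (h w) : ℝ) : ℂ)) ρ ρ' := by
      intro ρ hρ ρ' hρ'
      have hρ0 : 0 < ρ := lt_of_le_of_lt hr0 (hR ρ hρ).1
      have hρ0' : 0 < ρ' := lt_of_le_of_lt hr0 (hR ρ' hρ').1
      have haρ := lt_of_le_of_lt har (hR ρ hρ).1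
      have hbρ := lt_of_le_of_lt hbr (hR ρ hρ).1
      have haρ' := lt_of_le_of_lt har (hR ρ' hρ').1
      have hbρ' := lt_of_le_of_lt hbr (hR ρ' hρ').1
      have hc1 : ContinuousOn (PhiE a b) (sphere 0 ρ) := by
        have := contOn_PhiE (a := a) (b := b) hρ0 haρ hbρ
        rwa [abs_of_pos hρ0] at this
      have hc2 : ContinuousOn (PhiE a b) (sphere 0 ρ') := by
        have := contOn_PhiE (a := a) (b := b) hρ0' haρ' hbρ'
        rwa [abs_of_pos hρ0'] at this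
      have e1 : ContinuousOn (fun p : ℂ × ℂ => PhiE a b p.1) (sphere 0 ρ ×ˢ sphere 0 ρ') :=
        hc1.comp continuous_fst.continuousOn (fun p hp => hp.1)
      have e2 : ContinuousOn (fun p : ℂ × ℂ => PhiE a b p.2) (sphere 0 ρ ×ˢ sphere 0 ρ') :=
        hc2.comp continuous_snd.continuousOn (fun p hp => hp.2)
      have e3 : ContinuousOn (fun p : ℂ × ℂ => PhiE a b p.1 * conj (PhiE a b p.2))
          (sphere 0 ρ ×ˢ sphere 0 ρ') := e1.mul (Complex.continuous_conj.comp_continuousOn e2)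
      have hsub : sphere (0:ℂ) ρ ×ˢ sphere (0:ℂ) ρ' ⊆ ball 0 1 ×ˢ ball 0 1 := by
        rintro ⟨z, w⟩ ⟨hz, hw⟩
        have hz' : ‖z‖ = ρ := by simpa using hz
        have hw' : ‖w‖ = ρ' := by simpa using hw
        exact ⟨by simpa [hz'] using (hR ρ hρ).2, by simpa [hw'] using (hR ρ' hρ').2⟩
      have k1 := e3.mul (Complex.continuous_ofReal.comp_continuousOn
        ((cont_h2 hh (kE'_cont hτ)).mono hsub))
      have k2 := e3.mul (Complex.continuous_ofReal.comp_continuousOn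
        ((cont_h2 hh (kE_cont hτ)).mono hsub))
      have hs := LimitAux.avg2_sub
        (K := fun z w => PhiE a b z * conj (PhiE a b w) * ((kE' τ (h z) (h w) : ℝ) : ℂ))
        (K' := fun z w => PhiE a b z * conj (PhiE a b w) * ((kE τ (h z) (h w) : ℝ) : ℂ))
        hρ0.le hρ0'.le k1 k2
      have hx := avg2_extra (u := fun z => Real.log (‖h z‖ ^ 2 + τ) - Real.log τ)
        (v := fun w => Real.log (‖h w‖ ^ 2 + τ)) hρ0 hρ0' haρ hbρ haρ' hbρ' (by
          rw [abs_of_pos hρ0']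
          apply ContinuousOn.log
          · exact ((hdisc ρ' (hR ρ' hρ').1 (hR ρ' hρ').2).norm.pow 2).add continuousOn_const
          · intro w _
            positivity)
      have hf : (fun z w => PhiE a b z * conj (PhiE a b w) * ((kE' τ (h z) (h w) : ℝ) : ℂ)
          - PhiE a b z * conj (PhiE a b w) * ((kE τ (h z) (h w) : ℝ) : ℂ))
          = fun z w => PhiE a b z * conj (PhiE a b w) *
            ((Real.log (‖h z‖ ^ 2 + τ) - Real.log τ + Real.log (‖h w‖ ^ 2 + τ) : ℝ) : ℂ) := by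
        funext z w
        unfold kE'
        push_cast
        ring
      rw [hf] at hs
      rw [hx] at hs
      exact sub_eq_zero.mp hs
    rw [Finset.sum_congr rfl fun ρ hρ => Finset.sum_congr rfl fun ρ' hρ' => he ρ hρ ρ' hρ'] at hp
    exact hp
  · intro ρ1 hρ1
    obtain ⟨M, hM⟩ := kE_app hh hρ1
    refine ⟨M, fun τ hτ hτ1 z w hz hw hne => ?_⟩
    have := hM τ hτ hτ1 z w hz hw hne
    rw [show ((-1) * Real.log ‖h z + h w‖ + (-1) * Real.log ‖h z - h w‖) =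
      -Real.log ‖h z + h w‖ - Real.log ‖h z - h w‖ by ring]
    exact this
  · intro ρ1 hρ1
    exact kE_bd hh hρ1
  · intro ρ ρ' h1 h2 h3 h4
    exact avg2_re_PhiE hF (lt_of_le_of_lt hr0 h1) h2 (lt_of_le_of_lt hr0 h3) h4
      (lt_of_le_of_lt har h1) (lt_of_le_of_lt hbr h1) (lt_of_le_of_lt har h3)
      (lt_of_le_of_lt hbr h3)
  · intro ρ ρ' h1 h2
    exact avg2_log_PhiE (lt_of_le_of_lt hr0 h1) h2 (lt_of_le_of_lt har h1)
      (lt_of_le_of_lt hbr h1)
  · intro x hx y hy hxy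
    have h1 := antitone_log (norm_nonneg a) har hx hy hxy
    have h2 := antitone_log (norm_nonneg b) hbr hx hy hxy
    simp only at h1 h2 ⊢
    linarith
  · apply ContinuousAt.sub
    · exact continuousAt_const.mul (contAt_log (norm_nonneg a) ha)
    · exact continuousAt_const.mul (contAt_log (norm_nonneg b) hb)

end Pool.Agent.H99S
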