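import Pool.Agent.H99S.Defs

/-!
# Circle averages against the densities `PhiO`, `PhiE`

`PP a ζ = 2 * (ζ / (ζ - a)) - 1`, so `DiffContOnCl.circleAverage_smul_div` and
`DiffContOnCl.circleAverage` give `avg_mul_PP`.  On `|ζ| = ρ`, `conj ζ = ρ² / ζ`, so
`conj (PP a ζ) = (ρ² + conj a * ζ) / (ρ² - conj a * ζ)` is holomorphic near the closed disc with
value `1` at `0`; this gives `avg_mul_conj_PP`.  The others are linear combinations and conjugates.
-/

set_option autoImplicit false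

open Complex ComplexConjugate Metric Set

namespace Pool.Agent.H99S

variable {G : ℂ → ℂ} {ρ : ℝ} {a b C : ℂ}

theorem avg_conj (f : ℂ → ℂ) (c : ℂ) (R : ℝ) :
    Real.circleAverage (fun ζ => conj (f ζ)) c R = conj (Real.circleAverage f c R) := by
  unfold Real.circleAverage
  rw [intervalIntegral.integral_of_le Real.two_pi_pos.le,
    intervalIntegral.integral_of_le Real.two_pi_pos.le, integral_conj]
  simp only [Complex.real_smul, map_mul, Complex.conj_ofReal]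

theorem contOn_sphere (hρ : 0 < ρ) (hG : DiffContOnCl ℂ G (ball 0 ρ)) :
    ContinuousOn G (sphere 0 |ρ|) := by
  rw [abs_of_pos hρ]
  exact hG.continuousOn_ball.mono sphere_subset_closedBall

theorem sub_ne_of_sphere (hρ : 0 < ρ) (ha : ‖a‖ < ρ) {ζ : ℂ} (hζ : ζ ∈ sphere (0 : ℂ) |ρ|) :
    ζ - a ≠ 0 := by
  rw [abs_of_pos hρ] at hζ
  intro h
  have : ζ = a := sub_eq_zero.mp h
  have h2 : ‖ζ‖ = ρ := by simpa using hζ
  rw [this] at h2
  linarith

theorem contOn_PP (hρ : 0 < ρ) (ha : ‖a‖ < ρ) : ContinuousOn (PP a) (sphere 0 |ρ|) := by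
  unfold PP
  refine ContinuousOn.div (by fun_prop) (by fun_prop) ?_
  intro ζ hζ
  exact sub_ne_of_sphere hρ ha hζ

theorem contOn_PhiO (hρ : 0 < ρ) (ha : ‖a‖ < ρ) (hb : ‖b‖ < ρ) :
    ContinuousOn (PhiO C a b) (sphere 0 |ρ|) := by
  unfold PhiO
  exact (continuousOn_const.sub
    (Complex.continuous_conj.comp_continuousOn (contOn_PP hρ ha))).sub (contOn_PP hρ hb)

theorem contOn_PhiE (hρ : 0 < ρ) (ha : ‖a‖ < ρ) (hb : ‖b‖ < ρ) :
    ContinuousOn (PhiE a b) (sphere 0 |ρ|) := by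
  unfold PhiE
  exact (contOn_PP hρ hb).sub (Complex.continuous_conj.comp_continuousOn (contOn_PP hρ ha))

theorem avg_G (hρ : 0 < ρ) (hG : DiffContOnCl ℂ G (ball 0 ρ)) :
    Real.circleAverage G 0 ρ = G 0 := by
  apply DiffContOnCl.circleAverage
  rwa [abs_of_pos hρ]

theorem avg_mul_PP (hρ : 0 < ρ) (hG : DiffContOnCl ℂ G (ball 0 ρ)) (ha : ‖a‖ < ρ) :
    Real.circleAverage (fun ζ => G ζ * PP a ζ) 0 ρ = 2 * G a - G 0 := by
  have h1 : Real.circleAverage (fun ζ => G ζ * PP a ζ) 0 ρ =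
      Real.circleAverage (fun ζ => (2 : ℂ) • (((ζ - 0) / (ζ - a)) • G ζ) - G ζ) 0 ρ := by
    apply Real.circleAverage_congr_sphere
    intro ζ hζ
    have := sub_ne_of_sphere hρ ha hζ
    simp only [PP, smul_eq_mul]
    field_simp
    ring
  have hGc := contOn_sphere hρ hG
  rw [h1, Real.circleAverage_fun_sub, Real.circleAverage_fun_smul,
    DiffContOnCl.circleAverage_smul_div (by rwa [abs_of_pos hρ])
    (by rw [abs_of_pos hρ]; simpa using ha), avg_G hρ hG, smul_eq_mul]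
  · have i4 : ContinuousOn (fun ζ : ℂ => (ζ - 0) / (ζ - a)) (sphere 0 |ρ|) := by
      refine ContinuousOn.div (by fun_prop) (by fun_prop) ?_
      intro ζ hζ
      exact sub_ne_of_sphere hρ ha hζ
    exact ((i4.smul hGc).const_smul (2 : ℂ)).circleIntegrable'
  · exact hGc.circleIntegrable'

theorem den_ne (ha : ‖a‖ < ρ) {ζ : ℂ} (hζ : ‖ζ‖ ≤ ρ) : ((ρ : ℂ) ^ 2 - conj a * ζ) ≠ 0 := by
  intro h
  have h1 : (ρ : ℂ) ^ 2 = conj a * ζ := sub_eq_zero.mp h
  have h2 : ρ ^ 2 = ‖a‖ * ‖ζ‖ := by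
    have := congrArg norm h1
    simpa using this
  have h0 := norm_nonneg a
  have h0' := norm_nonneg ζ
  have hρ : 0 < ρ := lt_of_le_of_lt h0 ha
  nlinarith [mul_le_mul_of_nonneg_left hζ h0]

theorem avg_mul_conj_PP (hρ : 0 < ρ) (hG : DiffContOnCl ℂ G (ball 0 ρ)) (ha : ‖a‖ < ρ) :
    Real.circleAverage (fun ζ => G ζ * conj (PP a ζ)) 0 ρ = G 0 := by
  have hH : DiffContOnCl ℂ (fun ζ => G ζ * (((ρ : ℂ) ^ 2 + conj a * ζ) /
      ((ρ : ℂ) ^ 2 - conj a * ζ))) (ball 0 ρ) := by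
    have hH0 : DifferentiableOn ℂ (fun ζ : ℂ => ((ρ : ℂ) ^ 2 + conj a * ζ) /
      ((ρ : ℂ) ^ 2 - conj a * ζ)) (closedBall 0 ρ) := by
      refine DifferentiableOn.div (by fun_prop) (by fun_prop) ?_
      intro ζ hζ
      exact den_ne ha (by simpa using hζ)
    have hH1 : DiffContOnCl ℂ (fun ζ : ℂ => ((ρ : ℂ) ^ 2 + conj a * ζ) /
      ((ρ : ℂ) ^ 2 - conj a * ζ)) (ball 0 ρ) :=
      hH0.diffContOnCl_ball subset_rfl
    have := hG.smul hH1
    simpa [smul_eq_mul] using this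
  have h1 : Real.circleAverage (fun ζ => G ζ * conj (PP a ζ)) 0 ρ =
      Real.circleAverage (fun ζ => G ζ * (((ρ : ℂ) ^ 2 + conj a * ζ) /
      ((ρ : ℂ) ^ 2 - conj a * ζ))) 0 ρ := by
    apply Real.circleAverage_congr_sphere
    intro ζ hζ
    have hne := sub_ne_of_sphere hρ ha hζ
    rw [abs_of_pos hρ] at hζ
    have hn : ‖ζ‖ = ρ := by simpa using hζ
    have hζ0 : ζ ≠ 0 := by
      intro h; rw [h] at hn; simp at hn; linarith
    have hne2 := den_ne (a := a) ha hn.le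
    have hne3 : conj ζ - conj a ≠ 0 := by
      rw [← map_sub]
      exact (map_ne_zero _).mpr hne
    have hnn : ζ * conj ζ = (ρ : ℂ) ^ 2 := by
      rw [Complex.mul_conj, Complex.normSq_eq_norm_sq, hn]; push_cast; ring
    simp only [PP, map_div₀, map_add, map_sub]
    congr 1
    rw [div_eq_div_iff hne3 hne2, ← hnn]
    ring
  rw [h1, avg_G hρ hH]
  have : (ρ : ℂ) ≠ 0 := by exact_mod_cast hρ.ne'
  simp [this]

theorem avg_PhiO_mul (hρ : 0 < ρ) (hG : DiffContOnCl ℂ G (ball 0 ρ)) (ha : ‖a‖ < ρ)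
    (hb : ‖b‖ < ρ) :
    Real.circleAverage (fun ζ => PhiO C a b ζ * G ζ) 0 ρ = C * G 0 - 2 * G b := by
  have hGc := contOn_sphere hρ hG
  have h1 : (fun ζ => PhiO C a b ζ * G ζ) =
      fun ζ => (C • G ζ - G ζ * conj (PP a ζ)) - G ζ * PP b ζ := by
    funext ζ; simp only [PhiO, smul_eq_mul]; ring
  have i1 : CircleIntegrable (fun ζ => C • G ζ) 0 ρ :=
    (hGc.const_smul C).circleIntegrable'
  have i2 : CircleIntegrable (fun ζ => G ζ * conj (PP a ζ)) 0 ρ :=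
    (hGc.mul (Complex.continuous_conj.comp_continuousOn (contOn_PP hρ ha))).circleIntegrable'
  have i3 : CircleIntegrable (fun ζ => G ζ * PP b ζ) 0 ρ :=
    (hGc.mul (contOn_PP hρ hb)).circleIntegrable'
  have i12 : CircleIntegrable (fun ζ => C • G ζ - G ζ * conj (PP a ζ)) 0 ρ := i1.sub i2
  rw [h1, Real.circleAverage_fun_sub i12 i3, Real.circleAverage_fun_sub i1 i2,
    Real.circleAverage_fun_smul, avg_G hρ hG, avg_mul_conj_PP hρ hG ha, avg_mul_PP hρ hG hb,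
    smul_eq_mul]
  ring

theorem avg_PhiO_mul_conj (hρ : 0 < ρ) (hG : DiffContOnCl ℂ G (ball 0 ρ)) (ha : ‖a‖ < ρ)
    (hb : ‖b‖ < ρ) :
    Real.circleAverage (fun ζ => PhiO C a b ζ * conj (G ζ)) 0 ρ =
      C * conj (G 0) - 2 * conj (G a) := by
  have hGc := contOn_sphere hρ hG
  have h1 : (fun ζ => PhiO C a b ζ * conj (G ζ)) =
      fun ζ => conj ((conj C • G ζ - G ζ * PP a ζ) - G ζ * conj (PP b ζ)) := by
    funext ζ
    simp only [PhiO, smul_eq_mul, map_sub, map_mul, Complex.conj_conj]; ring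
  have i1 : CircleIntegrable (fun ζ => conj C • G ζ) 0 ρ :=
    (hGc.const_smul (conj C)).circleIntegrable'
  have i2 : CircleIntegrable (fun ζ => G ζ * conj (PP b ζ)) 0 ρ :=
    (hGc.mul (Complex.continuous_conj.comp_continuousOn (contOn_PP hρ hb))).circleIntegrable'
  have i3 : CircleIntegrable (fun ζ => G ζ * PP a ζ) 0 ρ :=
    (hGc.mul (contOn_PP hρ ha)).circleIntegrable'
  have i13 : CircleIntegrable (fun ζ => conj C • G ζ - G ζ * PP a ζ) 0 ρ := i1.sub i3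
  rw [h1, avg_conj, Real.circleAverage_fun_sub i13 i2, Real.circleAverage_fun_sub i1 i3,
    Real.circleAverage_fun_smul, avg_G hρ hG, avg_mul_conj_PP hρ hG hb, avg_mul_PP hρ hG ha,
    smul_eq_mul]
  simp only [map_sub, map_mul, Complex.conj_conj, map_ofNat]
  ring

theorem avg_mul_re {Φ : ℂ → ℂ} (hρ : 0 < ρ) (hG : DiffContOnCl ℂ G (ball 0 ρ))
    (hΦ : ContinuousOn Φ (sphere 0 |ρ|)) :
    Real.circleAverage (fun ζ => conj (Φ ζ) * ((G ζ).re : ℂ)) 0 ρ =
      (conj (Real.circleAverage (fun ζ => Φ ζ * conj (G ζ)) 0 ρ) +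
        conj (Real.circleAverage (fun ζ => Φ ζ * G ζ) 0 ρ)) / 2 := by
  have hGc := contOn_sphere hρ hG
  have hΦc : ContinuousOn (fun ζ => conj (Φ ζ)) (sphere 0 |ρ|) :=
    Complex.continuous_conj.comp_continuousOn hΦ
  have hGcc : ContinuousOn (fun ζ => conj (G ζ)) (sphere 0 |ρ|) :=
    Complex.continuous_conj.comp_continuousOn hGc
  have h1 : (fun ζ => conj (Φ ζ) * ((G ζ).re : ℂ)) =
      fun ζ => (1 / 2 : ℂ) • (conj (Φ ζ * conj (G ζ)) + conj (Φ ζ * G ζ)) := by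
    funext ζ
    rw [Complex.re_eq_add_conj]
    simp only [smul_eq_mul, map_mul, Complex.conj_conj]; ring
  have i1 : CircleIntegrable (fun ζ => conj (Φ ζ * conj (G ζ))) 0 ρ :=
    (Complex.continuous_conj.comp_continuousOn (hΦ.mul hGcc)).circleIntegrable'
  have i2 : CircleIntegrable (fun ζ => conj (Φ ζ * G ζ)) 0 ρ :=
    (Complex.continuous_conj.comp_continuousOn (hΦ.mul hGc)).circleIntegrable'
  rw [h1, Real.circleAverage_fun_smul, Real.circleAverage_fun_add i1 i2, avg_conj, avg_conj,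
    smul_eq_mul]
  ring

theorem avg_conj_PhiO_mul_re (hρ : 0 < ρ) (hG : DiffContOnCl ℂ G (ball 0 ρ)) (ha : ‖a‖ < ρ)
    (hb : ‖b‖ < ρ) :
    Real.circleAverage (fun ζ => conj (PhiO C a b ζ) * ((G ζ).re : ℂ)) 0 ρ =
      conj C * ((G 0).re : ℂ) - G a - conj (G b) := by
  rw [avg_mul_re hρ hG (contOn_PhiO hρ ha hb), avg_PhiO_mul hρ hG ha hb,
    avg_PhiO_mul_conj hρ hG ha hb, Complex.re_eq_add_conj]
  simp only [map_sub, map_mul, Complex.conj_conj, map_ofNat]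
  ring

theorem avg_PhiE_mul (hρ : 0 < ρ) (hG : DiffContOnCl ℂ G (ball 0 ρ)) (ha : ‖a‖ < ρ)
    (hb : ‖b‖ < ρ) :
    Real.circleAverage (fun ζ => PhiE a b ζ * G ζ) 0 ρ = 2 * (G b - G 0) := by
  have hGc := contOn_sphere hρ hG
  have h1 : (fun ζ => PhiE a b ζ * G ζ) =
      fun ζ => G ζ * PP b ζ - G ζ * conj (PP a ζ) := by
    funext ζ; simp only [PhiE]; ring
  have i2 : CircleIntegrable (fun ζ => G ζ * conj (PP a ζ)) 0 ρ :=
    (hGc.mul (Complex.continuous_conj.comp_continuousOn (contOn_PP hρ ha))).circleIntegrable'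
  have i3 : CircleIntegrable (fun ζ => G ζ * PP b ζ) 0 ρ :=
    (hGc.mul (contOn_PP hρ hb)).circleIntegrable'
  rw [h1, Real.circleAverage_fun_sub i3 i2, avg_mul_conj_PP hρ hG ha, avg_mul_PP hρ hG hb]
  ring

theorem avg_PhiE_mul_conj (hρ : 0 < ρ) (hG : DiffContOnCl ℂ G (ball 0 ρ)) (ha : ‖a‖ < ρ)
    (hb : ‖b‖ < ρ) :
    Real.circleAverage (fun ζ => PhiE a b ζ * conj (G ζ)) 0 ρ = -2 * conj (G a - G 0) := by
  have hGc := contOn_sphere hρ hG
  have h1 : (fun ζ => PhiE a b ζ * conj (G ζ)) =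
      fun ζ => conj (G ζ * conj (PP b ζ) - G ζ * PP a ζ) := by
    funext ζ
    simp only [PhiE, map_sub, map_mul, Complex.conj_conj]; ring
  have i2 : CircleIntegrable (fun ζ => G ζ * conj (PP b ζ)) 0 ρ :=
    (hGc.mul (Complex.continuous_conj.comp_continuousOn (contOn_PP hρ hb))).circleIntegrable'
  have i3 : CircleIntegrable (fun ζ => G ζ * PP a ζ) 0 ρ :=
    (hGc.mul (contOn_PP hρ ha)).circleIntegrable'
  rw [h1, avg_conj, Real.circleAverage_fun_sub i2 i3, avg_mul_conj_PP hρ hG hb,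
    avg_mul_PP hρ hG ha]
  simp only [map_sub, map_mul, map_ofNat]
  ring

theorem avg_conj_PhiE_mul_re (hρ : 0 < ρ) (hG : DiffContOnCl ℂ G (ball 0 ρ)) (ha : ‖a‖ < ρ)
    (hb : ‖b‖ < ρ) :
    Real.circleAverage (fun ζ => conj (PhiE a b ζ) * ((G ζ).re : ℂ)) 0 ρ =
      conj (G b - G 0) - (G a - G 0) := by
  rw [avg_mul_re hρ hG (contOn_PhiE hρ ha hb), avg_PhiE_mul hρ hG ha hb,
    avg_PhiE_mul_conj hρ hG ha hb]
  simp only [map_sub, map_mul, Complex.conj_conj, map_ofNat, map_neg]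
  ring

end Pool.Agent.H99S
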