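import Pool.Agent.H99S.GreenLevel

/-!
# Level sets of the Green's function of the slit plane

`green_level` with `D = slitPlane`, `φ z = (√z - √a) / (√z + √a)` (`√z = z ^ (1/2)`, principal
branch, real part positive on `slitPlane`), `ψ u = a * ((1 + u) / (1 - u)) ^ 2`.  For
`h = √z`, `s = √a`: `‖h - s‖² / ‖h + s‖² < e^{-2 lam}` is equivalent to
`tanh lam * (‖h‖² + s²) < 2 s Re h`, and `Re h = √‖z‖ cos (arg z / 2)`.
-/

set_option autoImplicit false

open Complex ComplexConjugate Metric Set Filter Topology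

namespace Pool.Agent.H99S

open Pool.Agent.H99.Circ

/-- The principal square root. -/
noncomputable def srt (z : ℂ) : ℂ := exp (log z / 2)

theorem srt_sq {z : ℂ} (hz : z ≠ 0) : srt z ^ 2 = z := by
  unfold srt
  rw [← exp_nat_mul]
  have : ((2 : ℕ) : ℂ) * (log z / 2) = log z := by push_cast; ring
  rw [this, exp_log hz]

theorem srt_re {z : ℂ} (hz : z ≠ 0) : (srt z).re = Real.sqrt ‖z‖ * Real.cos (arg z / 2) := by
  unfold srt
  have h1 : (log z / 2).re = Real.log ‖z‖ / 2 := by
    rw [show (2 : ℂ) = ((2 : ℝ) : ℂ) by norm_num, div_ofReal_re, log_re]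
  have h2 : (log z / 2).im = arg z / 2 := by
    rw [show (2 : ℂ) = ((2 : ℝ) : ℂ) by norm_num, div_ofReal_im, log_im]
  rw [exp_re, h1, h2, Real.sqrt_eq_rpow, Real.rpow_def_of_pos (norm_pos_iff.2 hz)]
  congr 2
  ring

theorem srt_re_pos {z : ℂ} (hz : z ∈ slitPlane) : 0 < (srt z).re := by
  have h0 : z ≠ 0 := slitPlane_ne_zero hz
  rw [srt_re h0]
  apply mul_pos (Real.sqrt_pos.2 (norm_pos_iff.2 h0))
  have h1 : arg z ≠ Real.pi := (mem_slitPlane_iff_arg.1 hz).1
  have h2 : arg z < Real.pi := lt_of_le_of_ne (arg_le_pi z) h1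
  have h3 : -Real.pi < arg z := neg_pi_lt_arg z
  exact Real.cos_pos_of_mem_Ioo ⟨by linarith, by linarith⟩

theorem eq_of_sq_eq_of_re_pos {x y : ℂ} (hx : 0 < x.re) (hy : 0 < y.re) (h : x ^ 2 = y ^ 2) :
    x = y := by
  rcases sq_eq_sq_iff_eq_or_eq_neg.1 h with h | h
  · exact h
  · rw [h, neg_re] at hx
    linarith

theorem normSq_sub_lt {h : ℂ} {s : ℝ} (hs : 0 < s) (hh : 0 < h.re) : ‖h - s‖ < ‖h + s‖ := by
  have h1 : normSq (h - s) < normSq (h + s) := by
    rw [normSq_apply, normSq_apply]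
    simp only [sub_re, add_re, sub_im, add_im, ofReal_re, ofReal_im, sub_zero, add_zero]
    nlinarith
  rw [normSq_eq_norm_sq, normSq_eq_norm_sq] at h1
  exact lt_of_pow_lt_pow_left₀ 2 (norm_nonneg _) h1

theorem sq_mem_slitPlane {w : ℂ} (hw : 0 < w.re) : w ^ 2 ∈ slitPlane := by
  rw [mem_slitPlane_iff]
  have h1 : (w ^ 2).re = w.re * w.re - w.im * w.im := by rw [sq, mul_re]
  have h2 : (w ^ 2).im = w.re * w.im + w.im * w.re := by rw [sq, mul_im]
  rw [h1, h2]
  by_cases h : w.im = 0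
  · left; rw [h]; nlinarith
  · right
    intro h3
    have : w.re * w.im = 0 := by linarith
    rcases mul_eq_zero.1 this with h4 | h4
    · exact hw.ne' h4
    · exact h h4

theorem slit_level {a : ℝ} (ha : 0 < a) {g : ℂ → ℝ} (hg : IsGreen slitPlane a g) {lam : ℝ}
    (hlam : 0 < lam) :
    level slitPlane a g lam = {z | z ∈ slitPlane ∧
      Real.tanh lam * (‖z‖ + a) < 2 * Real.sqrt a * (Real.sqrt ‖z‖ * Real.cos (arg z / 2))} := by
  set s : ℝ := Real.sqrt a with hs
  have hs0 : 0 < s := Real.sqrt_pos.2 ha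
  have hsa : s ^ 2 = a := Real.sq_sqrt ha.le
  have hsC : (s : ℂ) ≠ 0 := by exact_mod_cast hs0.ne'
  have hsaC : (s : ℂ) ^ 2 = a := by rw [← ofReal_pow, hsa]
  set φ : ℂ → ℂ := fun z => (srt z - s) / (srt z + s) with hφd
  set ψ : ℂ → ℂ := fun u => (s * ((1 + u) / (1 - u))) ^ 2 with hψd
  have hden : ∀ z ∈ slitPlane, srt z + s ≠ 0 := by
    intro z hz h
    have h1 := congrArg re h
    simp only [add_re, ofReal_re, zero_re] at h1
    linarith [srt_re_pos hz]
  have hone : ∀ u ∈ ball (0 : ℂ) 1, (1 : ℂ) - u ≠ 0 := by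
    intro u hu h
    have h1 : u = 1 := (sub_eq_zero.1 h).symm
    rw [h1, mem_ball_zero_iff, norm_one] at hu
    exact lt_irrefl _ hu
  have hrepos : ∀ u ∈ ball (0 : ℂ) 1, 0 < (s * ((1 + u) / (1 - u)) : ℂ).re := by
    intro u hu
    rw [re_ofReal_mul]
    apply mul_pos hs0
    rw [div_re]
    have h1 : 0 < normSq (1 - u) := normSq_pos.2 (hone u hu)
    have h2 : normSq u < 1 := by
      rw [normSq_eq_norm_sq]
      have := mem_ball_zero_iff.1 hu
      have h3 := norm_nonneg u
      nlinarith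
    rw [← add_div]
    apply div_pos _ h1
    simp only [add_re, sub_re, one_re, add_im, sub_im, one_im]
    rw [normSq_apply] at h2
    nlinarith
  have hφdiff : DifferentiableOn ℂ φ slitPlane := by
    have h1 : DifferentiableOn ℂ srt slitPlane := fun z hz =>
      (((differentiableAt_id.clog hz).div_const 2).cexp).differentiableWithinAt
    exact (h1.sub_const _).div (h1.add_const _) hden
  have hψdiff : DifferentiableOn ℂ ψ (ball 0 1) := by
    have h1 : DifferentiableOn ℂ (fun u : ℂ => 1 + u) (ball 0 1) :=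
      (differentiableOn_const _).add differentiableOn_id
    have h2 : DifferentiableOn ℂ (fun u : ℂ => 1 - u) (ball 0 1) :=
      (differentiableOn_const _).sub differentiableOn_id
    exact ((h1.div h2 hone).const_mul _).pow 2
  have hψm : MapsTo ψ (ball 0 1) slitPlane := fun u hu => sq_mem_slitPlane (hrepos u hu)
  have hφm : MapsTo φ slitPlane (ball 0 1) := by
    intro z hz
    rw [mem_ball_zero_iff]
    show ‖(srt z - s) / (srt z + s)‖ < 1
    rw [norm_div, div_lt_one (norm_pos_iff.2 (hden z hz))]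
    exact normSq_sub_lt hs0 (srt_re_pos hz)
  have hφψ : ∀ u ∈ ball (0 : ℂ) 1, φ (ψ u) = u := by
    intro u hu
    have hm := hψm hu
    have h1 : srt (ψ u) = s * ((1 + u) / (1 - u)) :=
      eq_of_sq_eq_of_re_pos (srt_re_pos hm) (hrepos u hu) (srt_sq (slitPlane_ne_zero hm))
    have h2 := hden _ hm
    show (srt (ψ u) - s) / (srt (ψ u) + s) = u
    rw [div_eq_iff h2, h1]
    have h3 := hone u hu
    field_simp
    ring
  have hψφ : ∀ z ∈ slitPlane, ψ (φ z) = z := by
    intro z hz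
    have h2 := hden z hz
    have h3 : 1 - φ z ≠ 0 := hone _ (hφm hz)
    have h4 : (1 + φ z) / (1 - φ z) = srt z / s := by
      rw [div_eq_div_iff h3 hsC]
      show (1 + (srt z - s) / (srt z + s)) * s = srt z * (1 - (srt z - s) / (srt z + s))
      field_simp
      ring
    show (s * ((1 + φ z) / (1 - φ z))) ^ 2 = z
    rw [h4, mul_div_cancel₀ _ hsC, srt_sq (slitPlane_ne_zero hz)]
  have hψ0 : ψ 0 = a := by
    show (s * ((1 + 0) / (1 - 0)) : ℂ) ^ 2 = a
    rw [← hsaC]; ring
  have hlev := green_level isOpen_slitPlane hψdiff hφdiff hψm hφm hφψ hψφ hψ0 hg hlam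
  rw [hlev]
  have hexp : Real.exp (-lam) < 1 := by rw [Real.exp_lt_one_iff]; linarith
  -- the equivalence of the inequalities
  have hiff : ∀ z ∈ slitPlane, (‖φ z‖ < Real.exp (-lam) ↔
      Real.tanh lam * (‖z‖ + a) < 2 * s * (Real.sqrt ‖z‖ * Real.cos (arg z / 2))) := by
    intro z hz
    have hz0 := slitPlane_ne_zero hz
    rw [← srt_re hz0]
    set h := srt z with hh
    have hnz : ‖z‖ = normSq h := by
      rw [normSq_eq_norm_sq, ← norm_pow, srt_sq hz0]
    have h1 : ‖φ z‖ < Real.exp (-lam) ↔ ‖h - s‖ < Real.exp (-lam) * ‖h + s‖ := by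
      show ‖(h - s) / (h + s)‖ < _ ↔ _
      rw [norm_div, div_lt_iff₀ (norm_pos_iff.2 (hden z hz))]
    have h2 : ‖h - s‖ < Real.exp (-lam) * ‖h + s‖ ↔
        ‖h - s‖ ^ 2 < (Real.exp (-lam) * ‖h + s‖) ^ 2 := by
      constructor
      · intro h3
        exact pow_lt_pow_left₀ h3 (norm_nonneg _) two_ne_zero
      · intro h3
        exact lt_of_pow_lt_pow_left₀ 2 (by positivity) h3
    rw [h1, h2, mul_pow, ← normSq_eq_norm_sq, ← normSq_eq_norm_sq]
    have h5 : normSq (h - s) = normSq h + a - 2 * s * h.re := by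
      rw [normSq_apply, normSq_apply]
      simp only [sub_re, sub_im, ofReal_re, ofReal_im, sub_zero]
      rw [← hsa]; ring
    have h6 : normSq (h + s) = normSq h + a + 2 * s * h.re := by
      rw [normSq_apply, normSq_apply]
      simp only [add_re, add_im, ofReal_re, ofReal_im, add_zero]
      rw [← hsa]; ring
    rw [h5, h6, hnz]
    set N := normSq h + a
    set T := 2 * s * h.re
    have h7 : Real.tanh lam = (1 - Real.exp (-lam) ^ 2) / (1 + Real.exp (-lam) ^ 2) := by
      rw [Real.tanh_eq_sinh_div_cosh, Real.sinh_eq, Real.cosh_eq]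
      have h8 : Real.exp lam * Real.exp (-lam) = 1 := by
        rw [← Real.exp_add, add_neg_cancel, Real.exp_zero]
      have h9 : 0 < Real.exp lam := Real.exp_pos _
      have h10 : 0 < Real.exp (-lam) := Real.exp_pos _
      rw [div_eq_div_iff (by positivity) (by positivity)]
      have h11 : Real.exp (-lam) = (Real.exp lam)⁻¹ := Real.exp_neg lam
      rw [h11]
      field_simp
    rw [h7, div_mul_eq_mul_div, div_lt_iff₀ (by positivity)]
    constructor <;> intro h12 <;> nlinarith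
  ext z
  constructor
  · rintro ⟨u, hu, rfl⟩
    have hub : u ∈ ball (0 : ℂ) 1 := ball_subset_ball hexp.le hu
    have hm := hψm hub
    refine ⟨hm, (hiff _ hm).1 ?_⟩
    rw [hφψ u hub]
    exact mem_ball_zero_iff.1 hu
  · rintro ⟨hz, hlt⟩
    exact ⟨φ z, mem_ball_zero_iff.2 ((hiff z hz).2 hlt), hψφ z hz⟩

end Pool.Agent.H99S
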