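import Pool.Agent.H99S.Defs

/-!
# Square roots of injective nonvanishing functions

A nonvanishing holomorphic function on the disc has a holomorphic square root `h`; if `ψ` is
injective then so is `h`, and `h z = -h w` would give `ψ z = ψ w`, `z = w`, `h z = 0`.
-/

set_option autoImplicit false

open Complex ComplexConjugate Metric Set Filter Topology

namespace Pool.Agent.H99S

/-- A nonvanishing holomorphic function on the unit disc has a logarithm with a prescribed value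
at the origin. -/
theorem exists_log_disc {ψ : ℂ → ℂ} (hψ : DifferentiableOn ℂ ψ (ball 0 1))
    (h0 : ∀ z ∈ ball (0 : ℂ) 1, ψ z ≠ 0) (c : ℂ) (hc : exp c = ψ 0) :
    ∃ F : ℂ → ℂ, DifferentiableOn ℂ F (ball 0 1) ∧ F 0 = c ∧
      ∀ z ∈ ball (0 : ℂ) 1, exp (F z) = ψ z := by
  have hg : DifferentiableOn ℂ (fun z => deriv ψ z / ψ z) (ball 0 1) :=
    (hψ.deriv isOpen_ball).div hψ h0
  obtain ⟨F, hF0, hF⟩ := hg.isExactOn_ball.with_val_at 0 c
  have hFd : DifferentiableOn ℂ F (ball 0 1) := fun z hz =>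
    (hF z hz).differentiableAt.differentiableWithinAt
  refine ⟨F, hFd, hF0, ?_⟩
  have hG : ∀ z ∈ ball (0 : ℂ) 1, HasDerivAt (fun w => ψ w * exp (-F w)) 0 z := by
    intro z hz
    have h1 : HasDerivAt ψ (deriv ψ z) z :=
      (hψ.differentiableAt (isOpen_ball.mem_nhds hz)).hasDerivAt
    have h2 : HasDerivAt (fun w => exp (-F w)) (exp (-F z) * -(deriv ψ z / ψ z)) z :=
      ((hF z hz).neg).cexp
    have h3 := h1.mul h2
    have h4 : deriv ψ z * exp (-F z) + ψ z * (exp (-F z) * -(deriv ψ z / ψ z)) = 0 := by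
      have := h0 z hz
      field_simp
      ring
    rw [h4] at h3
    exact h3
  have hconst : ∀ z ∈ ball (0 : ℂ) 1, ψ z * exp (-F z) = ψ 0 * exp (-F 0) := by
    intro z hz
    have := (convex_ball (0 : ℂ) 1).is_const_of_fderivWithin_eq_zero (𝕜 := ℂ)
      (f := fun w => ψ w * exp (-F w))
      (fun w hw => (hG w hw).differentiableAt.differentiableWithinAt)
      (fun w hw => by
        rw [fderivWithin_eq_fderiv (isOpen_ball.uniqueDiffWithinAt hw) (hG w hw).differentiableAt]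
        have := (hG w hw).hasFDerivAt.fderiv
        rw [this]
        ext
        simp) hz (mem_ball_self one_pos)
    exact this
  intro z hz
  have h1 := hconst z hz
  rw [hF0, ← hc, ← exp_add, add_neg_cancel, exp_zero] at h1
  have h2 : exp (F z) * exp (-F z) = 1 := by rw [← exp_add, add_neg_cancel, exp_zero]
  have h3 : exp (-F z) ≠ 0 := exp_ne_zero _
  exact mul_right_cancel₀ h3 (h2.trans h1.symm)

theorem exists_gelfer {ψ : ℂ → ℂ} (hψ : DifferentiableOn ℂ ψ (ball 0 1))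
    (hinj : InjOn ψ (ball 0 1)) (h0 : ∀ z ∈ ball (0 : ℂ) 1, ψ z ≠ 0) {a : ℝ} (ha : 0 < a)
    (hψ0 : ψ 0 = a) :
    ∃ h : ℂ → ℂ, Gelfer h ∧ (∀ z ∈ ball (0 : ℂ) 1, h z ^ 2 = ψ z) ∧ h 0 = (Real.sqrt a : ℝ) := by
  obtain ⟨F, hF, hF0, hFe⟩ := exists_log_disc hψ h0 (Real.log a : ℝ)
    (by rw [hψ0, ← ofReal_exp, Real.exp_log ha])
  have hsq : ∀ z ∈ ball (0 : ℂ) 1, exp (F z / 2) ^ 2 = ψ z := by
    intro z hz
    rw [← exp_nat_mul, ← hFe z hz]
    congr 1
    push_cast
    ring
  refine ⟨fun z => exp (F z / 2), ⟨?_, ?_, ?_⟩, hsq, ?_⟩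
  · exact (hF.div_const 2).cexp
  · intro z hz w hw hzw
    apply hinj hz hw
    rw [← hsq z hz, ← hsq w hw]
    exact congrArg (· ^ 2) hzw
  · intro z hz w hw hzw
    have h1 : exp (F z / 2) = -exp (F w / 2) := eq_neg_of_add_eq_zero_left hzw
    have h2 : ψ z = ψ w := by
      rw [← hsq z hz, ← hsq w hw, h1]; ring
    have h3 : z = w := hinj hz hw h2
    rw [h3] at h1
    have h4 : exp (F w / 2) = 0 := self_eq_neg.1 h1
    exact exp_ne_zero _ h4
  · show exp (F 0 / 2) = _
    rw [hF0, Real.sqrt_eq_rpow, Real.rpow_def_of_pos ha]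
    rw [← ofReal_ofNat, ← ofReal_div, ← ofReal_exp]
    congr 2
    ring

end Pool.Agent.H99S
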