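import Pool.Agent.H99S.Section
import Pool.Agent.H99S.Rmt
import Pool.Agent.H99S.Sqrt
import Pool.Agent.H99S.SlitLevel

/-!
# The inclusion for simply connected domains not containing the origin
-/

set_option autoImplicit false

open Complex ComplexConjugate Metric Set Filter Topology

namespace Pool.Agent.H99S

open Pool.Agent.H99.Circ

theorem angLen_univ {E : Set ℂ} {r : ℝ} (hr : 0 ≤ r) (h : ∀ w : ℂ, ‖w‖ = r → w ∈ E) :
    angLen E r = 2 * Real.pi := by
  unfold angLen
  have e : {θ : ℝ | -Real.pi < θ ∧ θ ≤ Real.pi ∧ (r : ℂ) * Complex.exp (θ * Complex.I) ∈ E}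
      = Ioc (-Real.pi) Real.pi := by
    ext θ
    simp only [mem_setOf_eq, mem_Ioc]
    constructor
    · rintro ⟨h1, h2, -⟩
      exact ⟨h1, h2⟩
    · rintro ⟨h1, h2⟩
      refine ⟨h1, h2, h _ ?_⟩
      rw [norm_mul, Complex.norm_exp_ofReal_mul_I, mul_one, Complex.norm_real,
        Real.norm_of_nonneg hr]
  rw [e, Real.volume_Ioc, ENNReal.toReal_ofReal (by linarith [Real.pi_pos])]
  ring

theorem main {D : Set ℂ} (hD : IsOpen D) (hsc : IsSimplyConnected D) (h0 : (0 : ℂ) ∉ D) {a : ℝ}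
    (ha : 0 < a) (haD : (a : ℂ) ∈ D) {g gs : ℂ → ℝ} (hg : IsGreen D a g)
    (hgs : IsGreen slitPlane a gs) {lam : ℝ} (hlam : 0 < lam) :
    circSym (level D a g lam) ⊆ level slitPlane a gs lam := by
  have hne : D ≠ univ := fun e => h0 (e ▸ mem_univ _)
  obtain ⟨ψ, φ, hψ, hφ, hψm, hφm, hφψ, hψφ, hψ0⟩ := riemann_sc hD hsc hne haD
  have hinj : InjOn ψ (ball 0 1) := fun x hx y hy e => by
    rw [← hφψ x hx, ← hφψ y hy, e]
  have hnz : ∀ z ∈ ball (0 : ℂ) 1, ψ z ≠ 0 := fun z hz e => h0 (e ▸ hψm hz)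
  obtain ⟨h, hh, hsq, hh0⟩ := exists_gelfer hψ hinj hnz ha hψ0
  have hE : level D a g lam = (fun z => h z ^ 2) '' ball 0 (Real.exp (-lam)) := by
    rw [green_level hD hψ hφ hψm hφm hφψ hψφ hψ0 hg hlam]
    apply image_congr
    intro z hz
    have hz1 : z ∈ ball (0 : ℂ) 1 :=
      ball_subset_ball (Real.exp_le_one_iff.mpr (by linarith)) hz
    exact (hsq z hz1).symm
  have hsub : level D a g lam ⊆ D := fun z hz => hz.1
  set s : ℝ := Real.sqrt a with hs
  have hs0 : 0 < s := Real.sqrt_pos.mpr ha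
  have hs2 : s ^ 2 = a := Real.sq_sqrt ha.le
  intro z hz
  have hz0 : z ≠ 0 := by
    rcases hz with h1 | h2
    · rintro rfl
      exact h0 (hsub (h1 0 rfl))
    · exact h2.2.1
  have hr : 0 < ‖z‖ := norm_pos_iff.mpr hz0
  have hsr : 0 < Real.sqrt ‖z‖ := Real.sqrt_pos.mpr hr
  set c : ℝ := (‖z‖ + s ^ 2) / (2 * Real.sqrt ‖z‖ * s) * Real.tanh lam with hc
  have hc0 : 0 < c := by
    have := tanh_pos' hlam
    positivity
  have hb : angLen (level D a g lam) ‖z‖ ≤ 4 * Real.arccos c := by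
    rw [hE]
    exact section_bound hh hs0 hh0 hlam hr
  have hac : Real.arccos c < Real.pi / 2 := Real.arccos_lt_pi_div_two.mpr hc0
  rcases hz with h1 | ⟨⟨w, hw, hwz⟩, -, harg⟩
  · exfalso
    rw [angLen_univ hr.le h1] at hb
    linarith
  · have hc1 : c < 1 := by
      rw [hE] at hw
      obtain ⟨ζ, hζ, hζw⟩ := hw
      have hn : ‖h ζ‖ = Real.sqrt ‖z‖ := by
        rw [← hwz, ← hζw]
        show ‖h ζ‖ = Real.sqrt ‖h ζ ^ 2‖
        rw [norm_pow, Real.sqrt_sq (norm_nonneg _)]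
      exact section_point hh hs0 hh0 hlam hr hζ hn
    have harg2 : |arg z| / 2 < Real.arccos c := by linarith
    have hcos : c < Real.cos (arg z / 2) := by
      have h3 : Real.cos (Real.arccos c) < Real.cos (|arg z| / 2) := by
        apply Real.cos_lt_cos_of_nonneg_of_le_pi (by positivity) (Real.arccos_le_pi c) harg2
      rw [Real.cos_arccos (by linarith) hc1.le] at h3
      have h4 : Real.cos (|arg z| / 2) = Real.cos (arg z / 2) := by
        rw [← Real.cos_abs (arg z / 2), abs_div, abs_two]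
      rwa [h4] at h3
    rw [slit_level ha hgs hlam]
    refine ⟨?_, ?_⟩
    · rw [mem_slitPlane_iff_arg]
      refine ⟨fun e => ?_, hz0⟩
      rw [e, abs_of_pos Real.pi_pos] at harg2
      linarith
    · rw [hc, hs2, div_mul_eq_mul_div, div_lt_iff₀ (by positivity)] at hcos
      rw [← hs]
      linarith

theorem result (D : Set ℂ) (hD : IsOpen D) (hsc : IsSimplyConnected D)
    (hsym : circSym D = slitPlane) (a : ℝ) (ha : 0 < a) (haD : (a : ℂ) ∈ D) (g gs : ℂ → ℝ)
    (hg : IsGreen D a g) (hgs : IsGreen (circSym D) a gs) (lam : ℝ) (hlam : 0 < lam) :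
    circSym (level D a g lam) ⊆ level (circSym D) a gs lam := by
  have h0 : (0 : ℂ) ∉ D := by
    intro h
    have : (0 : ℂ) ∈ circSym D := Or.inl fun w hw => by
      have : w = 0 := by simpa using hw
      rwa [this]
    rw [hsym] at this
    exact zero_notMem_slitPlane this
  rw [hsym] at hgs ⊢
  exact main hD hsc h0 ha haD hg hgs hlam

end Pool.Agent.H99S
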