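import Pool.Agent.H99S.Defs

/-!
# Sets on the circle that stay away from their antipodes

`A` is `2π`-periodic and for `p q ∈ A`, `|cos ((p - q) / 2)| ≥ c`; i.e. `A` and `A + π` are at
distance `≥ δ = 2 arcsin c` modulo `2π`.  Then the measure of `A` in a period is at most
`π - δ = 2 arccos c`.

Proof.  Let `p ∈ A` (else trivial), `B = A + π`.  Let `t₁ = sup (A ∩ [p, p + π])`,
`t₂ = inf (B ∩ [t₁, p + π])` (contains `p + π`).  Points of `A` near `t₁` and of `B` near `t₂` show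
`t₂ - t₁ ≥ δ` (it is at most `π`), and the open interval `(t₁, t₂)` contains no point of `A ∪ B`.
`A` and `B` are disjoint (`c > 0`) and `A ∪ B` is `π`-periodic, hence
`|A ∩ period| = (1/2) |(A ∪ B) ∩ (2π-period)| = |(A ∪ B) ∩ [p, p + π)| ≤ π - δ`.
-/

set_option autoImplicit false

open Set MeasureTheory

namespace Pool.Agent.H99S

theorem vol_period {A : Set ℝ} (hA : MeasurableSet A)
    (hper : ∀ x, x ∈ A ↔ x + 2 * Real.pi ∈ A) (s t : ℝ) :
    volume (A ∩ Ioc s (s + 2 * Real.pi)) = volume (A ∩ Ioc t (t + 2 * Real.pi)) := by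
  have h1 := isAddFundamentalDomain_Ioc (T := 2 * Real.pi) (by positivity) s volume
  have h2 := isAddFundamentalDomain_Ioc (T := 2 * Real.pi) (by positivity) t volume
  refine h1.measure_set_eq h2 hA ?_
  have hn : ∀ n : ℕ, ∀ x, x ∈ A ↔ x + n * (2 * Real.pi) ∈ A := by
    intro n
    induction n with
    | zero => intro x; simp
    | succ n ih =>
      intro x
      rw [ih x, hper]
      have : x + (n : ℝ) * (2 * Real.pi) + 2 * Real.pi = x + ((n + 1 : ℕ) : ℝ) * (2 * Real.pi) := by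
        push_cast; ring
      rw [this]
  have hz : ∀ n : ℤ, ∀ x, x ∈ A ↔ x + n * (2 * Real.pi) ∈ A := by
    intro n x
    rcases Int.le_total 0 n with h | h
    · obtain ⟨m, rfl⟩ := Int.eq_ofNat_of_zero_le h
      exact_mod_cast hn m x
    · obtain ⟨m, hm⟩ := Int.eq_ofNat_of_zero_le (neg_nonneg.mpr h)
      have hn' : n = -(m : ℤ) := by omega
      subst hn'
      have := hn m (x + ((-(m : ℤ) : ℤ) : ℝ) * (2 * Real.pi))
      rw [this]
      push_cast
      have : x + -(m : ℝ) * (2 * Real.pi) + (m : ℝ) * (2 * Real.pi) = x := by ring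
      rw [this]
  rintro ⟨g, hg⟩
  obtain ⟨n, rfl⟩ := AddSubgroup.mem_zmultiples_iff.mp hg
  ext x
  have h3 := hz n x
  simp only [mem_preimage]
  rw [h3]
  have : (⟨n • (2 * Real.pi), hg⟩ : AddSubgroup.zmultiples (2 * Real.pi)) +ᵥ x
      = x + n * (2 * Real.pi) := by
    show (n • (2 * Real.pi)) + x = _
    rw [zsmul_eq_mul]; ring
  rw [this]

theorem gap {A : Set ℝ} (hA : MeasurableSet A) (hper : ∀ x, x ∈ A ↔ x + 2 * Real.pi ∈ A) {c : ℝ}
    (hc : 0 < c) (hsep : ∀ p ∈ A, ∀ q ∈ A, c ≤ |Real.cos ((p - q) / 2)|) :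
    volume (A ∩ Ioc (-Real.pi) Real.pi) ≤ ENNReal.ofReal (2 * Real.arccos c) := by
  rcases A.eq_empty_or_nonempty with rfl | ⟨p, hp⟩
  · simp
  have hpi := Real.pi_pos
  have hc1 : c ≤ 1 := by
    have := hsep p hp p hp
    simpa using this
  have e0 : Ioc (-Real.pi) Real.pi = Ioc (-Real.pi) (-Real.pi + 2 * Real.pi) := by
    congr 1; ring
  rw [e0, vol_period hA hper (-Real.pi) p]
  -- split
  set B : Set ℝ := (fun x => x + Real.pi) ⁻¹' A with hB
  have hBm : MeasurableSet B := hA.preimage (measurable_id.add_const _)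
  have hsplit : volume (A ∩ Ioc p (p + 2 * Real.pi)) =
      volume (A ∩ Ioc p (p + Real.pi)) + volume (A ∩ Ioc (p + Real.pi) (p + 2 * Real.pi)) := by
    rw [← measure_union]
    · rw [← inter_union_distrib_left, Ioc_union_Ioc_eq_Ioc (by linarith) (by linarith)]
    · refine Disjoint.mono inter_subset_right inter_subset_right ?_
      rw [Set.disjoint_left]
      rintro x ⟨_, h1⟩ ⟨h2, _⟩
      linarith
    · exact hA.inter measurableSet_Ioc
  have hshift : volume (A ∩ Ioc (p + Real.pi) (p + 2 * Real.pi)) =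
      volume (B ∩ Ioc p (p + Real.pi)) := by
    have h1 : B ∩ Ioc p (p + Real.pi) =
        (fun x => x + Real.pi) ⁻¹' (A ∩ Ioc (p + Real.pi) (p + 2 * Real.pi)) := by
      ext x
      simp only [hB, mem_inter_iff, mem_preimage, mem_Ioc]
      constructor
      · rintro ⟨h1, h2, h3⟩
        exact ⟨h1, by linarith, by linarith⟩
      · rintro ⟨h1, h2, h3⟩
        exact ⟨h1, by linarith, by linarith⟩
    rw [h1, measure_preimage_add_right]
  -- B in terms of A, minus pi
  have hBA : ∀ x, x ∈ B → x - Real.pi ∈ A := by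
    intro x hx
    rw [hper]
    have : x - Real.pi + 2 * Real.pi = x + Real.pi := by ring
    rw [this]; exact hx
  have hpB : p + Real.pi ∈ B := by
    show p + Real.pi + Real.pi ∈ A
    have : p + Real.pi + Real.pi = p + 2 * Real.pi := by ring
    rw [this, ← hper]; exact hp
  have hAB : ∀ a ∈ A, ∀ b ∈ B, a ≤ b → b ≤ a + Real.pi → 2 * Real.arcsin c ≤ b - a := by
    intro a ha b hb hab hba
    have h1 := hsep (b + Real.pi) hb a ha
    have h2 : (b + Real.pi - a) / 2 = (b - a) / 2 + Real.pi / 2 := by ring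
    rw [h2, Real.cos_add_pi_div_two, abs_neg,
      abs_of_nonneg (Real.sin_nonneg_of_nonneg_of_le_pi (by linarith) (by linarith))] at h1
    have h3 : Real.arcsin c ≤ (b - a) / 2 :=
      (Real.arcsin_le_iff_le_sin ⟨by linarith, hc1⟩ ⟨by linarith, by linarith⟩).mpr h1
    linarith
  have hdisj : Disjoint A B := by
    rw [Set.disjoint_left]
    intro x hx hx'
    have := hAB x hx x hx' le_rfl (by linarith)
    have h3 : 0 < Real.arcsin c := Real.arcsin_pos.mpr hc
    linarith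
  set S1 : Set ℝ := A ∩ Icc p (p + Real.pi) with hS1
  set t1 := sSup S1 with ht1
  have hS1n : S1.Nonempty := ⟨p, hp, le_rfl, by linarith⟩
  have hS1b : BddAbove S1 := ⟨p + Real.pi, fun x hx => hx.2.2⟩
  have ht1p : p ≤ t1 := le_csSup hS1b ⟨hp, le_rfl, by linarith⟩
  have ht1q : t1 ≤ p + Real.pi := csSup_le hS1n fun x hx => hx.2.2
  set S2 : Set ℝ := B ∩ Icc t1 (p + Real.pi) with hS2
  set t2 := sInf S2 with ht2
  have hS2n : S2.Nonempty := ⟨p + Real.pi, hpB, ht1q, le_rfl⟩
  have hS2b : BddBelow S2 := ⟨t1, fun x hx => hx.2.1⟩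
  have ht2q : t2 ≤ p + Real.pi := csInf_le hS2b ⟨hpB, ht1q, le_rfl⟩
  have hgap : 2 * Real.arcsin c ≤ t2 - t1 := by
    refine le_of_forall_pos_le_add fun ε hε => ?_
    obtain ⟨a, ha, ha1⟩ := exists_lt_of_lt_csSup hS1n (show t1 - ε / 2 < sSup S1 by
      rw [← ht1]; linarith)
    obtain ⟨b, hb, hb1⟩ := exists_lt_of_csInf_lt hS2n (show sInf S2 < t2 + ε / 2 by
      rw [← ht2]; linarith)
    have ha2 : a ≤ t1 := le_csSup hS1b ha
    have h1 := hAB a ha.1 b hb.1 (ha2.trans hb.2.1) (by linarith [hb.2.2, ha.2.1])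
    linarith
  have hasin : 0 < Real.arcsin c := Real.arcsin_pos.mpr hc
  have hsub : (A ∩ Ioc p (p + Real.pi)) ∪ (B ∩ Ioc p (p + Real.pi)) ⊆
      Icc p t1 ∪ Icc t2 (p + Real.pi) := by
    rintro x (⟨hx, hx1, hx2⟩ | ⟨hx, hx1, hx2⟩)
    · exact Or.inl ⟨hx1.le, le_csSup hS1b ⟨hx, hx1.le, hx2⟩⟩
    · by_cases h : x ≤ t1
      · exact Or.inl ⟨hx1.le, h⟩
      · exact Or.inr ⟨csInf_le hS2b ⟨hx, (not_le.mp h).le, hx2⟩, hx2⟩
  rw [hsplit, hshift, ← measure_union (hdisj.mono inter_subset_left inter_subset_left)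
    (hBm.inter measurableSet_Ioc)]
  calc volume ((A ∩ Ioc p (p + Real.pi)) ∪ (B ∩ Ioc p (p + Real.pi)))
      ≤ volume (Icc p t1 ∪ Icc t2 (p + Real.pi)) := measure_mono hsub
    _ ≤ volume (Icc p t1) + volume (Icc t2 (p + Real.pi)) := measure_union_le _ _
    _ = ENNReal.ofReal (t1 - p) + ENNReal.ofReal (p + Real.pi - t2) := by
        rw [Real.volume_Icc, Real.volume_Icc]
    _ = ENNReal.ofReal ((t1 - p) + (p + Real.pi - t2)) := by
        rw [ENNReal.ofReal_add (by linarith) (by linarith)]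
    _ ≤ ENNReal.ofReal (2 * Real.arccos c) := by
        apply ENNReal.ofReal_le_ofReal
        rw [Real.arccos]
        linarith

end Pool.Agent.H99S
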