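import Pool.Agent.H99S.Defs

/-!
# Gaussian kernels are positive semidefinite (finite families)

Proof: for `s > 0` and `x y : ℂ`,
`∫ w : ℂ, exp (-2 s ‖x - w‖²) * exp (-2 s ‖y - w‖²) = C * exp (-s ‖x - y‖²)`, `C > 0`
(because `‖x-w‖² + ‖y-w‖² = 2 ‖w - (x+y)/2‖² + ‖x-y‖²/2`, and translation invariance), so the double
sum is `C⁻¹ * ∫ w, ‖∑ i, c i * exp (-2 s ‖x i - w‖²)‖²`.
-/

set_option autoImplicit false

open Complex ComplexConjugate Metric Set MeasureTheory

namespace Pool.Agent.H99S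

private lemma gauss_prod (x y w : ℂ) (s : ℝ) :
    Real.exp (-(2 * s) * ‖x - w‖ ^ 2) * Real.exp (-(2 * s) * ‖y - w‖ ^ 2) =
      Real.exp (-(4 * s) * ‖w - (x + y) / 2‖ ^ 2) * Real.exp (-s * ‖x - y‖ ^ 2) := by
  rw [← Real.exp_add, ← Real.exp_add]
  congr 1
  simp only [← Complex.normSq_eq_norm_sq, Complex.normSq_apply, Complex.sub_re, Complex.sub_im,
    Complex.add_re, Complex.add_im, Complex.div_re, Complex.div_im, Complex.re_ofNat,
    Complex.im_ofNat]
  ring

private lemma gauss_integrable {b : ℝ} (hb : 0 < b) :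
    Integrable (fun w : ℂ => Real.exp (-b * ‖w‖ ^ 2)) := by
  have h := GaussianFourier.integrable_cexp_neg_mul_sq_norm_add (V := ℂ) (b := (b : ℂ))
    (by simpa using hb) 0 0
  have h2 := h.re
  refine h2.congr (Filter.Eventually.of_forall fun w => ?_)
  have : (-(b : ℂ) * (‖w‖ : ℂ) ^ 2 + 0 * ((inner ℝ (0 : ℂ) w : ℝ) : ℂ)) =
      ((-b * ‖w‖ ^ 2 : ℝ) : ℂ) := by push_cast; ring
  show (cexp (-(b : ℂ) * (‖w‖ : ℂ) ^ 2 + 0 * ((inner ℝ (0 : ℂ) w : ℝ) : ℂ))).re = _
  rw [this, ← Complex.ofReal_exp, Complex.ofReal_re]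

private lemma gauss_pos {b : ℝ} (hb : 0 < b) : 0 < ∫ w : ℂ, Real.exp (-b * ‖w‖ ^ 2) := by
  rw [GaussianFourier.integral_rexp_neg_mul_sq_norm hb]
  positivity

theorem gauss_psd {ι : Type*} [Fintype ι] (x c : ι → ℂ) {s : ℝ} (hs : 0 < s) :
    0 ≤ (∑ i, ∑ j, c i * conj (c j) * ((Real.exp (-s * ‖x i - x j‖ ^ 2) : ℝ) : ℂ)).re := by
  set C : ℝ := ∫ w : ℂ, Real.exp (-(4 * s) * ‖w‖ ^ 2) with hC
  have hCpos : 0 < C := gauss_pos (by positivity)
  set g : ι → ℂ → ℝ := fun i w => Real.exp (-(2 * s) * ‖x i - w‖ ^ 2) with hg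
  have hint : ∀ i j, Integrable (fun w : ℂ => g i w * g j w) := by
    intro i j
    have h1 := (gauss_integrable (b := 4 * s) (by positivity)).comp_sub_right ((x i + x j) / 2)
    have h2 := h1.mul_const (Real.exp (-s * ‖x i - x j‖ ^ 2))
    refine h2.congr (Filter.Eventually.of_forall fun w => ?_)
    simp only [hg]
    rw [gauss_prod]
  have hval : ∀ i j, ∫ w : ℂ, g i w * g j w = C * Real.exp (-s * ‖x i - x j‖ ^ 2) := by
    intro i j
    have : ∀ w : ℂ, g i w * g j w =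
        Real.exp (-(4 * s) * ‖w - (x i + x j) / 2‖ ^ 2) * Real.exp (-s * ‖x i - x j‖ ^ 2) := by
      intro w
      simp only [hg]
      rw [gauss_prod]
    simp_rw [this]
    rw [integral_mul_const]
    congr 1
    exact integral_sub_right_eq_self (fun w : ℂ => Real.exp (-(4 * s) * ‖w‖ ^ 2)) _
  have hre : ∀ i j, (c i * conj (c j) * ((Real.exp (-s * ‖x i - x j‖ ^ 2) : ℝ) : ℂ)).re =
      C⁻¹ * ∫ w : ℂ, (c i * conj (c j)).re * (g i w * g j w) := by
    intro i j
    rw [Complex.re_mul_ofReal, integral_const_mul, hval i j]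
    field_simp
  have hsum : (∑ i, ∑ j, c i * conj (c j) * ((Real.exp (-s * ‖x i - x j‖ ^ 2) : ℝ) : ℂ)).re =
      C⁻¹ * ∫ w : ℂ, ∑ i, ∑ j, (c i * conj (c j)).re * (g i w * g j w) := by
    rw [integral_finsetSum _ (fun i _ => integrable_finsetSum _
      (fun j _ => (hint i j).const_mul _))]
    simp_rw [integral_finsetSum _ (fun (j : ι) (_ : j ∈ (Finset.univ : Finset ι)) =>
      (hint _ j).const_mul _)]
    rw [Complex.re_sum, Finset.mul_sum]
    refine Finset.sum_congr rfl fun i _ => ?_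
    rw [Complex.re_sum, Finset.mul_sum]
    exact Finset.sum_congr rfl fun j _ => hre i j
  rw [hsum]
  refine mul_nonneg (inv_nonneg.mpr hCpos.le) (integral_nonneg fun w => ?_)
  have key : ∑ i, ∑ j, (c i * conj (c j)).re * (g i w * g j w) =
      Complex.normSq (∑ i, c i * (g i w : ℂ)) := by
    have h1 : ((Complex.normSq (∑ i, c i * (g i w : ℂ)) : ℝ) : ℂ) =
        ∑ i, ∑ j, (c i * conj (c j)) * ((g i w * g j w : ℝ) : ℂ) := by
      rw [← Complex.mul_conj, map_sum, Finset.sum_mul_sum]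
      refine Finset.sum_congr rfl fun i _ => Finset.sum_congr rfl fun j _ => ?_
      rw [map_mul, Complex.conj_ofReal]
      push_cast
      ring
    have h2 := congrArg Complex.re h1
    rw [Complex.ofReal_re, Complex.re_sum] at h2
    rw [h2]
    refine Finset.sum_congr rfl fun i _ => ?_
    rw [Complex.re_sum]
    refine Finset.sum_congr rfl fun j _ => ?_
    rw [Complex.re_mul_ofReal]
  show 0 ≤ ∑ i, ∑ j, (c i * conj (c j)).re * (g i w * g j w)
  rw [key]
  exact Complex.normSq_nonneg _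

end Pool.Agent.H99S
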