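import Pool.Agent.H99S.Cpd

/-!
# The odd and the normalised even kernels are positive semidefinite (finite families)

Odd: apply `cpd` to the family `(x_i, c_i), (-x_i, -c_i)` (index `ι ⊕ ι`), total charge `0`.
Even: apply `cpd` to `(x_i, c_i), (-x_i, c_i), (0, -2 ∑ c)` (index `(ι ⊕ ι) ⊕ Unit`).
Write `k x y = -log (‖x - y‖² + τ)`; the energy of the family is
`2 ∑∑ c c̄ (k x x' + k x (-x')) - 8 Re (conj S * ∑ c k x 0) + 4 |S|² k 0 0`, `S = ∑ c`, which is
`4 ∑∑ c c̄ kE' τ x x'`.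
-/

set_option autoImplicit false

open Complex ComplexConjugate Metric Set

namespace Pool.Agent.H99S

theorem kO_psd {ι : Type*} [Fintype ι] (x c : ι → ℂ) {τ : ℝ} (hτ : 0 < τ) :
    0 ≤ (∑ i, ∑ j, c i * conj (c j) * ((kO τ (x i) (x j) : ℝ) : ℂ)).re := by
  have h := cpd (Sum.elim x (fun i => -x i)) (Sum.elim c (fun i => -c i))
    (by simp [Fintype.sum_sum_type]) hτ
  have e : (∑ i : ι ⊕ ι, ∑ j : ι ⊕ ι, Sum.elim c (fun i => -c i) i *
      conj (Sum.elim c (fun i => -c i) j) *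
      ((Real.log (‖Sum.elim x (fun i => -x i) i - Sum.elim x (fun i => -x i) j‖ ^ 2 + τ) : ℝ) : ℂ))
      = -4 * ∑ i, ∑ j, c i * conj (c j) * ((kO τ (x i) (x j) : ℝ) : ℂ) := by
    simp only [Fintype.sum_sum_type, Sum.elim_inl, Sum.elim_inr, Finset.mul_sum,
      ← Finset.sum_add_distrib]
    refine Finset.sum_congr rfl fun i _ => Finset.sum_congr rfl fun j _ => ?_
    have e1 : ‖x i - -x j‖ = ‖x i + x j‖ := by rw [sub_neg_eq_add]
    have e2 : ‖-x i - x j‖ = ‖x i + x j‖ := by rw [← norm_neg]; congr 1; ring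
    have e3 : ‖-x i - -x j‖ = ‖x i - x j‖ := by rw [← norm_neg]; congr 1; ring
    rw [e1, e2, e3]
    simp only [kO, map_neg]
    push_cast
    ring
  rw [e] at h
  have h2 : (-4 * ∑ i, ∑ j, c i * conj (c j) * ((kO τ (x i) (x j) : ℝ) : ℂ)).re =
      -4 * (∑ i, ∑ j, c i * conj (c j) * ((kO τ (x i) (x j) : ℝ) : ℂ)).re := by
    have : ((-4 : ℝ) : ℂ) = (-4 : ℂ) := by push_cast; ring
    rw [← this, Complex.re_ofReal_mul]
  rw [h2] at h
  linarith

theorem kE'_psd {ι : Type*} [Fintype ι] (x c : ι → ℂ) {τ : ℝ} (hτ : 0 < τ) :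
    0 ≤ (∑ i, ∑ j, c i * conj (c j) * ((kE' τ (x i) (x j) : ℝ) : ℂ)).re := by
  set y : (ι ⊕ ι) ⊕ Unit → ℂ := Sum.elim (Sum.elim x (fun i => -x i)) (fun _ => 0) with hy
  set d : (ι ⊕ ι) ⊕ Unit → ℂ := Sum.elim (Sum.elim c c) (fun _ => -2 * ∑ i, c i) with hd
  have h := cpd y d (by simp [hd, Fintype.sum_sum_type]; ring) hτ
  have e : (∑ i, ∑ j, d i * conj (d j) * ((Real.log (‖y i - y j‖ ^ 2 + τ) : ℝ) : ℂ))
      = -4 * ∑ i, ∑ j, c i * conj (c j) * ((kE' τ (x i) (x j) : ℝ) : ℂ) := by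
    simp only [hy, hd, Fintype.sum_sum_type, Sum.elim_inl, Sum.elim_inr, Finset.univ_unique,
      Finset.sum_singleton]
    have a1 : ∀ a : ι → ℂ, ∑ i, c i * conj (-2 * ∑ j, c j) * a i =
        ∑ i, ∑ j, c i * conj (c j) * (-2 * a i) := by
      intro a
      refine Finset.sum_congr rfl fun i _ => ?_
      rw [map_mul, map_sum, map_neg, Complex.conj_ofNat]
      rw [← Finset.sum_mul, ← Finset.mul_sum]
      ring
    have a2 : ∀ a : ι → ℂ, ∑ j, (-2 * ∑ i, c i) * conj (c j) * a j =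
        ∑ i, ∑ j, c i * conj (c j) * (-2 * a j) := by
      intro a
      rw [Finset.sum_comm]
      refine Finset.sum_congr rfl fun j _ => ?_
      have : ∀ i, c i * conj (c j) * (-2 * a j) = c i * (-2 * (conj (c j) * a j)) :=
        fun i => by ring
      simp_rw [this]
      rw [← Finset.sum_mul]
      ring
    have a3 : (-2 * ∑ i, c i) * conj (-2 * ∑ i, c i) * ((Real.log τ : ℝ) : ℂ) =
        ∑ i, ∑ j, c i * conj (c j) * (4 * ((Real.log τ : ℝ) : ℂ)) := by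
      rw [map_mul, map_sum, map_neg, Complex.conj_ofNat]
      simp_rw [← Finset.sum_mul, ← Finset.mul_sum]
      rw [← Finset.sum_mul]
      ring
    have n0 : ∀ i, ‖x i - 0‖ = ‖x i‖ := fun i => by rw [sub_zero]
    have n1 : ∀ i, ‖-x i - 0‖ = ‖x i‖ := fun i => by rw [sub_zero, norm_neg]
    have n2 : ∀ i, ‖0 - x i‖ = ‖x i‖ := fun i => by rw [zero_sub, norm_neg]
    have n3 : ∀ i, ‖0 - -x i‖ = ‖x i‖ := fun i => by rw [zero_sub, neg_neg]
    have n4 : ‖(0 : ℂ) - 0‖ ^ 2 + τ = τ := by simp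
    have e1 : ∀ i j, ‖x i - -x j‖ = ‖x i + x j‖ := fun i j => by rw [sub_neg_eq_add]
    have e2 : ∀ i j, ‖-x i - x j‖ = ‖x i + x j‖ := fun i j => by
      rw [← norm_neg]; congr 1; ring
    have e3 : ∀ i j, ‖-x i - -x j‖ = ‖x i - x j‖ := fun i j => by
      rw [← norm_neg]; congr 1; ring
    simp only [n0, n1, n2, n3, n4, e1, e2, e3]
    simp only [Finset.sum_add_distrib]
    rw [a1, a2, a3]
    simp only [Finset.mul_sum, ← Finset.sum_add_distrib]
    refine Finset.sum_congr rfl fun i _ => Finset.sum_congr rfl fun j _ => ?_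
    simp only [kE', kE]
    push_cast
    ring
  rw [e] at h
  have h2 : (-4 * ∑ i, ∑ j, c i * conj (c j) * ((kE' τ (x i) (x j) : ℝ) : ℂ)).re =
      -4 * (∑ i, ∑ j, c i * conj (c j) * ((kE' τ (x i) (x j) : ℝ) : ℂ)).re := by
    have : ((-4 : ℝ) : ℂ) = (-4 : ℂ) := by push_cast; ring
    rw [← this, Complex.re_ofReal_mul]
  rw [h2] at h
  linarith

end Pool.Agent.H99S
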