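import Pool.Agent.H99S.Defs

/-!
# A Lipschitz inequality

`f (A, y, G) = log (cosh A + exp G + cos y)` has gradient of norm `≤ 1` where `exp G + cos y ≥ 0`:
`(cosh A + e^G + cos y)² - sinh² A - sin² y - e^{2G} = 2 (cosh A + cos y) (e^G + cos y)`.
On the segment between the two points let `v t = exp G_t + cos y_t`.  If `v ≥ 1` on the whole
segment use the mean value theorem.  Otherwise let `t₁ = min {t | v t ≤ 1}`,
`t₂ = max {t | v t ≤ 1}`; `v t₁ = v t₂ = 1`, and `v ≥ 1` on `[0, t₁]` and on `[t₂, 1]`; in the middle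
`log (cosh A_{t₂} + 1) - log (cosh A_{t₁} + 1) ≤ |A_{t₂} - A_{t₁}|`.
-/

set_option autoImplicit false

open Set

namespace Pool.Agent.H99S

/-- Splitting of a segment at a sublevel set. -/
private theorem lip_split {v : ℝ → ℝ} (hv : Continuous v) (h0 : 1 ≤ v 0) (h1 : 1 ≤ v 1) :
    (∀ t ∈ Icc (0 : ℝ) 1, 1 ≤ v t) ∨
    ∃ t₁ t₂ : ℝ, 0 ≤ t₁ ∧ t₁ ≤ t₂ ∧ t₂ ≤ 1 ∧ v t₁ = 1 ∧ v t₂ = 1 ∧
      (∀ t ∈ Icc (0 : ℝ) t₁, 1 ≤ v t) ∧ ∀ t ∈ Icc t₂ 1, 1 ≤ v t := by
  by_cases hne : (Icc (0 : ℝ) 1 ∩ {t | v t ≤ 1}).Nonempty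
  · right
    have hc : IsCompact (Icc (0 : ℝ) 1 ∩ {t | v t ≤ 1}) :=
      isCompact_Icc.inter_right (isClosed_le hv continuous_const)
    obtain ⟨t₁, ht₁, hmin⟩ := hc.exists_isLeast hne
    obtain ⟨t₂, ht₂, hmax⟩ := hc.exists_isGreatest hne
    have hlow : ∀ t ∈ Icc (0 : ℝ) 1, t < t₁ → 1 < v t := by
      intro t ht htt
      by_contra hcon
      exact absurd (hmin ⟨ht, not_lt.1 hcon⟩) (not_le.2 htt)
    have hup : ∀ t ∈ Icc (0 : ℝ) 1, t₂ < t → 1 < v t := by
      intro t ht htt
      by_contra hcon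
      exact absurd (hmax ⟨ht, not_lt.1 hcon⟩) (not_le.2 htt)
    have e₁ : v t₁ = 1 := by
      obtain ⟨t, ht, htv⟩ := intermediate_value_Icc' ht₁.1.1 hv.continuousOn ⟨ht₁.2, h0⟩
      rcases lt_or_eq_of_le ht.2 with hlt | heq
      · exact absurd htv (hlow t ⟨ht.1, ht.2.trans ht₁.1.2⟩ hlt).ne'
      · rw [← heq]; exact htv
    have e₂ : v t₂ = 1 := by
      obtain ⟨t, ht, htv⟩ := intermediate_value_Icc ht₂.1.2 hv.continuousOn ⟨ht₂.2, h1⟩
      rcases lt_or_eq_of_le ht.1 with hlt | heq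
      · exact absurd htv (hup t ⟨ht₂.1.1.trans ht.1, ht.2⟩ hlt).ne'
      · rw [heq]; exact htv
    refine ⟨t₁, t₂, ht₁.1.1, hmin ht₂, ht₂.1.2, e₁, e₂, ?_, ?_⟩
    · intro t ht
      rcases lt_or_eq_of_le ht.2 with hlt | heq
      · exact (hlow t ⟨ht.1, ht.2.trans ht₁.1.2⟩ hlt).le
      · rw [heq, e₁]
    · intro t ht
      rcases lt_or_eq_of_le ht.1 with hlt | heq
      · exact (hup t ⟨ht₂.1.1.trans ht.1, ht.2⟩ hlt).le
      · rw [← heq, e₂]
  · left
    intro t ht
    by_contra hcon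
    exact hne ⟨t, ht, (not_le.1 hcon).le⟩

private theorem lip_cosh (a b : ℝ) :
    Real.log (Real.cosh b + 1) - Real.log (Real.cosh a + 1) ≤ |b - a| := by
  have h1 : Real.cosh b ≤ Real.cosh a * Real.exp |b - a| := by
    have hb : b = a + (b - a) := by ring
    have h2 : Real.cosh b = Real.cosh a * Real.cosh (b - a) + Real.sinh a * Real.sinh (b - a) := by
      conv_lhs => rw [hb]
      exact Real.cosh_add _ _
    have h3 : Real.exp |b - a| = Real.cosh (b - a) + |Real.sinh (b - a)| := by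
      rw [Real.abs_sinh, ← Real.cosh_abs (b - a), Real.cosh_add_sinh]
    have h4 : |Real.sinh a| ≤ Real.cosh a := by
      rw [Real.abs_sinh, ← Real.cosh_abs a]
      exact (Real.sinh_lt_cosh _).le
    have h5 : Real.sinh a * Real.sinh (b - a) ≤ Real.cosh a * |Real.sinh (b - a)| := by
      calc Real.sinh a * Real.sinh (b - a) ≤ |Real.sinh a * Real.sinh (b - a)| := le_abs_self _
        _ = |Real.sinh a| * |Real.sinh (b - a)| := abs_mul _ _
        _ ≤ Real.cosh a * |Real.sinh (b - a)| :=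
            mul_le_mul_of_nonneg_right h4 (abs_nonneg _)
    rw [h2, h3]
    nlinarith
  have ha : 0 < Real.cosh a + 1 := by linarith [Real.cosh_pos a]
  have hb : 0 < Real.cosh b + 1 := by linarith [Real.cosh_pos b]
  have he : 1 ≤ Real.exp |b - a| := Real.one_le_exp (abs_nonneg _)
  rw [sub_le_iff_le_add, ← Real.log_exp |b - a|, ← Real.log_mul (Real.exp_pos _).ne' ha.ne']
  apply Real.log_le_log hb
  nlinarith

theorem lip {A A' y y' G G' : ℝ} (h : 1 ≤ Real.exp G + Real.cos y)
    (h' : 1 ≤ Real.exp G' + Real.cos y') :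
    Real.log (Real.cosh A' + Real.exp G' + Real.cos y') -
      Real.log (Real.cosh A + Real.exp G + Real.cos y) ≤
      Real.sqrt ((A' - A) ^ 2 + (y' - y) ^ 2 + (G' - G) ^ 2) := by
  set L := Real.sqrt ((A' - A) ^ 2 + (y' - y) ^ 2 + (G' - G) ^ 2) with hL
  have hL0 : 0 ≤ L := Real.sqrt_nonneg _
  have hL2 : L ^ 2 = (A' - A) ^ 2 + (y' - y) ^ 2 + (G' - G) ^ 2 := Real.sq_sqrt (by positivity)
  set a : ℝ → ℝ := fun t => A + t * (A' - A) with ha
  set b : ℝ → ℝ := fun t => y + t * (y' - y) with hb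
  set g : ℝ → ℝ := fun t => G + t * (G' - G) with hg
  set v : ℝ → ℝ := fun t => Real.exp (g t) + Real.cos (b t) with hv
  set F : ℝ → ℝ := fun t => Real.cosh (a t) + v t with hF
  have hvc : Continuous v := by
    simp only [hv, hb, hg]
    fun_prop
  have hv0 : 1 ≤ v 0 := by simpa [hv, hb, hg] using h
  have hv1 : 1 ≤ v 1 := by simpa [hv, hb, hg] using h'
  have hF0 : Real.log (F 0) = Real.log (Real.cosh A + Real.exp G + Real.cos y) := by
    simp [hF, hv, ha, hb, hg, add_assoc]
  have hF1 : Real.log (F 1) = Real.log (Real.cosh A' + Real.exp G' + Real.cos y') := by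
    simp [hF, hv, ha, hb, hg, add_assoc]
  have hder : ∀ t, HasDerivAt F (Real.sinh (a t) * (A' - A) +
      (Real.exp (g t) * (G' - G) + -Real.sin (b t) * (y' - y))) t := by
    intro t
    have dl : ∀ c d : ℝ, HasDerivAt (fun r : ℝ => c + r * d) d t := by
      intro c d
      have := ((hasDerivAt_id t).mul_const d).const_add c
      rwa [one_mul] at this
    have d1 : HasDerivAt a (A' - A) t := dl _ _
    have d2 : HasDerivAt b (y' - y) t := dl _ _
    have d3 : HasDerivAt g (G' - G) t := dl _ _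
    exact d1.cosh.add (d3.exp.add d2.cos)
  have key : ∀ s t : ℝ, s ≤ t → (∀ r ∈ Icc s t, 1 ≤ v r) →
      Real.log (F t) - Real.log (F s) ≤ L * (t - s) := by
    intro s t hst hr
    have hFpos : ∀ r ∈ Icc s t, 0 < F r := by
      intro r hrr
      have := hr r hrr
      have := Real.cosh_pos (a r)
      simp only [hF]
      linarith
    have hd : ∀ r ∈ Icc s t, HasDerivAt (fun r => Real.log (F r))
        ((Real.sinh (a r) * (A' - A) +
      (Real.exp (g r) * (G' - G) + -Real.sin (b r) * (y' - y))) / F r) r := fun r hrr =>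
      (hder r).log (hFpos r hrr).ne'
    have := image_le_of_deriv_right_le_deriv_boundary (a := s) (b := t)
      (f := fun r => Real.log (F r)) (f' := fun r => (Real.sinh (a r) * (A' - A) +
      (Real.exp (g r) * (G' - G) + -Real.sin (b r) * (y' - y))) / F r)
      (B := fun r => Real.log (F s) + L * (r - s)) (B' := fun _ => L)
      (fun r hrr => (hd r hrr).continuousAt.continuousWithinAt)
      (fun r hrr => (hd r ⟨hrr.1, hrr.2.le⟩).hasDerivWithinAt)
      (by simp) (by fun_prop)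
      (fun r hrr => by
        have : HasDerivAt (fun r => Real.log (F s) + L * (r - s)) L r := by
          simpa using (((hasDerivAt_id r).sub_const s).const_mul L).const_add (Real.log (F s))
        exact this.hasDerivWithinAt)
      (fun r hrr => by
        have hrm : r ∈ Icc s t := ⟨hrr.1, hrr.2.le⟩
        have hpos := hFpos r hrm
        rw [div_le_iff₀ hpos]
        have hv' := hr r hrm
        have hc1 : 1 ≤ Real.cosh (a r) := Real.one_le_cosh _
        have hc2 : -1 ≤ Real.cos (b r) := Real.neg_one_le_cos _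
        have hch := Real.cosh_sq (a r)
        have hsc := Real.sin_sq_add_cos_sq (b r)
        have hgrad : Real.sinh (a r) ^ 2 + Real.exp (g r) ^ 2 + Real.sin (b r) ^ 2 ≤ F r ^ 2 := by
          have : F r ^ 2 - (Real.sinh (a r) ^ 2 + Real.exp (g r) ^ 2 + Real.sin (b r) ^ 2) =
              2 * (Real.cosh (a r) + Real.cos (b r)) * (Real.exp (g r) + Real.cos (b r)) := by
            simp only [hF, hv]
            nlinarith [hch, hsc]
          have h2 : 0 ≤ 2 * (Real.cosh (a r) + Real.cos (b r)) *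
              (Real.exp (g r) + Real.cos (b r)) := by
            apply mul_nonneg (by linarith)
            simp only [hv] at hv'
            linarith
          linarith
        have hcs : (Real.sinh (a r) * (A' - A) +
            (Real.exp (g r) * (G' - G) + -Real.sin (b r) * (y' - y))) ^ 2 ≤
            (L * F r) ^ 2 := by
          have h3 : (Real.sinh (a r) * (A' - A) +
            (Real.exp (g r) * (G' - G) + -Real.sin (b r) * (y' - y))) ^ 2 ≤
            (Real.sinh (a r) ^ 2 + Real.exp (g r) ^ 2 + Real.sin (b r) ^ 2) *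
              ((A' - A) ^ 2 + (y' - y) ^ 2 + (G' - G) ^ 2) := by
            nlinarith [sq_nonneg (Real.sinh (a r) * (G' - G) - Real.exp (g r) * (A' - A)),
              sq_nonneg (Real.sinh (a r) * (y' - y) + Real.sin (b r) * (A' - A)),
              sq_nonneg (Real.exp (g r) * (y' - y) + Real.sin (b r) * (G' - G))]
          rw [mul_pow, hL2, mul_comm ((A' - A) ^ 2 + (y' - y) ^ 2 + (G' - G) ^ 2)]
          exact h3.trans (mul_le_mul_of_nonneg_right hgrad (by positivity))
        exact (abs_le_of_sq_le_sq' hcs (mul_nonneg hL0 hpos.le)).2)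
      ⟨hst, le_rfl⟩
    linarith
  rw [← hF0, ← hF1]
  rcases lip_split hvc hv0 hv1 with hall | ⟨t₁, t₂, h0, h12, h1, e₁, e₂, hl, hr⟩
  · have := key 0 1 zero_le_one hall
    linarith
  · have k1 := key 0 t₁ h0 hl
    have k2 := key t₂ 1 h1 hr
    have k3 : Real.log (F t₂) - Real.log (F t₁) ≤ L * (t₂ - t₁) := by
      have f1 : F t₁ = Real.cosh (a t₁) + 1 := by simp only [hF, e₁]
      have f2 : F t₂ = Real.cosh (a t₂) + 1 := by simp only [hF, e₂]
      rw [f1, f2]
      refine (lip_cosh (a t₁) (a t₂)).trans ?_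
      have : a t₂ - a t₁ = (t₂ - t₁) * (A' - A) := by simp only [ha]; ring
      rw [this, abs_mul, abs_of_nonneg (sub_nonneg.2 h12), mul_comm]
      apply mul_le_mul_of_nonneg_right _ (sub_nonneg.2 h12)
      apply Real.le_sqrt_of_sq_le
      rw [sq_abs]
      nlinarith [sq_nonneg (y' - y), sq_nonneg (G' - G)]
    nlinarith

end Pool.Agent.H99S
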