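import Pool.Agent.H99S.Div

/-!
# Branches of the logarithm in two variables

`exists_log2`: a continuous nonvanishing symmetric function `q` on the bidisc (convex, hence
simply connected, open in `ℂ × ℂ`), holomorphic in each variable, has a continuous logarithm
(`Complex.exists_continuousOn_eqOn_exp_comp` in `Mathlib.Analysis.Complex.BranchLogRoot`),
holomorphic in each variable (local inverse of `exp`), symmetric because
`L z w - L w z` is continuous with values in `2 π i ℤ` and vanishes on the diagonal.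

`exists_logs`: apply it to `h z + h w` and to the divided difference `dslope h z w`.
-/

set_option autoImplicit false

open Complex ComplexConjugate Metric Set Filter Topology

namespace Pool.Agent.H99S

/-- A continuous logarithm of a differentiable function is differentiable. -/
theorem differentiableAt_of_exp {F g : ℂ → ℂ} {s : Set ℂ} (hs : IsOpen s) {w : ℂ} (hw : w ∈ s)
    (hF : ContinuousAt F w) (hg : DifferentiableAt ℂ g w) (he : ∀ x ∈ s, exp (F x) = g x) :
    DifferentiableAt ℂ F w := by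
  have hgw : g w ≠ 0 := by rw [← he w hw]; exact exp_ne_zero _
  have h1 : ∀ᶠ x in 𝓝 w, ‖F x - F w‖ < 1 := by
    have h2 : Tendsto (fun x => F x - F w) (𝓝 w) (𝓝 (F w - F w)) := hF.sub continuousAt_const
    rw [sub_self] at h2
    have h3 := h2.norm
    rw [norm_zero] at h3
    exact h3.eventually (gt_mem_nhds one_pos)
  have h2 : ∀ᶠ x in 𝓝 w, F x = F w + log (g x / g w) := by
    filter_upwards [h1, hs.mem_nhds hw] with x hx hxs
    have h3 : g x / g w = exp (F x - F w) := by rw [exp_sub, he x hxs, he w hw]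
    have him : |(F x - F w).im| < 1 := (abs_im_le_norm _).trans_lt hx
    have hpi := Real.pi_gt_three
    have h4 := abs_lt.mp him
    rw [h3, log_exp (by linarith [h4.1]) (by linarith [h4.2])]
    ring
  have h3 : DifferentiableAt ℂ (fun x => F w + log (g x / g w)) w := by
    refine (differentiableAt_const _).add ?_
    refine DifferentiableAt.clog (hg.div_const _) ?_
    rw [div_self hgw]
    exact one_mem_slitPlane
  exact h3.congr_of_eventuallyEq h2

private lemma exp_eq_one_norm {x : ℂ} (hx : exp x = 1) : x = 0 ∨ 1 < ‖x‖ := by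
  rw [exp_eq_one_iff] at hx
  obtain ⟨n, hn⟩ := hx
  rcases eq_or_ne n 0 with h0 | h0
  · left
    rw [hn, h0]
    simp
  · right
    rw [hn]
    have h1 : (1 : ℝ) ≤ |(n : ℝ)| := by exact_mod_cast Int.one_le_abs h0
    have h2 : ‖(n : ℂ) * (2 * (Real.pi : ℂ) * I)‖ = |(n : ℝ)| * (2 * Real.pi) := by
      rw [norm_mul, norm_mul, norm_mul, norm_I, Complex.norm_real, Complex.norm_intCast,
        Complex.norm_two, Real.norm_of_nonneg Real.pi_pos.le, mul_one]
    rw [h2]
    have hpi := Real.pi_gt_three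
    nlinarith

theorem exists_log2 {q : ℂ → ℂ → ℂ}
    (hc : ContinuousOn (Function.uncurry q) (ball 0 1 ×ˢ ball 0 1))
    (h0 : ∀ z ∈ ball (0 : ℂ) 1, ∀ w ∈ ball (0 : ℂ) 1, q z w ≠ 0)
    (hs : ∀ z ∈ ball (0 : ℂ) 1, ∀ w ∈ ball (0 : ℂ) 1, q z w = q w z)
    (hd : ∀ z ∈ ball (0 : ℂ) 1, DifferentiableOn ℂ (q z) (ball 0 1)) :
    ∃ L : ℂ → ℂ → ℂ, BiHol L ∧
      ∀ z ∈ ball (0 : ℂ) 1, ∀ w ∈ ball (0 : ℂ) 1, exp (L z w) = q z w := by
  set U : Set (ℂ × ℂ) := ball (0 : ℂ) 1 ×ˢ ball (0 : ℂ) 1 with hU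
  have hconv : Convex ℝ U := (convex_ball 0 1).prod (convex_ball 0 1)
  have hz0 : (0 : ℂ) ∈ ball (0 : ℂ) 1 := mem_ball_self one_pos
  have hne : U.Nonempty := ⟨(0, 0), hz0, hz0⟩
  have hopen : IsOpen U := isOpen_ball.prod isOpen_ball
  have hsc : IsSimplyConnected U := by
    have := hconv.contractibleSpace hne
    exact SimplyConnectedSpace.ofContractible U
  obtain ⟨f, hfc, hf⟩ := exists_continuousOn_eqOn_exp_comp hsc hopen hc (by
    rintro ⟨⟨z, w⟩, ⟨hz, hw⟩, h⟩
    exact h0 z hz w hw h)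
  have hfe : ∀ z ∈ ball (0 : ℂ) 1, ∀ w ∈ ball (0 : ℂ) 1, exp (f (z, w)) = q z w :=
    fun z hz w hw => hf (x := (z, w)) ⟨hz, hw⟩
  have hfa : ∀ p ∈ U, ContinuousAt f p := fun p hp => (hfc p hp).continuousAt (hopen.mem_nhds hp)
  have hsymm : ∀ z ∈ ball (0 : ℂ) 1, ∀ w ∈ ball (0 : ℂ) 1, f (z, w) = f (w, z) := by
    intro z hz w hw
    have hD : ContinuousOn (fun p : ℂ × ℂ => ‖f p - f (p.2, p.1)‖) U := by
      refine ContinuousOn.norm (hfc.sub (hfc.comp ?_ ?_))
      · exact (continuous_snd.prodMk continuous_fst).continuousOn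
      · rintro ⟨a, b⟩ ⟨ha, hb⟩
        exact ⟨hb, ha⟩
    have hval : ∀ p ∈ U, f p - f (p.2, p.1) = 0 ∨ 1 < ‖f p - f (p.2, p.1)‖ := by
      rintro ⟨a, b⟩ ⟨ha, hb⟩
      refine exp_eq_one_norm ?_
      rw [exp_sub, hfe a ha b hb, hfe b hb a ha, hs a ha b hb]
      exact div_self (h0 b hb a ha)
    have hpre := hconv.isPreconnected
    rcases hval (z, w) ⟨hz, hw⟩ with h1 | h1
    · exact sub_eq_zero.mp h1
    · exfalso
      have h2 := hpre.intermediate_value (a := ((0 : ℂ), (0 : ℂ))) (b := (z, w)) ⟨hz0, hz0⟩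
        ⟨hz, hw⟩ hD
      have h3 : (1 : ℝ) ∈ Icc (‖f ((0 : ℂ), (0 : ℂ)) - f ((0 : ℂ), (0 : ℂ))‖)
          (‖f (z, w) - f (w, z)‖) := by
        constructor
        · simp
        · exact h1.le
      obtain ⟨p, hp, hp1⟩ := h2 h3
      simp only at hp1
      rcases hval p hp with h4 | h4
      · rw [h4, norm_zero] at hp1
        exact zero_ne_one hp1
      · rw [hp1] at h4
        exact lt_irrefl _ h4
  refine ⟨fun z w => f (z, w), ⟨hsymm, ?_⟩, hfe⟩
  intro z hz w hw
  refine DifferentiableAt.differentiableWithinAt ?_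
  refine differentiableAt_of_exp isOpen_ball hw ?_ ((hd z hz).differentiableAt
    (isOpen_ball.mem_nhds hw)) (fun x hx => hfe z hz x hx)
  exact ContinuousAt.comp (f := fun x : ℂ => (z, x)) (x := w) (hfa (z, w) ⟨hz, hw⟩)
    (continuous_const.prodMk continuous_id).continuousAt

theorem exists_logs {h : ℂ → ℂ} (hh : Gelfer h) : ∃ Lp Lq : ℂ → ℂ → ℂ, Logs h Lp Lq := by
  have hcont : ContinuousOn h (ball 0 1) := hh.diff.continuousOn
  obtain ⟨Lp, hp, hpe⟩ := exists_log2 (q := fun z w => h z + h w) (by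
      refine ContinuousOn.add ?_ ?_
      · exact hcont.comp continuous_fst.continuousOn fun p hp => hp.1
      · exact hcont.comp continuous_snd.continuousOn fun p hp => hp.2)
    hh.sum_ne (fun z _ w _ => add_comm _ _)
    (fun z _ => (differentiableOn_const (c := h z)).add hh.diff)
  obtain ⟨Lq, hq, hqe⟩ := exists_log2 (q := dslope h) (continuousOn_dslope_uncurry hh.diff)
    (fun z hz w hw => dslope_ne_zero' hh.diff hh.inj hz hw) (fun z _ w _ => dslope_comm' h z w)
    (fun z hz => (differentiableOn_dslope (isOpen_ball.mem_nhds hz)).mpr hh.diff)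
  refine ⟨Lp, Lq, hp, hq, hpe, ?_, ?_⟩
  · intro z hz w hw hzw
    rw [hqe z hz w hw, dslope_off hzw]
  · intro z hz
    rw [hqe z hz z hz, dslope_same]

end Pool.Agent.H99S
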