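import Pool.Agent.H99S.Defs

/-!
# Riemann sums on circles

`riem1`: equally spaced sums converge to the circle average, with a uniform modulus.
If `f` is continuous on the circle `|z| = ρ` and `|f (ρ e^{iθ}) - f (ρ e^{iφ})| ≤ η` whenever
`|θ - φ| ≤ 2π / N`, then the `N`-th equally spaced mean differs from the average by at most `η`
(split `∫_0^{2π}` into `N` intervals).

`riem2`: for `K` continuous on `sphere × sphere` the double mean converges to `avg2 K ρ ρ'`
(uniform continuity; apply `riem1` first in the inner and then in the outer variable).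

`avg2_swap`: Fubini for continuous kernels.
-/

set_option autoImplicit false

open Complex ComplexConjugate Metric Set Filter Topology

namespace Pool.Agent.H99S

/-- The `k`-th of `N` equally spaced points of the circle of radius `ρ`. -/
noncomputable def pt (ρ : ℝ) (N k : ℕ) : ℂ := circleMap 0 ρ (2 * Real.pi * k / N)

private theorem pt_mem {ρ : ℝ} (hρ : 0 < ρ) (N k : ℕ) : pt ρ N k ∈ sphere (0 : ℂ) ρ :=
  circleMap_mem_sphere 0 hρ.le _

private theorem cont_comp {f : ℂ → ℂ} {ρ : ℝ} (hρ : 0 < ρ) (hf : ContinuousOn f (sphere 0 ρ)) :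
    Continuous (fun θ : ℝ => f (circleMap 0 ρ θ)) := by
  rw [← continuousOn_univ]
  exact hf.comp (continuous_circleMap 0 ρ).continuousOn
    (fun θ _ => circleMap_mem_sphere 0 hρ.le θ)

theorem riem1 {f : ℂ → ℂ} {ρ η : ℝ} (hρ : 0 < ρ) (hf : ContinuousOn f (sphere 0 ρ)) {N : ℕ}
    (hN : 0 < N)
    (hη : ∀ θ φ : ℝ, |θ - φ| ≤ 2 * Real.pi / N →
      ‖f (circleMap 0 ρ θ) - f (circleMap 0 ρ φ)‖ ≤ η) :
    ‖(1 / (N : ℂ)) * ∑ k ∈ Finset.range N, f (pt ρ N k) - Real.circleAverage f 0 ρ‖ ≤ η := by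
  have hc := cont_comp hρ hf
  have hNr : (0 : ℝ) < N := by exact_mod_cast hN
  have hpi : (0 : ℝ) < 2 * Real.pi := by positivity
  set a : ℕ → ℝ := fun k => 2 * Real.pi * k / N with ha
  have hstep : ∀ k, a (k + 1) - a k = 2 * Real.pi / N := by
    intro k; simp only [ha]; push_cast; ring
  have hle : ∀ k, a k ≤ a (k + 1) := by
    intro k
    have := hstep k
    have h2 : 0 ≤ 2 * Real.pi / N := by positivity
    linarith
  have hsum : ∑ k ∈ Finset.range N, ∫ θ in a k..a (k + 1), f (circleMap 0 ρ θ)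
      = ∫ θ in (0 : ℝ)..2 * Real.pi, f (circleMap 0 ρ θ) := by
    rw [intervalIntegral.sum_integral_adjacent_intervals
      (fun k _ => hc.intervalIntegrable _ _)]
    congr 1
    · simp [ha]
    · simp only [ha]; field_simp
  have hconst : ∀ k, ∫ θ in a k..a (k + 1), f (pt ρ N k)
      = ((2 * Real.pi / N : ℝ) : ℂ) * f (pt ρ N k) := by
    intro k
    rw [intervalIntegral.integral_const, hstep k]
    simp
  have hkey : ∀ k, ‖(∫ θ in a k..a (k + 1), f (pt ρ N k))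
      - ∫ θ in a k..a (k + 1), f (circleMap 0 ρ θ)‖ ≤ η * (2 * Real.pi / N) := by
    intro k
    rw [← intervalIntegral.integral_sub (by simp) (hc.intervalIntegrable _ _)]
    have := intervalIntegral.norm_integral_le_of_norm_le_const (a := a k) (b := a (k + 1))
      (f := fun θ => f (pt ρ N k) - f (circleMap 0 ρ θ)) (C := η) (by
        intro θ hθ
        rw [uIoc_of_le (hle k)] at hθ
        apply hη
        have h1 := hstep k
        rw [abs_le]
        constructor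
        · show -(2 * Real.pi / N) ≤ 2 * Real.pi * k / N - θ
          have := hθ.2
          have h3 : a k = 2 * Real.pi * k / N := rfl
          linarith
        · show 2 * Real.pi * k / N - θ ≤ 2 * Real.pi / N
          have := hθ.1
          have h3 : a k = 2 * Real.pi * k / N := rfl
          have h4 : 0 ≤ 2 * Real.pi / N := by positivity
          linarith)
    rwa [hstep k, abs_of_nonneg (by positivity)] at this
  have hrew : (1 / (N : ℂ)) * ∑ k ∈ Finset.range N, f (pt ρ N k) - Real.circleAverage f 0 ρ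
      = ((2 * Real.pi)⁻¹ : ℝ) • ∑ k ∈ Finset.range N, ((∫ θ in a k..a (k + 1), f (pt ρ N k))
      - ∫ θ in a k..a (k + 1), f (circleMap 0 ρ θ)) := by
    rw [Finset.sum_sub_distrib, hsum, Real.circleAverage_def, smul_sub]
    congr 1
    simp only [hconst]
    rw [← Finset.mul_sum, Complex.real_smul, ← mul_assoc]
    congr 1
    push_cast
    have h1 : (Real.pi : ℂ) ≠ 0 := by exact_mod_cast Real.pi_ne_zero
    have h2 : (N : ℂ) ≠ 0 := by exact_mod_cast hN.ne'
    field_simp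
  rw [hrew, norm_smul, Real.norm_of_nonneg (by positivity)]
  calc (2 * Real.pi)⁻¹ * ‖∑ k ∈ Finset.range N, ((∫ θ in a k..a (k + 1), f (pt ρ N k))
      - ∫ θ in a k..a (k + 1), f (circleMap 0 ρ θ))‖
      ≤ (2 * Real.pi)⁻¹ * ∑ k ∈ Finset.range N, η * (2 * Real.pi / N) := by
        gcongr
        exact (norm_sum_le _ _).trans (Finset.sum_le_sum fun k _ => hkey k)
    _ = η := by
        rw [Finset.sum_const, Finset.card_range, nsmul_eq_mul]
        field_simp

private theorem dist_cm (ρ : ℝ) (hρ : 0 < ρ) (θ φ : ℝ) :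
    dist (circleMap 0 ρ θ) (circleMap 0 ρ φ) ≤ ρ * |θ - φ| := by
  have h := (lipschitzWith_circleMap 0 ρ).dist_le_mul θ φ
  rw [Real.dist_eq] at h
  simpa [Real.coe_nnabs, abs_of_pos hρ] using h

private theorem avg_sub_le {f g : ℂ → ℂ} {ρ ε : ℝ} (hρ : 0 < ρ)
    (hf : ContinuousOn f (sphere 0 ρ)) (hg : ContinuousOn g (sphere 0 ρ))
    (h : ∀ z ∈ sphere (0 : ℂ) ρ, ‖f z - g z‖ ≤ ε) :
    ‖Real.circleAverage f 0 ρ - Real.circleAverage g 0 ρ‖ ≤ ε := by
  have hpi : (0 : ℝ) < 2 * Real.pi := by positivity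
  rw [Real.circleAverage_def, Real.circleAverage_def, ← smul_sub,
    ← intervalIntegral.integral_sub ((cont_comp hρ hf).intervalIntegrable _ _)
      ((cont_comp hρ hg).intervalIntegrable _ _), norm_smul, Real.norm_of_nonneg (by positivity)]
  have := intervalIntegral.norm_integral_le_of_norm_le_const (a := 0) (b := 2 * Real.pi)
      (f := fun θ => f (circleMap 0 ρ θ) - g (circleMap 0 ρ θ)) (C := ε)
      (fun θ _ => h _ (circleMap_mem_sphere 0 hρ.le θ))
  rw [sub_zero, abs_of_pos hpi] at this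
  calc (2 * Real.pi)⁻¹ * ‖∫ θ in (0 : ℝ)..2 * Real.pi, (f (circleMap 0 ρ θ)
        - g (circleMap 0 ρ θ))‖ ≤ (2 * Real.pi)⁻¹ * (ε * (2 * Real.pi)) := by gcongr
    _ = ε := by field_simp

theorem riem2 {K : ℂ → ℂ → ℂ} {ρ ρ' : ℝ} (hρ : 0 < ρ) (hρ' : 0 < ρ')
    (hK : ContinuousOn (Function.uncurry K) (sphere 0 ρ ×ˢ sphere 0 ρ')) :
    Tendsto (fun N : ℕ => (1 / (N : ℂ) ^ 2) * ∑ k ∈ Finset.range N, ∑ l ∈ Finset.range N,
      K (pt ρ N k) (pt ρ' N l)) atTop (𝓝 (avg2 K ρ ρ')) := by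
  have hcomp : IsCompact (sphere (0 : ℂ) ρ ×ˢ sphere (0 : ℂ) ρ') :=
    (isCompact_sphere _ _).prod (isCompact_sphere _ _)
  have huc := hcomp.uniformContinuousOn_of_continuous hK
  rw [Metric.uniformContinuousOn_iff_le] at huc
  -- continuity in each variable
  have hK2 : ∀ z ∈ sphere (0 : ℂ) ρ, ContinuousOn (K z) (sphere 0 ρ') := by
    intro z hz
    have : ContinuousOn (fun w => Function.uncurry K (z, w)) (sphere 0 ρ') :=
      hK.comp (by fun_prop) (fun w hw => ⟨hz, hw⟩)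
    exact this
  set A : ℂ → ℂ := fun z => Real.circleAverage (fun w => K z w) 0 ρ' with hA
  have hAmod : ∀ ε > 0, ∃ δ > 0, ∀ z ∈ sphere (0 : ℂ) ρ, ∀ z' ∈ sphere (0 : ℂ) ρ,
      dist z z' ≤ δ → ‖A z - A z'‖ ≤ ε := by
    intro ε hε
    obtain ⟨δ, hδ, h⟩ := huc ε hε
    refine ⟨δ, hδ, fun z hz z' hz' hd => ?_⟩
    apply avg_sub_le hρ' (hK2 z hz) (hK2 z' hz')
    intro w hw
    have := h (z, w) ⟨hz, hw⟩ (z', w) ⟨hz', hw⟩ (by
      rw [Prod.dist_eq]; simpa using hd)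
    rwa [dist_eq_norm] at this
  have hAc : ContinuousOn A (sphere 0 ρ) := by
    rw [Metric.continuousOn_iff]
    intro z hz ε hε
    obtain ⟨δ, hδ, h⟩ := hAmod (ε / 2) (by positivity)
    exact ⟨δ, hδ, fun z' hz' hd => by
      rw [dist_eq_norm]
      exact lt_of_le_of_lt (h z' hz' z hz hd.le) (by linarith)⟩
  rw [Metric.tendsto_atTop]
  intro ε hε
  obtain ⟨δ₁, hδ₁, h₁⟩ := huc (ε / 4) (by positivity)
  obtain ⟨δ₂, hδ₂, h₂⟩ := hAmod (ε / 4) (by positivity)
  have hpi : (0 : ℝ) < 2 * Real.pi := by positivity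
  obtain ⟨N₀, hN₀⟩ := exists_nat_gt ((ρ + ρ') * (2 * Real.pi) / min δ₁ δ₂)
  refine ⟨N₀ + 1, fun N hN => ?_⟩
  have hNpos : 0 < N := by omega
  have hNr : (0 : ℝ) < N := by exact_mod_cast hNpos
  have hmin : 0 < min δ₁ δ₂ := lt_min hδ₁ hδ₂
  have hbig : (ρ + ρ') * (2 * Real.pi / N) ≤ min δ₁ δ₂ := by
    have h3 : (N₀ : ℝ) ≤ N := by exact_mod_cast (by omega : N₀ ≤ N)
    have h4 : (ρ + ρ') * (2 * Real.pi) / min δ₁ δ₂ < N := lt_of_lt_of_le hN₀ h3
    rw [div_lt_iff₀ hmin] at h4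
    rw [← mul_div_assoc, div_le_iff₀ hNr]
    linarith
  have hsmall1 : ρ * (2 * Real.pi / N) ≤ min δ₁ δ₂ := by
    have : 0 ≤ ρ' * (2 * Real.pi / N) := by positivity
    linarith [hbig, add_mul ρ ρ' (2 * Real.pi / N)]
  have hsmall2 : ρ' * (2 * Real.pi / N) ≤ min δ₁ δ₂ := by
    have : 0 ≤ ρ * (2 * Real.pi / N) := by positivity
    linarith [hbig, add_mul ρ ρ' (2 * Real.pi / N)]
  have hin : ∀ z ∈ sphere (0 : ℂ) ρ,
      ‖(1 / (N : ℂ)) * ∑ l ∈ Finset.range N, K z (pt ρ' N l) - A z‖ ≤ ε / 4 := by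
    intro z hz
    apply riem1 hρ' (hK2 z hz) hNpos
    intro θ φ hθφ
    have hd : dist (circleMap 0 ρ' θ) (circleMap 0 ρ' φ) ≤ δ₁ := by
      refine (dist_cm ρ' hρ' θ φ).trans ?_
      calc ρ' * |θ - φ| ≤ ρ' * (2 * Real.pi / N) := by gcongr
        _ ≤ δ₁ := hsmall2.trans (min_le_left _ _)
    have := h₁ (z, circleMap 0 ρ' θ) ⟨hz, circleMap_mem_sphere 0 hρ'.le θ⟩
      (z, circleMap 0 ρ' φ) ⟨hz, circleMap_mem_sphere 0 hρ'.le φ⟩ (by
        rw [Prod.dist_eq]; simpa using hd)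
    rwa [dist_eq_norm] at this
  have hout : ‖(1 / (N : ℂ)) * ∑ k ∈ Finset.range N, A (pt ρ N k)
      - Real.circleAverage A 0 ρ‖ ≤ ε / 4 := by
    apply riem1 hρ hAc hNpos
    intro θ φ hθφ
    apply h₂ _ (circleMap_mem_sphere 0 hρ.le θ) _ (circleMap_mem_sphere 0 hρ.le φ)
    refine (dist_cm ρ hρ θ φ).trans ?_
    calc ρ * |θ - φ| ≤ ρ * (2 * Real.pi / N) := by gcongr
      _ ≤ δ₂ := hsmall1.trans (min_le_right _ _)
  have hNc : (N : ℂ) ≠ 0 := by exact_mod_cast hNpos.ne'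
  have hrw : (1 / (N : ℂ) ^ 2) * ∑ k ∈ Finset.range N, ∑ l ∈ Finset.range N,
      K (pt ρ N k) (pt ρ' N l) - avg2 K ρ ρ'
      = (1 / (N : ℂ)) * ∑ k ∈ Finset.range N,
        ((1 / (N : ℂ)) * ∑ l ∈ Finset.range N, K (pt ρ N k) (pt ρ' N l) - A (pt ρ N k))
      + ((1 / (N : ℂ)) * ∑ k ∈ Finset.range N, A (pt ρ N k) - Real.circleAverage A 0 ρ) := by
    rw [Finset.sum_sub_distrib, ← Finset.mul_sum]
    simp only [avg2, hA]
    field_simp
    ring
  rw [dist_eq_norm, hrw]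
  have hfirst : ‖(1 / (N : ℂ)) * ∑ k ∈ Finset.range N,
        ((1 / (N : ℂ)) * ∑ l ∈ Finset.range N, K (pt ρ N k) (pt ρ' N l) - A (pt ρ N k))‖
        ≤ ε / 4 := by
    rw [norm_mul, norm_div, norm_one, Complex.norm_natCast]
    calc 1 / (N : ℝ) * ‖∑ k ∈ Finset.range N,
        ((1 / (N : ℂ)) * ∑ l ∈ Finset.range N, K (pt ρ N k) (pt ρ' N l) - A (pt ρ N k))‖
        ≤ 1 / (N : ℝ) * ∑ k ∈ Finset.range N, ε / 4 := by
          gcongr
          exact (norm_sum_le _ _).trans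
            (Finset.sum_le_sum fun k _ => hin _ (pt_mem hρ N k))
      _ = ε / 4 := by
          rw [Finset.sum_const, Finset.card_range, nsmul_eq_mul]
          field_simp
  calc _ ≤ ε / 4 + ε / 4 := (norm_add_le _ _).trans (add_le_add hfirst hout)
    _ < ε := by linarith

theorem avg2_swap {K : ℂ → ℂ → ℂ} {ρ ρ' : ℝ} (hρ : 0 < ρ) (hρ' : 0 < ρ')
    (hK : ContinuousOn (Function.uncurry K) (sphere 0 ρ ×ˢ sphere 0 ρ')) :
    avg2 K ρ ρ' = avg2 (fun w z => K z w) ρ' ρ := by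
  have hK' : ContinuousOn (Function.uncurry (fun w z => K z w)) (sphere 0 ρ' ×ˢ sphere 0 ρ) := by
    have : ContinuousOn (fun q : ℂ × ℂ => Function.uncurry K (q.2, q.1))
        (sphere 0 ρ' ×ˢ sphere 0 ρ) :=
      hK.comp (by fun_prop) (fun q hq => ⟨hq.2, hq.1⟩)
    exact this
  have h1 := riem2 hρ hρ' hK
  have h2 := riem2 hρ' hρ hK'
  refine tendsto_nhds_unique h1 (h2.congr fun N => ?_)
  rw [Finset.sum_comm]

end Pool.Agent.H99S
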