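import Pool.Agent.H99S.Sph
import Pool.Agent.H99S.Gap
import Pool.Agent.H99.Circ.Defs

/-!
# Circular sections of the level sets

`s = h 0 > 0`, `r > 0`, `c = (r + s²) / (2 √r s) * tanh lam > 0`.

For `z, w` in `ball 0 (exp (-lam))`, `(1 - ‖z‖²) / (1 + ‖z‖²) > tanh lam`.  If
`‖h z‖ = ‖h w‖ = √r`, `sph` gives `tanh lam * (r + s²) < s * ‖h z + h w‖`.

`section_point`: take `w = z`.

`section_bound`: let `A = {p : ℝ | √r e^{ip} ∈ h '' ball 0 (exp (-lam))}` (open, `2π`-periodic).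
For `p, q ∈ A`: `‖√r e^{ip} + √r e^{iq}‖ = 2 √r |cos ((p - q) / 2)|`, so `gap` applies:
`|A ∩ (-π, π]| ≤ 2 arccos c`.  A number `θ` belongs to
`E = {θ | r e^{iθ} ∈ (h ^ 2) '' ball 0 (exp (-lam))}` iff `θ/2 ∈ A` or `θ/2 + π ∈ A` (never both as
`h z + h w ≠ 0`), so `|E ∩ (-π, π]| = 2 |A ∩ (-π/2, π/2]| + 2 |A ∩ (π/2, 3π/2]|
= 2 |A ∩ (-π, π]|`.
-/

set_option autoImplicit false

open Complex ComplexConjugate Metric Set Filter Topology

namespace Pool.Agent.H99S

open Pool.Agent.H99.Circ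

variable {h : ℂ → ℂ} {s lam r : ℝ}

theorem tanh_pos' (hlam : 0 < lam) : 0 < Real.tanh lam := by
  rw [Real.tanh_eq_sinh_div_cosh]
  exact div_pos (Real.sinh_pos_iff.mpr hlam) (Real.cosh_pos _)

theorem tanh_lt {z : ℂ} (hz : z ∈ ball (0 : ℂ) (Real.exp (-lam))) :
    Real.tanh lam * (1 + ‖z‖ ^ 2) < 1 - ‖z‖ ^ 2 := by
  have hz1 : ‖z‖ < Real.exp (-lam) := by simpa using hz
  have h0 := norm_nonneg z
  have hq : ‖z‖ ^ 2 < Real.exp (-lam) ^ 2 := by
    gcongr
  have h1 : Real.exp lam * Real.exp (-lam) = 1 := by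
    rw [← Real.exp_add]; simp
  have hpos := Real.exp_pos lam
  have hpos' := Real.exp_pos (-lam)
  rw [Real.tanh_eq_sinh_div_cosh, Real.sinh_eq, Real.cosh_eq]
  rw [div_mul_eq_mul_div, div_lt_iff₀ (by positivity)]
  have e1 : (1 - Real.exp (-lam) ^ 2) * Real.exp lam = Real.exp lam - Real.exp (-lam) := by
    have : Real.exp (-lam) ^ 2 * Real.exp lam
      = Real.exp (-lam) * (Real.exp lam * Real.exp (-lam)) := by ring
    rw [sub_mul, this, h1]; ring
  nlinarith [mul_lt_mul_of_pos_right hq hpos]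

theorem section_sep (hh : Gelfer h) (hs : 0 < s) (h0 : h 0 = s) (hlam : 0 < lam) (hr : 0 < r)
    {z w : ℂ} (hz : z ∈ ball (0 : ℂ) (Real.exp (-lam))) (hw : w ∈ ball (0 : ℂ) (Real.exp (-lam)))
    (hz' : ‖h z‖ = Real.sqrt r) (hw' : ‖h w‖ = Real.sqrt r) :
    Real.tanh lam * (r + s ^ 2) < s * ‖h z + h w‖ := by
  have he : Real.exp (-lam) < 1 := by
    rw [Real.exp_lt_one_iff]; linarith
  have hz1 : ‖z‖ < 1 := lt_trans (by simpa using hz) he
  have hw1 : ‖w‖ < 1 := lt_trans (by simpa using hw) he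
  have hS := sph hh hz1 hw1
  have hn0 : ‖h 0‖ = s := by rw [h0, Complex.norm_real, Real.norm_of_nonneg hs.le]
  rw [hz', hw', hn0, Real.sq_sqrt hr.le] at hS
  have ht := tanh_pos' hlam
  have t1 := tanh_lt hz
  have t2 := tanh_lt hw
  have hP : 0 < (1 + ‖z‖ ^ 2) * (1 + ‖w‖ ^ 2) := by positivity
  have h3 : (Real.tanh lam * (r + s ^ 2)) ^ 2 * ((1 + ‖z‖ ^ 2) * (1 + ‖w‖ ^ 2)) <
      (s * ‖h z + h w‖) ^ 2 * ((1 + ‖z‖ ^ 2) * (1 + ‖w‖ ^ 2)) := by
    have h4 : (Real.tanh lam * (1 + ‖z‖ ^ 2)) * (Real.tanh lam * (1 + ‖w‖ ^ 2)) <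
        (1 - ‖z‖ ^ 2) * (1 - ‖w‖ ^ 2) :=
      mul_lt_mul'' t1 t2 (by positivity) (by positivity)
    have h5 : 0 < (r + s ^ 2) ^ 2 := by positivity
    nlinarith [mul_lt_mul_of_pos_right h4 h5]
  have h6 := lt_of_mul_lt_mul_right h3 hP.le
  exact lt_of_pow_lt_pow_left₀ 2 (by positivity) h6

theorem section_point (hh : Gelfer h) (hs : 0 < s) (h0 : h 0 = s) (hlam : 0 < lam) (hr : 0 < r)
    {z : ℂ} (hz : z ∈ ball (0 : ℂ) (Real.exp (-lam))) (hz' : ‖h z‖ = Real.sqrt r) :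
    (r + s ^ 2) / (2 * Real.sqrt r * s) * Real.tanh lam < 1 := by
  have h1 := section_sep hh hs h0 hlam hr hz hz hz' hz'
  have h2 : ‖h z + h z‖ = 2 * Real.sqrt r := by
    rw [← two_mul, norm_mul, hz']; simp
  rw [h2] at h1
  have hsr := Real.sqrt_pos.mpr hr
  rw [div_mul_eq_mul_div, div_lt_one (by positivity)]
  linarith

theorem norm_exp_add_exp (p q : ℝ) :
    ‖Complex.exp (p * I) + Complex.exp (q * I)‖ = 2 * |Real.cos ((p - q) / 2)| := by
  have h1 : Complex.exp (p * I) + Complex.exp (q * I) =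
      Complex.exp (((p + q) / 2 : ℝ) * I) * (2 * (Real.cos ((p - q) / 2) : ℂ)) := by
    rw [Complex.ofReal_cos, Complex.two_cos, mul_add, ← Complex.exp_add, ← Complex.exp_add]
    congr 1
    · congr 1; push_cast; ring
    · congr 1; push_cast; ring
  rw [h1, norm_mul, Complex.norm_exp_ofReal_mul_I, one_mul, norm_mul, Complex.norm_real,
    Real.norm_eq_abs]
  simp

theorem section_bound (hh : Gelfer h) (hs : 0 < s) (h0 : h 0 = s) (hlam : 0 < lam)
    (hr : 0 < r) :
    angLen ((fun z => h z ^ 2) '' ball 0 (Real.exp (-lam))) r ≤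
      4 * Real.arccos ((r + s ^ 2) / (2 * Real.sqrt r * s) * Real.tanh lam) := by
  have hpi := Real.pi_pos
  have he : Real.exp (-lam) < 1 := by
    rw [Real.exp_lt_one_iff]; linarith
  have hsub : ball (0 : ℂ) (Real.exp (-lam)) ⊆ ball 0 1 := ball_subset_ball he.le
  have hsr := Real.sqrt_pos.mpr hr
  set c := (r + s ^ 2) / (2 * Real.sqrt r * s) * Real.tanh lam with hc
  have hc0 : 0 < c := by
    have := tanh_pos' hlam
    positivity
  set U : Set ℂ := h '' ball 0 (Real.exp (-lam)) with hU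
  have hUo : IsOpen U := by
    have h1 : AnalyticOnNhd ℂ h (ball 0 1) := hh.diff.analyticOnNhd isOpen_ball
    rcases h1.is_constant_or_isOpen (convex_ball _ _).isPreconnected with ⟨w, hw⟩ | h2
    · exfalso
      have e1 := hw 0 (by simp)
      have e2 := hw (1 / 2) (by simp; norm_num)
      have := hh.inj (by simp : (0 : ℂ) ∈ ball 0 1)
        (by simp; norm_num : (1 / 2 : ℂ) ∈ ball 0 1) (e1.trans e2.symm)
      norm_num at this
    · exact h2 _ hsub isOpen_ball
  set A : Set ℝ := (fun p : ℝ => (Real.sqrt r : ℂ) * Complex.exp (p * I)) ⁻¹' U with hA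
  have hAm : MeasurableSet A := by
    refine (hUo.preimage ?_).measurableSet
    fun_prop
  have hper : ∀ x, x ∈ A ↔ x + 2 * Real.pi ∈ A := by
    intro x
    have : Complex.exp (((x + 2 * Real.pi : ℝ) : ℂ) * I) = Complex.exp (x * I) := by
      have e : ((x + 2 * Real.pi : ℝ) : ℂ) * I = x * I + 2 * Real.pi * I := by push_cast; ring
      rw [e, Complex.exp_periodic]
    simp only [hA, mem_preimage, this]
  have hsep : ∀ p ∈ A, ∀ q ∈ A, c ≤ |Real.cos ((p - q) / 2)| := by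
    rintro p ⟨z, hz, hzp⟩ q ⟨w, hw, hwq⟩
    have e1 : ‖h z‖ = Real.sqrt r := by
      rw [hzp, norm_mul, Complex.norm_exp_ofReal_mul_I, Complex.norm_real,
        Real.norm_of_nonneg hsr.le, mul_one]
    have e2 : ‖h w‖ = Real.sqrt r := by
      rw [hwq, norm_mul, Complex.norm_exp_ofReal_mul_I, Complex.norm_real,
        Real.norm_of_nonneg hsr.le, mul_one]
    have h1 := section_sep hh hs h0 hlam hr hz hw e1 e2
    rw [hzp, hwq] at h1
    simp only at h1
    rw [← mul_add, norm_mul, norm_exp_add_exp, Complex.norm_real,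
        Real.norm_of_nonneg hsr.le] at h1
    rw [hc, div_mul_eq_mul_div, div_le_iff₀ (by positivity)]
    nlinarith
  have hgap := gap hAm hper hc0 hsep
  -- the set of angles
  have hT : {θ : ℝ | -Real.pi < θ ∧ θ ≤ Real.pi ∧
        (r : ℂ) * Complex.exp (θ * I) ∈ (fun z => h z ^ 2) '' ball 0 (Real.exp (-lam))} ⊆
      (fun x : ℝ => (1 / 2) * x) ⁻¹' (A ∩ Ioc (-(Real.pi / 2)) (Real.pi / 2)) ∪
      (fun x : ℝ => (1 / 2) * x) ⁻¹' ((fun x : ℝ => x + Real.pi) ⁻¹'
        (A ∩ Ioc (Real.pi / 2) (3 * Real.pi / 2))) := by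
    rintro θ ⟨h1, h2, z, hz, hzθ⟩
    simp only at hzθ
    have e1 : (h z) ^ 2 = ((Real.sqrt r : ℂ) * Complex.exp (((1 / 2 * θ : ℝ) : ℂ) * I)) ^ 2 := by
      rw [hzθ, mul_pow, ← Complex.exp_nat_mul, ← Complex.ofReal_pow, Real.sq_sqrt hr.le]
      congr 2
      push_cast; ring
    rcases sq_eq_sq_iff_eq_or_eq_neg.mp e1 with h3 | h3
    · left
      refine ⟨⟨z, hz, h3⟩, ?_, ?_⟩
      · show -(Real.pi / 2) < 1 / 2 * θ
        linarith
      · show 1 / 2 * θ ≤ Real.pi / 2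
        linarith
    · right
      refine ⟨⟨z, hz, ?_⟩, ?_, ?_⟩
      · rw [h3]
        show _ = (Real.sqrt r : ℂ) * Complex.exp (((1 / 2 * θ + Real.pi : ℝ) : ℂ) * I)
        have e : (((1 / 2 * θ + Real.pi : ℝ) : ℂ) * I) =
          ((1 / 2 * θ : ℝ) : ℂ) * I + Real.pi * I := by push_cast; ring
        rw [e, Complex.exp_add, Complex.exp_pi_mul_I]; ring
      · show Real.pi / 2 < 1 / 2 * θ + Real.pi
        linarith
      · show 1 / 2 * θ + Real.pi ≤ 3 * Real.pi / 2
        linarith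
  have hvol : MeasureTheory.volume {θ : ℝ | -Real.pi < θ ∧ θ ≤ Real.pi ∧
        (r : ℂ) * Complex.exp (θ * I) ∈ (fun z => h z ^ 2) '' ball 0 (Real.exp (-lam))} ≤
      ENNReal.ofReal (4 * Real.arccos c) := by
    calc _ ≤ _ := MeasureTheory.measure_mono hT
      _ ≤ _ := MeasureTheory.measure_union_le _ _
      _ = ENNReal.ofReal 2 * MeasureTheory.volume (A ∩ Ioc (-(Real.pi / 2)) (Real.pi / 2)) +
          ENNReal.ofReal 2 *
            MeasureTheory.volume (A ∩ Ioc (Real.pi / 2) (3 * Real.pi / 2)) := by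
          rw [Real.volume_preimage_mul_left (by norm_num), Real.volume_preimage_mul_left
            (by norm_num), MeasureTheory.measure_preimage_add_right]
          norm_num
      _ = ENNReal.ofReal 2 * MeasureTheory.volume (A ∩ Ioc (-(Real.pi / 2)) (-(Real.pi / 2) + 2 * Real.pi)) := by
          rw [← mul_add, ← MeasureTheory.measure_union]
          · rw [← inter_union_distrib_left, Ioc_union_Ioc_eq_Ioc (by linarith) (by linarith)]
            congr 4; ring
          · refine Disjoint.mono inter_subset_right inter_subset_right ?_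
            rw [Set.disjoint_left]
            rintro x ⟨_, h1⟩ ⟨h2, _⟩
            linarith
          · exact hAm.inter measurableSet_Ioc
      _ = ENNReal.ofReal 2 * MeasureTheory.volume (A ∩ Ioc (-Real.pi) (Real.pi)) := by
          rw [vol_period hAm hper (-(Real.pi / 2)) (-Real.pi)]
          congr 4; ring
      _ ≤ ENNReal.ofReal 2 * ENNReal.ofReal (2 * Real.arccos c) := by gcongr
      _ = ENNReal.ofReal (4 * Real.arccos c) := by
          rw [← ENNReal.ofReal_mul (by norm_num)]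
          congr 1; ring
  unfold angLen
  refine ENNReal.toReal_le_of_le_ofReal ?_ hvol
  have := Real.arccos_nonneg c
  positivity

end Pool.Agent.H99S
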