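import Pool.Agent.H99S.SphCore

/-!
# The spherical inequality for Gelfer functions
-/

set_option autoImplicit false

open Complex ComplexConjugate Metric Set Filter Topology

namespace Pool.Agent.H99S

lemma ev_ne (ζ α : ℂ) (hα : α ≠ 0) : ∀ᶠ t : ℝ in 𝓝[>] 0, ζ + t * α ≠ 0 := by
  by_cases hζ : ζ = 0
  · filter_upwards [self_mem_nhdsWithin] with t ht
    rw [hζ, zero_add]
    exact mul_ne_zero (by exact_mod_cast ht.ne') hα
  · have hc : ContinuousAt (fun t : ℝ => ζ + t * α) 0 := by fun_prop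
    have h0 : (fun t : ℝ => ζ + t * α) 0 ≠ 0 := by simpa using hζ
    exact (hc.eventually_ne h0).filter_mono nhdsWithin_le_nhds

theorem sph {h : ℂ → ℂ} (hh : Gelfer h) {z w : ℂ} (hz : ‖z‖ < 1) (hw : ‖w‖ < 1) :
    (1 - ‖z‖ ^ 2) * (1 - ‖w‖ ^ 2) * ((‖h z‖ ^ 2 + ‖h 0‖ ^ 2) * (‖h w‖ ^ 2 + ‖h 0‖ ^ 2)) ≤
      ‖h 0‖ ^ 2 * ‖h z + h w‖ ^ 2 * ((1 + ‖z‖ ^ 2) * (1 + ‖w‖ ^ 2)) := by
  have cz : ContinuousAt (fun t : ℝ => z + t * 1) 0 := by fun_prop
  have cw : ContinuousAt (fun t : ℝ => w + t * I) 0 := by fun_prop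
  have mz : z ∈ ball (0 : ℂ) 1 := by simpa using hz
  have mw : w ∈ ball (0 : ℂ) 1 := by simpa using hw
  have hcz : ContinuousAt h z := (hh.diff.differentiableAt (isOpen_ball.mem_nhds mz)).continuousAt
  have hcw : ContinuousAt h w := (hh.diff.differentiableAt (isOpen_ball.mem_nhds mw)).continuousAt
  have z0 : z + (0 : ℝ) * (1 : ℂ) = z := by simp
  have w0 : w + (0 : ℝ) * I = w := by simp
  have chz : ContinuousAt (fun t : ℝ => h (z + t * 1)) 0 := by
    apply ContinuousAt.comp (g := h) (f := fun t : ℝ => z + t * 1) _ cz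
    rw [z0]; exact hcz
  have chw : ContinuousAt (fun t : ℝ => h (w + t * I)) 0 := by
    apply ContinuousAt.comp (g := h) (f := fun t : ℝ => w + t * I) _ cw
    rw [w0]; exact hcw
  have cl : ContinuousAt (fun t : ℝ => (1 - ‖z + t * 1‖ ^ 2) * (1 - ‖w + t * I‖ ^ 2) *
      ((‖h (z + t * 1)‖ ^ 2 + ‖h 0‖ ^ 2) * (‖h (w + t * I)‖ ^ 2 + ‖h 0‖ ^ 2))) 0 :=
    ((continuousAt_const.sub (cz.norm.pow 2)).mul (continuousAt_const.sub (cw.norm.pow 2))).mul
      (((chz.norm.pow 2).add continuousAt_const).mul ((chw.norm.pow 2).add continuousAt_const))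
  have cr : ContinuousAt (fun t : ℝ => ‖h 0‖ ^ 2 * ‖h (z + t * 1) + h (w + t * I)‖ ^ 2 *
      ((1 + ‖z + t * 1‖ ^ 2) * (1 + ‖w + t * I‖ ^ 2))) 0 :=
    (continuousAt_const.mul ((chz.add chw).norm.pow 2)).mul
      ((continuousAt_const.add (cz.norm.pow 2)).mul (continuousAt_const.add (cw.norm.pow 2)))
  have tl := cl.tendsto.mono_left (nhdsWithin_le_nhds (s := Ioi (0 : ℝ)))
  have tr := cr.tendsto.mono_left (nhdsWithin_le_nhds (s := Ioi (0 : ℝ)))
  simp only [z0, w0] at tl tr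
  apply le_of_tendsto_of_tendsto tl tr
  have hzb : ∀ᶠ t : ℝ in 𝓝[>] 0, ‖z + t * 1‖ < 1 := by
    apply Filter.Eventually.filter_mono nhdsWithin_le_nhds
    apply cz.norm.eventually_lt continuousAt_const
    rw [z0]; exact hz
  have hwb : ∀ᶠ t : ℝ in 𝓝[>] 0, ‖w + t * I‖ < 1 := by
    apply Filter.Eventually.filter_mono nhdsWithin_le_nhds
    apply cw.norm.eventually_lt continuousAt_const
    rw [w0]; exact hw
  have hzw : (1 : ℂ) - I ≠ 0 := by
    intro hc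
    have := congrArg Complex.re hc
    simp at this
  filter_upwards [hzb, hwb, ev_ne z 1 one_ne_zero, ev_ne w I I_ne_zero, ev_ne (z - w) (1 - I) hzw]
    with t h1 h2 h3 h4 h5
  apply sph_core hh h1 h2 h3 h4
  intro hc
  apply h5
  linear_combination hc

end Pool.Agent.H99S
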