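import Pool.Agent.H99S.Energy
import Pool.Agent.H99S.Logs
import Pool.Agent.H99S.Alg

/-!
# The spherical inequality for Gelfer functions, distinct nonzero points
-/

set_option autoImplicit false

open Complex ComplexConjugate Metric Set Filter Topology

namespace Pool.Agent.H99S

/-- `log |b'(0)| ≤ 0`. -/
lemma L_nonneg {h : ℂ → ℂ} (hh : Gelfer h) {Lp Lq : ℂ → ℂ → ℂ} (hL : Logs h Lp Lq) :
    0 ≤ (Lp 0 0 - Lq 0 0).re := by
  by_contra hcon
  push Not at hcon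
  set P : ℝ := (Lp 0 0 - Lq 0 0).re with hP
  have key := fun t : ℝ => energy_odd hh hL (a := 0) (b := 0) (by simp) (by simp) (t : ℂ)
  simp only [norm_zero, ne_eq, OfNat.ofNat_ne_zero, not_false_eq_true, zero_pow, sub_zero,
    Real.log_one, mul_zero, conj_ofReal, re_ofReal_mul, Complex.norm_real, Real.norm_eq_abs,
    sq_abs] at key
  rw [← hP] at key
  have h1 := key 0
  have h2 := key (-1)
  have h3 := key (4 : ℝ)
  nlinarith

theorem sph_core {h : ℂ → ℂ} (hh : Gelfer h) {u v : ℂ} (hu : ‖u‖ < 1) (hv : ‖v‖ < 1)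
    (hu0 : u ≠ 0) (hv0 : v ≠ 0) (huv : u ≠ v) :
    (1 - ‖u‖ ^ 2) * (1 - ‖v‖ ^ 2) * ((‖h u‖ ^ 2 + ‖h 0‖ ^ 2) * (‖h v‖ ^ 2 + ‖h 0‖ ^ 2)) ≤
      ‖h 0‖ ^ 2 * ‖h u + h v‖ ^ 2 * ((1 + ‖u‖ ^ 2) * (1 + ‖v‖ ^ 2)) := by
  obtain ⟨Lp, Lq, hL⟩ := exists_logs hh
  have m0 : (0 : ℂ) ∈ ball (0 : ℂ) 1 := by simp
  have mu : u ∈ ball (0 : ℂ) 1 := by simpa using hu
  have mv : v ∈ ball (0 : ℂ) 1 := by simpa using hv
  have hu' : 0 < ‖u‖ := norm_pos_iff.mpr hu0
  have hv' : 0 < ‖v‖ := norm_pos_iff.mpr hv0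
  -- the values of the exponentials
  have p00 := hL.ep 0 m0 0 m0
  have p0u := hL.ep 0 m0 u mu
  have p0v := hL.ep 0 m0 v mv
  have puv := hL.ep u mu v mv
  have q0u := hL.eq 0 m0 u mu hu0.symm
  have q0v := hL.eq 0 m0 v mv hv0.symm
  have quv := hL.eq u mu v mv huv
  -- nonvanishing
  have n00 : h 0 ≠ 0 := by
    intro hz
    apply hh.sum_ne 0 m0 0 m0
    rw [hz]; simp
  have n0u := hh.sum_ne 0 m0 u mu
  have n0v := hh.sum_ne 0 m0 v mv
  have nuv := hh.sum_ne u mu v mv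
  have du : h u - h 0 ≠ 0 := by
    intro hz
    exact hu0 (hh.inj mu m0 (sub_eq_zero.mp hz))
  have dv : h v - h 0 ≠ 0 := by
    intro hz
    exact hv0 (hh.inj mv m0 (sub_eq_zero.mp hz))
  have duv : h u - h v ≠ 0 := by
    intro hz
    exact huv (hh.inj mu mv (sub_eq_zero.mp hz))
  -- β
  set β₁ : ℂ := -(Lp 0 u - Lq 0 u) with hβ₁
  set β₂ : ℂ := -(Lp 0 v - Lq 0 v) with hβ₂
  have e1 : u * exp β₁ = (h u - h 0) / (h u + h 0) := by
    rw [hβ₁, neg_sub, exp_sub, p0u, q0u]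
    have : (0 : ℂ) - u ≠ 0 := by simpa using hu0
    have n0u' : h u + h 0 ≠ 0 := by rw [add_comm]; exact n0u
    field_simp
    ring
  have e2 : v * exp β₂ = (h v - h 0) / (h v + h 0) := by
    rw [hβ₂, neg_sub, exp_sub, p0v, q0v]
    have : (0 : ℂ) - v ≠ 0 := by simpa using hv0
    have n0v' : h v + h 0 ≠ 0 := by rw [add_comm]; exact n0v
    field_simp
    ring
  have n0u' : h u + h 0 ≠ 0 := by rw [add_comm]; exact n0u
  have n0v' : h v + h 0 ≠ 0 := by rw [add_comm]; exact n0v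
  have ediff : u * exp β₁ - v * exp β₂ = 2 * h 0 * (h u - h v) / ((h u + h 0) * (h v + h 0)) := by
    rw [e1, e2]
    field_simp
    ring
  have hbne : u * exp β₁ ≠ v * exp β₂ := by
    rw [← sub_ne_zero, ediff]
    exact div_ne_zero (mul_ne_zero (mul_ne_zero two_ne_zero n00) duv) (mul_ne_zero n0u' n0v')
  -- norms as exponentials of real parts
  have P00 : Real.log ‖2 * h 0‖ = (Lp 0 0).re := by
    rw [show 2 * h 0 = h 0 + h 0 by ring, ← p00, Complex.norm_exp, Real.log_exp]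
  have P0u : Real.log ‖h u + h 0‖ = (Lp 0 u).re := by
    rw [add_comm, ← p0u, Complex.norm_exp, Real.log_exp]
  have P0v : Real.log ‖h v + h 0‖ = (Lp 0 v).re := by
    rw [add_comm, ← p0v, Complex.norm_exp, Real.log_exp]
  have Puv : Real.log ‖h u + h v‖ = (Lp u v).re := by
    rw [← puv, Complex.norm_exp, Real.log_exp]
  have Quv : Real.log ‖(h u - h v) / (u - v)‖ = (Lq u v).re := by
    rw [← quv, Complex.norm_exp, Real.log_exp]
  set s : ℝ := β₁.re + β₂.re with hs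
  set ω : ℝ := β₁.im - β₂.im with hω
  set D : ℝ := Real.log (‖u * exp β₁ - v * exp β₂‖ / ‖u - v‖) with hD
  set K : ℝ := -Real.log (1 - ‖u‖ ^ 2) - Real.log (1 - ‖v‖ ^ 2) with hK
  have nn1 : (0 : ℝ) < ‖u - v‖ := norm_pos_iff.mpr (sub_ne_zero.mpr huv)
  have nh0 : (0 : ℝ) < ‖2 * h 0‖ := norm_pos_iff.mpr (mul_ne_zero two_ne_zero n00)
  have nhu : (0 : ℝ) < ‖h u + h 0‖ := norm_pos_iff.mpr n0u'
  have nhv : (0 : ℝ) < ‖h v + h 0‖ := norm_pos_iff.mpr n0v'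
  have nhuv : (0 : ℝ) < ‖h u + h v‖ := norm_pos_iff.mpr nuv
  have ndu : (0 : ℝ) < ‖h u - h v‖ := norm_pos_iff.mpr duv
  have eD : D = (Lp 0 0).re + (Lq u v).re - (Lp 0 u).re - (Lp 0 v).re := by
    rw [hD, ediff, norm_div, norm_mul (2 * h 0) (h u - h v), norm_mul (h u + h 0) (h v + h 0),
      ← P00, ← Quv, ← P0u, ← P0v, norm_div]
    rw [Real.log_div (by positivity) (by positivity), Real.log_div (by positivity) (by positivity),
      Real.log_mul (by positivity) (by positivity), Real.log_mul (by positivity) (by positivity),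
      Real.log_div (by positivity) (by positivity)]
    ring
  have es : s = -((Lp 0 u).re - (Lq 0 u).re) - ((Lp 0 v).re - (Lq 0 v).re) := by
    rw [hs, hβ₁, hβ₂]; simp; ring
  set x : ℝ := K + 2 * ((Lp 0 0).re + (Lp u v).re - (Lp 0 u).re - (Lp 0 v).re) with hx
  have hLn := L_nonneg hh hL
  have hstar : s + Real.sqrt (s ^ 2 + ω ^ 2 + (2 * D - s) ^ 2) ≤ x := by
    apply star (L := (Lp 0 0 - Lq 0 0).re) hLn
    · intro κ hκ
      have h1 := energy_odd hh hL hu hv (-(κ : ℂ) * ((s : ℂ) - ω * I))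
      have hn : ‖-(κ : ℂ) * ((s : ℂ) - ω * I)‖ ^ 2 = κ ^ 2 * (s ^ 2 + ω ^ 2) := by
        rw [norm_mul, mul_pow, norm_neg, Complex.norm_real, Real.norm_eq_abs, sq_abs]
        congr 1
        rw [← Complex.normSq_eq_norm_sq, Complex.normSq_apply]
        simp
        ring
      rw [hn] at h1
      have h2 : (-(κ : ℂ) * ((s : ℂ) - ω * I) * (Lp 0 u - Lq 0 u)).re +
          (conj (-(κ : ℂ) * ((s : ℂ) - ω * I)) * (Lp 0 v - Lq 0 v)).re = κ * (s ^ 2 + ω ^ 2) := by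
        have a1 : Lp 0 u - Lq 0 u = -β₁ := by rw [hβ₁]; ring
        have a2 : Lp 0 v - Lq 0 v = -β₂ := by rw [hβ₂]; ring
        rw [a1, a2]
        simp only [map_mul, map_neg, conj_ofReal, map_sub, conj_I, mul_re, neg_re, ofReal_re,
          neg_im, ofReal_im, sub_re, I_re, sub_im, mul_im, I_im]
        rw [hs, hω]
        ring
      have h3 : (Lp u v - Lq u v).re = (x - 2 * D - K) / 2 := by
        rw [hx, eD]; simp; ring
      rw [h3] at h1
      rw [hK] at h1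
      nlinarith [h1, h2]
    · have h1 := energy_even hh hL hu hv
      have h2 : ((Lp u v + Lq u v) - (Lp 0 u + Lq 0 u) - (Lp 0 v + Lq 0 v) +
          (Lp 0 0 + Lq 0 0)).re = (Lp u v).re + (Lq u v).re - (Lp 0 u).re - (Lq 0 u).re -
          (Lp 0 v).re - (Lq 0 v).re + (Lp 0 0).re + (Lq 0 0).re := by
        simp; ring
      rw [h2] at h1
      rw [hx, eD, es, hK]
      simp only [sub_re]
      linarith
  have hlip := lip2 hu0 hv0 huv hbne (s := s) (ω := ω) (σ := 2 * D - s) hs hω (by rw [hD])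
  have hmain : Real.log ((1 + ‖u * exp β₁‖ ^ 2) * (1 + ‖v * exp β₂‖ ^ 2)) -
      Real.log ((1 + ‖u‖ ^ 2) * (1 + ‖v‖ ^ 2)) ≤ x := by linarith
  -- parallelogram
  have par : ∀ a b : ℂ, a + b ≠ 0 → 1 + ‖(a - b) / (a + b)‖ ^ 2 =
      2 * (‖a‖ ^ 2 + ‖b‖ ^ 2) / ‖a + b‖ ^ 2 := by
    intro a b hab
    have hn : (0 : ℝ) < ‖a + b‖ := norm_pos_iff.mpr hab
    rw [norm_div, div_pow]
    have hp := parallelogram_law_with_norm ℝ a b
    field_simp
    nlinarith [hp]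
  rw [e1, e2, par _ _ n0u', par _ _ n0v'] at hmain
  have hu2 : 0 < 1 - ‖u‖ ^ 2 := by nlinarith [norm_nonneg u]
  have hv2 : 0 < 1 - ‖v‖ ^ 2 := by nlinarith [norm_nonneg v]
  have hxe : x = Real.log (‖2 * h 0‖ ^ 2 * ‖h u + h v‖ ^ 2 /
      (‖h u + h 0‖ ^ 2 * ‖h v + h 0‖ ^ 2 * ((1 - ‖u‖ ^ 2) * (1 - ‖v‖ ^ 2)))) := by
    rw [hx, hK, ← P00, ← Puv, ← P0u, ← P0v]
    rw [Real.log_div (by positivity) (by positivity), Real.log_mul (by positivity) (by positivity),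
      Real.log_mul (by positivity) (by positivity), Real.log_mul (by positivity) (by positivity),
      Real.log_mul (by positivity) (by positivity), Real.log_pow, Real.log_pow, Real.log_pow,
      Real.log_pow]
    push_cast
    ring
  have hh0 : (0 : ℝ) < ‖h 0‖ := norm_pos_iff.mpr n00
  rw [hxe, ← Real.log_div (by positivity) (by positivity),
    Real.log_le_log_iff (by positivity) (by positivity), norm_mul, Complex.norm_two] at hmain
  rw [div_le_div_iff₀ (by positivity) (by positivity)] at hmain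
  have hmul : 0 < 4 * ‖h u + h 0‖ ^ 2 * ‖h v + h 0‖ ^ 2 := by positivity
  rw [← mul_le_mul_iff_right₀ hmul]
  have r1 : 2 * (‖h u‖ ^ 2 + ‖h 0‖ ^ 2) / ‖h u + h 0‖ ^ 2 *
      (2 * (‖h v‖ ^ 2 + ‖h 0‖ ^ 2) / ‖h v + h 0‖ ^ 2) *
      (‖h u + h 0‖ ^ 2 * ‖h v + h 0‖ ^ 2 * ((1 - ‖u‖ ^ 2) * (1 - ‖v‖ ^ 2))) =
      4 * ((1 - ‖u‖ ^ 2) * (1 - ‖v‖ ^ 2) *
      ((‖h u‖ ^ 2 + ‖h 0‖ ^ 2) * (‖h v‖ ^ 2 + ‖h 0‖ ^ 2))) := by
    field_simp
    ring
  rw [r1] at hmain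
  nlinarith [hmain, hmul, mul_pos hmul hmul]

end Pool.Agent.H99S
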